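import Pool.Agent.H442R2.FX.Defs
import Pool.Agent.H442R2.KF.Big2

/-! FX project, task BF: pairs of large moduli (adapted from KF/Big2.lean). -/

namespace Pool.Agent.H442R2.FX

open Finset
open Pool.Agent.H442R2.KF

namespace TaskBF

open Pool.Agent.H442R2.KF.TaskM3 Pool.Agent.H442R2.KF.TaskTM3

lemma bound_gF (SS_not_dvd : ∀ (N : ℕ) (a a' : ℤ) (g d₁ d₂ : ℕ), ¬ (g : ℤ) ∣ a' - a →
      SS N a a' (g * d₁) (g * d₂) = 0) (C1 η1 : ℝ) (hC1 : 0 < C1)
    (N : ℕ) (hN3 : 3 ≤ N) (D : ℕ) (P : ℕ → Prop)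
    (hErr : ∀ (g : ℕ), 1 ≤ g → g ≤ D →
      ∀ (a k σ : ℤ), (σ = 1 ∨ σ = -1) → 0 ≤ a → a ≤ N → k ≠ 0 → |(g : ℝ) * k| ≤ N →
      ∀ c c' : ℕ → ℝ, (∀ d, |c d| ≤ 1) → (∀ d, |c' d| ≤ 1) → (∀ d, c d ≠ 0 → P d) →
      ‖∑ j ∈ Icc 1 ⌊4 * (D : ℝ) ^ 2 * Real.log N / (g * N)⌋₊,
        ∑ d₁ ∈ Ioc (D / g) (2 * (D / g) + 1),
        ∑ d₂ ∈ (Ioc (D / g) (2 * (D / g) + 1)).filter (fun d₂ => Nat.Coprime d₁ d₂),
          (c (g * d₁) : ℂ) * (c' (g * d₂) : ℂ) * ((N : ℝ) / (g * d₁ * d₂) : ℝ) *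
            ((Real.exp (-Real.pi * ((j : ℝ) * N / (g * d₁ * d₂)) ^ 2) : ℝ) : ℂ) *
            e ((σ : ℝ) * j * a / (g * d₁ * d₂)) * kf (σ * j * k) d₁ d₂‖ ≤
        C1 * (N : ℝ) ^ (1 - η1) / g)
    (hEv : ∀ (a a' k : ℤ) (g d₁ d₂ : ℕ), 1 ≤ g → 1 ≤ d₁ →
      1 ≤ d₂ → Nat.Coprime d₁ d₂ → a' - a = g * k → (g * d₁ * d₂ : ℝ) ≤ (N : ℝ) ^ 3 →
      ∀ J : ℕ, (g * d₁ * d₂ : ℝ) * Real.log N ≤ (J + 1) * N →
      ‖((SS N a a' (g * d₁) (g * d₂) : ℝ) : ℂ) -
        ((N : ℝ) / (g * d₁ * d₂) : ℝ) * ∑ j ∈ Icc (-(J : ℤ)) J,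
          ((Real.exp (-Real.pi * ((j : ℝ) * N / (g * d₁ * d₂)) ^ 2) : ℝ) : ℂ) *
            e ((j : ℝ) * a / (g * d₁ * d₂)) * kf (j * k) d₁ d₂‖ ≤ 1 / (N : ℝ) ^ 5)
    (hD1 : 4 * (D : ℝ) * Real.log N < N) (hD2 : 4 * (D : ℝ) ^ 2 ≤ (N : ℝ) ^ 3)
    (g : ℕ) (hg : 1 ≤ g) (a a' : ℤ) (ha : 0 ≤ a) (haN : a ≤ N) (ha' : 0 ≤ a') (ha'N : a' ≤ N)
    (haa : a ≠ a') (c c' : ℕ → ℝ) (hc : ∀ d, |c d| ≤ 1) (hc' : ∀ d, |c' d| ≤ 1)
    (hP : ∀ d, c d ≠ 0 → P d) :
    |Eg N D g a a' c c'| ≤ ((D : ℝ) + 1) ^ 2 * (1 / (N : ℝ) ^ 5) +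
      2 * C1 * (N : ℝ) ^ (1 - η1) * (1 / g) := by
  have hNr : (3:ℝ) ≤ N := by exact_mod_cast hN3
  have hN0 : (0:ℝ) < N := by linarith
  have hgr : (1:ℝ) ≤ g := by exact_mod_cast hg
  have hg0 : (0:ℝ) < g := by linarith
  have hlog : 0 < Real.log N := Real.log_pos (by linarith)
  have hD0 : (0:ℝ) ≤ D := by positivity
  have hrhs1 : 0 ≤ ((D : ℝ) + 1) ^ 2 * (1 / (N : ℝ) ^ 5) := by positivity
  have hrhs2 : 0 ≤ 2 * C1 * (N : ℝ) ^ (1 - η1) * (1 / g) := by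
    have := Real.rpow_nonneg hN0.le (1 - η1)
    positivity
  by_cases hdiv : (g : ℤ) ∣ a' - a
  · obtain ⟨k, hk⟩ := hdiv
    have hk0 : k ≠ 0 := by
      rintro rfl
      rw [mul_zero] at hk
      exact haa (by linarith)
    have hkN : |(g : ℝ) * k| ≤ N := by
      have h1 : ((g : ℝ) * k) = ((a' - a : ℤ) : ℝ) := by rw [hk]; push_cast; ring
      rw [h1]
      have h2 : |a' - a| ≤ (N : ℤ) := by rw [abs_le]; omega
      have h3 : |((a' - a : ℤ) : ℝ)| = ((|a' - a| : ℤ) : ℝ) := by push_cast; rfl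
      rw [h3]
      exact_mod_cast h2
    set J : ℕ := ⌊4 * (D : ℝ) ^ 2 * Real.log N / (g * N)⌋₊ with hJ
    have hJle : (J : ℝ) ≤ 4 * (D : ℝ) ^ 2 * Real.log N / (g * N) :=
      Nat.floor_le (by positivity)
    have hJlt : 4 * (D : ℝ) ^ 2 * Real.log N / (g * N) < J + 1 := Nat.lt_floor_add_one _
    have hsz : ∀ y ∈ AA D g, g * y.1 ∈ Ioc D (2 * D) → g * y.2 ∈ Ioc D (2 * D) →
        (g * y.1 * y.2 : ℝ) * g ≤ 4 * (D : ℝ) ^ 2 := by
      intro y _ h1 h2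
      rw [mem_Ioc] at h1 h2
      have k1 : ((g : ℝ) * y.1) ≤ 2 * D := by exact_mod_cast h1.2
      have k2 : ((g : ℝ) * y.2) ≤ 2 * D := by exact_mod_cast h2.2
      have k3 : (0:ℝ) ≤ (g : ℝ) * y.2 := by positivity
      calc (g * y.1 * y.2 : ℝ) * g = ((g : ℝ) * y.1) * ((g : ℝ) * y.2) := by ring
        _ ≤ (2 * D) * (2 * D) := mul_le_mul k1 k2 k3 (by positivity)
        _ = 4 * (D : ℝ) ^ 2 := by ring
    have hS : ∀ y ∈ AA D g, g * y.1 ∈ Ioc D (2 * D) → g * y.2 ∈ Ioc D (2 * D) →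
        ‖((SS N a a' (g * y.1) (g * y.2) : ℝ) : ℂ) - ∑ j ∈ Icc (-(J : ℤ)) J, trm N g a k j y‖ ≤
          1 / (N : ℝ) ^ 5 := by
      intro y hy h1 h2
      have hs := hsz y hy h1 h2
      simp only [AA, mem_filter, mem_product, mem_Ioc] at hy
      have hs0 : (0:ℝ) ≤ (g * y.1 * y.2 : ℝ) := by positivity
      have h3 := hEv a a' k g y.1 y.2 hg (by omega) (by omega) hy.2 hk
        (by
          have : (g * y.1 * y.2 : ℝ) ≤ (g * y.1 * y.2 : ℝ) * g := le_mul_of_one_le_right hs0 hgr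
          linarith) J
        (by
          rw [div_lt_iff₀ (by positivity)] at hJlt
          have h4 : (g * y.1 * y.2 : ℝ) * Real.log N * g ≤ (J + 1) * N * g := by
            calc (g * y.1 * y.2 : ℝ) * Real.log N * g = ((g * y.1 * y.2 : ℝ) * g) * Real.log N := by
                  ring
              _ ≤ (4 * (D : ℝ) ^ 2) * Real.log N := mul_le_mul_of_nonneg_right hs hlog.le
              _ ≤ (J + 1) * (g * N) := hJlt.le
              _ = (J + 1) * N * g := by ring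
          exact le_of_mul_le_mul_right h4 hg0)
      rw [Finset.mul_sum] at h3
      have h5 : ∑ j ∈ Icc (-(J : ℤ)) J, trm N g a k j y =
          ∑ j ∈ Icc (-(J : ℤ)) J, ((N : ℝ) / (g * y.1 * y.2) : ℝ) *
            (((Real.exp (-Real.pi * ((j : ℝ) * N / (g * y.1 * y.2)) ^ 2) : ℝ) : ℂ) *
            e ((j : ℝ) * a / (g * y.1 * y.2)) * kf (j * k) y.1 y.2) := by
        apply Finset.sum_congr rfl
        intro j _
        unfold trm
        ring
      rw [h5]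
      exact h3
    by_cases hgD : g ≤ D
    · -- the bound of all frequencies
      have hhalf : ∀ σ : ℤ, (σ = 1 ∨ σ = -1) →
          ‖∑ j ∈ Icc 1 J, ∑ y ∈ AA D g, (tc D c (g * y.1) : ℂ) * (tc D c' (g * y.2) : ℂ) *
            trm N g a k (σ * (j : ℤ)) y‖ ≤ C1 * (N : ℝ) ^ (1 - η1) / g := by
        intro σ hσ
        have h1 := hErr g hg hgD a k σ hσ ha haN hk0 hkN (tc D c) (tc D c') (tc_le hc) (tc_le hc')
          (by
            intro d hd
            apply hP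
            intro h0
            apply hd
            unfold tc
            split_ifs
            · exact h0
            · rfl)
        rw [← hJ] at h1
        refine le_trans (le_of_eq ?_) h1
        congr 1
        apply Finset.sum_congr rfl
        intro j _
        rw [sum_AA D g (fun d₁ d₂ => (tc D c (g * d₁) : ℂ) * (tc D c' (g * d₂) : ℂ) *
          ((N : ℝ) / (g * d₁ * d₂) : ℝ) *
            ((Real.exp (-Real.pi * ((j : ℝ) * N / (g * d₁ * d₂)) ^ 2) : ℝ) : ℂ) *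
            e ((σ : ℝ) * j * a / (g * d₁ * d₂)) * kf (σ * j * k) d₁ d₂)]
        apply Finset.sum_congr rfl
        intro y _
        rw [trm_sigma N g a k σ hσ j y]
        ring
      have hB : ‖∑ j ∈ (Icc (-(J : ℤ)) J).erase 0,
          ∑ y ∈ AA D g, (tc D c (g * y.1) : ℂ) * (tc D c' (g * y.2) : ℂ) * trm N g a k j y‖ ≤
            2 * (C1 * (N : ℝ) ^ (1 - η1) / g) := by
        rw [split_J J (fun j => ∑ y ∈ AA D g, (tc D c (g * y.1) : ℂ) * (tc D c' (g * y.2) : ℂ) *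
          trm N g a k j y)]
        refine (norm_add_le _ _).trans ?_
        have h1 := hhalf 1 (Or.inl rfl)
        have h2 := hhalf (-1) (Or.inr rfl)
        linarith
      have h1 := per_g2 N D g hg a a' k hk J c c' hc hc' (1 / (N : ℝ) ^ 5) _ (by positivity) hS hB
      refine h1.trans (add_le_add ?_ (le_of_eq ?_))
      · exact mul_le_mul_of_nonneg_right (card_AA D g) (by positivity)
      · ring
    · -- no frequencies
      have hJ0 : J = 0 := by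
        rw [hJ, Nat.floor_eq_zero, div_lt_one (by positivity)]
        have h1 : (D : ℝ) ≤ g := by
          have : D ≤ g := by omega
          exact_mod_cast this
        calc 4 * (D : ℝ) ^ 2 * Real.log N = D * (4 * (D : ℝ) * Real.log N) := by ring
          _ ≤ g * (4 * (D : ℝ) * Real.log N) := mul_le_mul_of_nonneg_right h1 (by positivity)
          _ < g * N := mul_lt_mul_of_pos_left hD1 hg0
      have h1 := per_g2 N D g hg a a' k hk J c c' hc hc' (1 / (N : ℝ) ^ 5) 0 (by positivity) hS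
        (by
          rw [hJ0]
          simp)
      refine h1.trans ?_
      rw [add_zero]
      have := mul_le_mul_of_nonneg_right (card_AA D g) (show (0:ℝ) ≤ 1 / (N : ℝ) ^ 5 by positivity)
      linarith
  · rw [Eg_zero SS_not_dvd N D g a a' c c' hdiv, abs_zero]
    linarith

end TaskBF

open Pool.Agent.H442R2.KF.TaskM3 Pool.Agent.H442R2.KF.TaskTM3 TaskBF in
theorem BF (hEF : St_EF) : St_BF := by
  intro θ δ hhalf hθ hδ
  have hθ0 : 0 < θ := by linarith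
  obtain ⟨η1, C1, hη1, hC1, hErr⟩ := hEF θ δ hhalf hθ hδ
  obtain ⟨η, hη⟩ : ∃ η : ℝ, η = min η1 1 / 2 := ⟨_, rfl⟩
  have hmin : 0 < min η1 1 := lt_min hη1 one_pos
  have hη0 : 0 < η := by rw [hη]; linarith
  have hηlt : η < 1 := by
    have := min_le_right η1 1
    rw [hη]; linarith
  have hη2 : 2 * η ≤ η1 := by
    have := min_le_left η1 1
    rw [hη]; linarith
  obtain ⟨N1, hN1⟩ := SS_eval
  set N0 : ℕ := max N1 (20 ^ 5 + 1) with hN0
  set C2 : ℝ := ∑ N ∈ range N0, ((N : ℝ) ^ 2 * ((∑' n : ℤ, Wt N n) + N)) with hC2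
  have hC2t : ∀ N : ℕ, 0 ≤ (N : ℝ) ^ 2 * ((∑' n : ℤ, Wt N n) + N) := by
    intro N
    have hS0 : 0 ≤ ∑' n : ℤ, Wt N n := tsum_nonneg (fun n => (Real.exp_pos _).le)
    positivity
  have hC20 : 0 ≤ C2 := Finset.sum_nonneg (fun N _ => hC2t N)
  refine ⟨η, C2 + 8 + 6 * C1 * (1 / η), hη0, by positivity, ?_⟩
  intro N D hN hDN a a' ha haN ha' ha'N haa c c' hc hc' hP
  have hN1r : (1:ℝ) ≤ N := by
    have : 1 ≤ N := by omega
    exact_mod_cast this
  have hNpos : (0:ℝ) < N := by linarith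
  have hpow1 : (1:ℝ) ≤ (N : ℝ) ^ (1 - η) := Real.one_le_rpow hN1r (by linarith)
  have hDleN : (D : ℝ) ≤ N := by
    refine hDN.trans ?_
    calc (N : ℝ) ^ θ ≤ (N : ℝ) ^ (1:ℝ) := Real.rpow_le_rpow_of_exponent_le hN1r (by linarith)
      _ = N := Real.rpow_one _
  have hDleN' : D ≤ N := by exact_mod_cast hDleN
  have hK0 : 0 ≤ 6 * C1 * (1 / η) := by positivity
  by_cases hlarge : N < N0
  · refine (trivial_bound N D (by omega) hDleN' a a' c c' hc hc').trans ?_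
    have h1 : (N : ℝ) ^ 2 * ((∑' n : ℤ, Wt N n) + N) ≤ C2 :=
      Finset.single_le_sum (f := fun N : ℕ => (N : ℝ) ^ 2 * ((∑' n : ℤ, Wt N n) + N))
        (fun N _ => hC2t N) (Finset.mem_range.mpr hlarge)
    calc (N : ℝ) ^ 2 * ((∑' n : ℤ, Wt N n) + N) ≤ C2 * 1 := by rw [mul_one]; exact h1
      _ ≤ (C2 + 8 + 6 * C1 * (1 / η)) * (N : ℝ) ^ (1 - η) := by
        apply mul_le_mul _ hpow1 zero_le_one (by positivity)
        linarith
  · push Not at hlarge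
    have hNN1 : N1 ≤ N := (le_max_left _ _).trans hlarge
    have hN16 : 20 ^ 5 + 1 ≤ N := (le_max_right _ _).trans hlarge
    have hN3 : 3 ≤ N := by omega
    have h16 : (20:ℝ) < (N : ℝ) ^ (1 / 5 : ℝ) := by
      have h1 : ((20:ℝ) ^ (5:ℕ)) < N := by
        have : 20 ^ 5 < N := by omega
        exact_mod_cast this
      calc (20:ℝ) = ((20:ℝ) ^ (5:ℕ)) ^ (1 / 5 : ℝ) := by
            rw [← Real.rpow_natCast, ← Real.rpow_mul (by norm_num)]
            norm_num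
        _ < (N : ℝ) ^ (1 / 5 : ℝ) := Real.rpow_lt_rpow (by positivity) h1 (by norm_num)
    have hlog0 : 0 < Real.log N := Real.log_pos (by
      have : (3:ℝ) ≤ N := by exact_mod_cast hN3
      linarith)
    have hD1 : 4 * (D : ℝ) * Real.log N < N := by
      have h1 : Real.log N ≤ (N : ℝ) ^ (1 / 5 : ℝ) / (1 / 5) :=
        Real.log_le_rpow_div hNpos.le (by norm_num)
      have h2 : 0 < (N : ℝ) ^ θ := Real.rpow_pos_of_pos hNpos _
      have h3 : 0 < (N : ℝ) ^ (1 / 5 : ℝ) := Real.rpow_pos_of_pos hNpos _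
      calc 4 * (D : ℝ) * Real.log N ≤ 4 * (N : ℝ) ^ θ * ((N : ℝ) ^ (1 / 5 : ℝ) / (1 / 5)) := by
            apply mul_le_mul _ h1 hlog0.le (by positivity)
            linarith
        _ = 20 * ((N : ℝ) ^ θ * (N : ℝ) ^ (1 / 5 : ℝ)) := by ring
        _ < (N : ℝ) ^ (1 / 5 : ℝ) * ((N : ℝ) ^ θ * (N : ℝ) ^ (1 / 5 : ℝ)) :=
            mul_lt_mul_of_pos_right h16 (by positivity)
        _ = (N : ℝ) ^ (1 / 5 + (θ + 1 / 5) : ℝ) := by
            rw [← Real.rpow_add hNpos, ← Real.rpow_add hNpos]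
        _ ≤ (N : ℝ) ^ (1:ℝ) := Real.rpow_le_rpow_of_exponent_le hN1r (by linarith)
        _ = N := Real.rpow_one _
    have hD2 : 4 * (D : ℝ) ^ 2 ≤ (N : ℝ) ^ 3 := by
      have h4 : (4:ℝ) ≤ N := by
        have : 4 ≤ N := by omega
        exact_mod_cast this
      have h5 : (D : ℝ) ^ 2 ≤ (N : ℝ) ^ 2 := pow_le_pow_left₀ (by positivity) hDleN 2
      calc 4 * (D : ℝ) ^ 2 ≤ N * (N : ℝ) ^ 2 := mul_le_mul h4 h5 (by positivity) hNpos.le
        _ = (N : ℝ) ^ 3 := by ring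
    have hmain : ∑ d ∈ Ioc D (2 * D), ∑ d' ∈ Ioc D (2 * D), c d * c' d' *
        (SS N a a' d d' - N * Fh (a' - a) (Nat.gcd d d') / (d * d')) =
        ∑ g ∈ Icc 1 (2 * D), Eg N D g a a' c c' := by
      have h1 : ∑ d ∈ Ioc D (2 * D), ∑ d' ∈ Ioc D (2 * D), c d * c' d' *
          (SS N a a' d d' - N * Fh (a' - a) (Nat.gcd d d') / (d * d')) =
          ∑ d ∈ Ioc D (2 * D), ∑ d' ∈ Ioc D (2 * D), tc D c d * tc D c' d' *
          (SS N a a' d d' - N * Fh (a' - a) (Nat.gcd d d') / ((d : ℝ) * (d' : ℝ))) := by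
        apply Finset.sum_congr rfl
        intro d hd
        apply Finset.sum_congr rfl
        intro d' hd'
        unfold tc
        rw [if_pos hd, if_pos hd']
      rw [h1]
      rw [group D (fun d d' => tc D c d * tc D c' d' *
          (SS N a a' d d' - N * Fh (a' - a) (Nat.gcd d d') / ((d : ℝ) * (d' : ℝ)))) ?_]
      · rfl
      · intro d d' h
        unfold tc
        rcases h with h | h
        · rw [if_neg h]; ring
        · rw [if_neg h]; ring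
    rw [hmain]
    have hb := fun g (hg : g ∈ Icc 1 (2 * D)) => bound_gF SS_not_dvd C1 η1 hC1 N hN3 D
      (FacD N θ δ) (fun g hg hgD => hErr N D g hN3 hDN hg hgD)
      (hN1 N hNN1) hD1 hD2 g (Finset.mem_Icc.mp hg).1 a a' ha haN ha' ha'N haa c c' hc hc' hP
    refine (Finset.abs_sum_le_sum_abs _ _).trans ((Finset.sum_le_sum hb).trans ?_)
    rw [Finset.sum_add_distrib, Finset.sum_const, ← Finset.mul_sum, Nat.card_Icc, nsmul_eq_mul]
    have hfirst : ((2 * D + 1 - 1 : ℕ) : ℝ) * (((D : ℝ) + 1) ^ 2 * (1 / (N : ℝ) ^ 5)) ≤ 8 := by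
      have h1 : ((2 * D + 1 - 1 : ℕ) : ℝ) = 2 * D := by
        rw [Nat.add_sub_cancel]; push_cast; ring
      rw [h1]
      have h2 : (D : ℝ) + 1 ≤ 2 * N := by linarith
      have h3 : ((D : ℝ) + 1) ^ 2 ≤ (2 * N) ^ 2 := pow_le_pow_left₀ (by positivity) h2 2
      have h4 : 2 * (D : ℝ) * (((D : ℝ) + 1) ^ 2 * (1 / (N : ℝ) ^ 5)) ≤
          2 * N * ((2 * N) ^ 2 * (1 / (N : ℝ) ^ 5)) := by
        apply mul_le_mul (by linarith) _ (by positivity) (by positivity)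
        exact mul_le_mul_of_nonneg_right h3 (by positivity)
      refine h4.trans ?_
      have h5 : 2 * (N : ℝ) * ((2 * N) ^ 2 * (1 / (N : ℝ) ^ 5)) = 8 * (1 / (N : ℝ) ^ 2) := by
        field_simp
        ring
      rw [h5]
      have h6 : 1 / (N : ℝ) ^ 2 ≤ 1 := by
        rw [div_le_one (by positivity)]
        exact one_le_pow₀ hN1r
      linarith
    have hlogN : 1 ≤ Real.log N := by
      rw [Real.le_log_iff_exp_le hNpos]
      have h1 := Real.exp_one_lt_d9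
      have h2 : (3:ℝ) ≤ N := by exact_mod_cast hN3
      linarith
    have hsum : ∑ g ∈ Icc 1 (2 * D), (1 / (g : ℝ)) ≤ 3 * Real.log N := by
      refine (sum_inv (2 * D)).trans ?_
      by_cases hD0 : D = 0
      · subst hD0
        simp
        linarith
      · have hDpos : (0:ℝ) < D := by
          have : 0 < D := Nat.pos_of_ne_zero hD0
          exact_mod_cast this
        have h1 : Real.log ((2 * D : ℕ) : ℝ) ≤ 2 * Real.log N := by
          have h2 : Real.log ((2 * D : ℕ) : ℝ) ≤ Real.log ((N : ℝ) ^ 2) := by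
            apply Real.log_le_log (by push_cast; positivity)
            push_cast
            have h3 : (2:ℝ) ≤ N := by exact_mod_cast hN
            nlinarith
          rw [Real.log_pow] at h2
          exact_mod_cast h2
        linarith
    have hlog1 : Real.log N ≤ (1 / η) * (N : ℝ) ^ η := by
      have h1 : Real.log N ≤ (N : ℝ) ^ η / η := Real.log_le_rpow_div hNpos.le hη0
      refine h1.trans (le_of_eq ?_)
      ring
    have hpw : (N : ℝ) ^ (1 - η1) ≤ (N : ℝ) ^ (1 - 2 * η) :=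
      Real.rpow_le_rpow_of_exponent_le hN1r (by linarith)
    have hpw0 : 0 ≤ (N : ℝ) ^ (1 - η1) := Real.rpow_nonneg hNpos.le _
    have hpw1 : 0 ≤ (N : ℝ) ^ (1 - 2 * η) := Real.rpow_nonneg hNpos.le _
    have hsecond : 2 * C1 * (N : ℝ) ^ (1 - η1) *
        ∑ g ∈ Icc 1 (2 * D), (1 / (g : ℝ)) ≤ 6 * C1 * (1 / η) * (N : ℝ) ^ (1 - η) := by
      calc 2 * C1 * (N : ℝ) ^ (1 - η1) * ∑ g ∈ Icc 1 (2 * D), (1 / (g : ℝ)) ≤
          2 * C1 * (N : ℝ) ^ (1 - 2 * η) * (3 * Real.log N) := by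
            apply mul_le_mul _ hsum (Finset.sum_nonneg (fun g _ => by positivity)) (by positivity)
            exact mul_le_mul_of_nonneg_left hpw (by positivity)
        _ = 6 * C1 * (N : ℝ) ^ (1 - 2 * η) * Real.log N := by ring
        _ ≤ 6 * C1 * (N : ℝ) ^ (1 - 2 * η) * ((1 / η) * (N : ℝ) ^ η) :=
            mul_le_mul_of_nonneg_left hlog1 (by positivity)
        _ = 6 * C1 * (1 / η) * ((N : ℝ) ^ (1 - 2 * η) * (N : ℝ) ^ η) := by ring
        _ = 6 * C1 * (1 / η) * (N : ℝ) ^ (1 - η) := by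
            rw [← Real.rpow_add hNpos]
            congr 2
            ring
    have h8 : (8:ℝ) ≤ 8 * (N : ℝ) ^ (1 - η) := by linarith
    have h9 : 0 ≤ C2 * (N : ℝ) ^ (1 - η) := by positivity
    calc _ ≤ 8 + 6 * C1 * (1 / η) * (N : ℝ) ^ (1 - η) := add_le_add hfirst hsecond
      _ ≤ (C2 + 8 + 6 * C1 * (1 / η)) * (N : ℝ) ^ (1 - η) := by linarith

end Pool.Agent.H442R2.FX
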