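import Pool.Agent.H442R2.FX.Defs
import Pool.Agent.H442R2.KF.Corr2
import Pool.Agent.H442R2.KF.Small
import Pool.Agent.H442R2.KF.Crt

/-! FX project, task CF: correlations of different residues (adapted from KF/Corr2.lean). -/

namespace Pool.Agent.H442R2.FX

open Finset
open Pool.Agent.H442R2.KF

open Pool.Agent.H442R2.KF.TaskO2 in
theorem CF (hBF : St_BF) : St_CF := by
  intro θ δ hhalf hθ hδ
  obtain ⟨θ', hθ'⟩ : ∃ θ' : ℝ, θ' = θ := ⟨_, rfl⟩
  have hθ1 : θ' < 5 / 9 := by rw [hθ']; exact hθ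
  have hθ2 : 1 / 2 ≤ θ' := by rw [hθ']; exact hhalf
  obtain ⟨ηb, Cb, hηb, hCb, hbig⟩ := hBF θ' δ hθ2 hθ1 hδ
  obtain ⟨N₀, hsmall⟩ := small_pairs_of SS_not_dvd SS_eval
  obtain ⟨Ct, hCt, htau⟩ := Pool.Agent.H510R2.divisor_bound (1 / 200) (by norm_num)
  set N₁ := max N₀ 16 with hN₁
  set C₀ : ℝ := ∑ N ∈ range N₁, (∑' n : ℤ, Wt N n) * (2 * N * LL N) ^ 2 with hC₀
  have hWn : ∀ N : ℕ, 0 ≤ ∑' n : ℤ, Wt N n := fun N => tsum_nonneg fun n => (Wt_pos N n).le
  have hC₀0 : 0 ≤ C₀ := sum_nonneg fun N _ => mul_nonneg (hWn N) (sq_nonneg _)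
  refine ⟨min ηb (1 / 200), C₀ + Cb + 16 * Ct + 12 * 403 ^ 2 + 4 * Ct * 403 ^ 2, by positivity,
    by positivity, ?_⟩
  intro N D hN hQD hDθ a a' ha0 haN ha0' haN' haa c c' hc hc' hP hP'
  rw [← hθ'] at hP
  set η := min ηb (1 / 200) with hη
  have hη1 : η ≤ ηb := min_le_left _ _
  have hη2 : η ≤ 1 / 200 := min_le_right _ _
  obtain ⟨q1, q2, q3⟩ := QN_facts N hN
  set Q := QN N with hQ
  have hN1 : (1 : ℝ) ≤ N := by
    have : 1 ≤ N := by omega
    exact_mod_cast this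
  have hN0 : (0 : ℝ) < N := by linarith
  have hD1 : 1 ≤ D := q1.trans hQD
  have hDθ' : (D : ℝ) ≤ (N : ℝ) ^ θ' := by rw [hθ']; exact hDθ
  have hDN : D ≤ N := by
    have : (D : ℝ) ≤ N := by
      calc (D : ℝ) ≤ (N : ℝ) ^ θ' := hDθ'
        _ ≤ (N : ℝ) ^ (1 : ℝ) := Real.rpow_le_rpow_of_exponent_le hN1 (by linarith)
        _ = N := Real.rpow_one _
    exact_mod_cast this
  have hpow1 : 1 ≤ (N : ℝ) ^ (1 - η) := Real.one_le_rpow hN1 (by linarith)
  obtain ⟨bw, bu⟩ := uu_bounds N D hN c hc fun d => abs_ww_le c D Q d hc q1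
  obtain ⟨bw', bu'⟩ := uu_bounds N D hN c' hc' fun d => abs_ww_le c' D Q d hc' q1
  have hLL1 : 1 ≤ LL N := by
    have h5 : (1 : ℝ) ≤ (N : ℝ) ^ (1 / 200 : ℝ) := Real.one_le_rpow hN1 (by norm_num)
    unfold LL
    linarith
  by_cases hsm : N < N₁
  · -- small N
    refine (crude N D hN hDN a a' haa _ _ bu bu').trans ?_
    have h1 : (∑' n : ℤ, Wt N n) * (2 * N * LL N) ^ 2 ≤ C₀ :=
      single_le_sum (f := fun N : ℕ => (∑' n : ℤ, Wt N n) * (2 * N * LL N) ^ 2)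
        (fun N _ => mul_nonneg (hWn N) (sq_nonneg _)) (mem_range.2 hsm)
    have h2 : C₀ ≤ C₀ * (N : ℝ) ^ (1 - η) := le_mul_of_one_le_right hC₀0 hpow1
    have h3 : 0 ≤ (Cb + 16 * Ct + 12 * 403 ^ 2 + 4 * Ct * 403 ^ 2) * (N : ℝ) ^ (1 - η) := by
      positivity
    nlinarith
  push Not at hsm
  have hNN0 : N₀ ≤ N := (le_max_left _ _).trans hsm
  have hN16 : 16 ≤ N := (le_max_right _ _).trans hsm
  rw [(hasSum_rr N (by omega) _ _ (2 * D) a a' haa).tsum_eq, split_main]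
  -- the divisor function
  have hh0 : a' - a ≠ 0 := sub_ne_zero.2 (Ne.symm haa)
  have hhN : (a' - a).natAbs ≤ N := by omega
  have hh1 : 1 ≤ (a' - a).natAbs := by omega
  have htauN : tau (a' - a).natAbs ≤ Ct * (N : ℝ) ^ (1 / 200 : ℝ) := by
    refine (htau _ hh1).trans ?_
    refine mul_le_mul_of_nonneg_left ?_ hCt.le
    exact Real.rpow_le_rpow (by positivity) (by exact_mod_cast hhN) (by norm_num)
  -- main part
  have e1 : |(N : ℝ) * (∑ d ∈ Icc 1 (2 * D), ∑ d' ∈ Icc 1 (2 * D), uu c (2 * D) Q d *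
      uu c' (2 * D) Q d' * Fh (a' - a) (Nat.gcd d d') / (d * d'))| ≤
      16 * Ct * (N : ℝ) ^ (1 - η) := by
    rw [abs_mul, abs_of_pos hN0]
    have h1 := main_bound_of bilinear uh_uu abs_uh_le D Q q1 hQD c c' hc hc' (a' - a) hh0
    have hQ0 : (0 : ℝ) < Q := by
      have : 0 < Q := by omega
      exact_mod_cast this
    calc (N : ℝ) * |∑ d ∈ Icc 1 (2 * D), ∑ d' ∈ Icc 1 (2 * D), uu c (2 * D) Q d *
        uu c' (2 * D) Q d' * Fh (a' - a) (Nat.gcd d d') / (d * d')|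
        ≤ N * (8 * tau (a' - a).natAbs / Q) := mul_le_mul_of_nonneg_left h1 hN0.le
      _ ≤ N * (8 * (Ct * (N : ℝ) ^ (1 / 200 : ℝ)) / Q) := by
          refine mul_le_mul_of_nonneg_left ?_ hN0.le
          refine div_le_div_of_nonneg_right ?_ hQ0.le
          linarith
      _ ≤ 16 * Ct * (N : ℝ) ^ (1 - 1 / 200 : ℝ) := by
          rw [mul_div_assoc', div_le_iff₀ hQ0]
          have h2 : (N : ℝ) * (N : ℝ) ^ (1 / 200 : ℝ) = (N : ℝ) ^ (1 - 1 / 200 : ℝ) *
              (N : ℝ) ^ (1 / 100 : ℝ) := by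
            rw [← Real.rpow_add hN0]
            nth_rw 1 [← Real.rpow_one (N : ℝ)]
            rw [← Real.rpow_add hN0]
            norm_num
          have h3 : (N : ℝ) ^ (1 - 1 / 200 : ℝ) * (N : ℝ) ^ (1 / 100 : ℝ) ≤
              (N : ℝ) ^ (1 - 1 / 200 : ℝ) * (2 * Q) :=
            mul_le_mul_of_nonneg_left q3 (by positivity)
          nlinarith
      _ ≤ 16 * Ct * (N : ℝ) ^ (1 - η) := by
          refine mul_le_mul_of_nonneg_left ?_ (by positivity)
          exact Real.rpow_le_rpow_of_exponent_le hN1 (by linarith)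
  -- the deviations
  have e2 : |∑ d ∈ Icc 1 (2 * D), ∑ d' ∈ Icc 1 (2 * D), uu c (2 * D) Q d *
      uu c' (2 * D) Q d' * Del N a a' d d'| ≤ (Cb + 12 * 403 ^ 2) * (N : ℝ) ^ (1 - η) := by
    have h1 : ∑ d ∈ Icc 1 (2 * D), ∑ d' ∈ Icc 1 (2 * D), uu c (2 * D) Q d *
        uu c' (2 * D) Q d' * Del N a a' d d' =
        ∑ d ∈ Icc 1 (2 * D), ∑ d' ∈ Icc 1 (2 * D),
          ((c d - ww c (2 * D) Q d) * (c' d' - ww c' (2 * D) Q d') - c d * c' d') *
            Del N a a' d d' +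
        ∑ d ∈ Ioc D (2 * D), ∑ d' ∈ Ioc D (2 * D), c d * c' d' * Del N a a' d d' := by
      rw [← sum_cc c c' D hc hc' (Del N a a'), ← sum_add_distrib]
      refine sum_congr rfl fun d _ => ?_
      rw [← sum_add_distrib]
      refine sum_congr rfl fun d' _ => ?_
      unfold uu
      ring
    have h2 : |∑ d ∈ Ioc D (2 * D), ∑ d' ∈ Ioc D (2 * D), c d * c' d' * Del N a a' d d'| ≤
        Cb * (N : ℝ) ^ (1 - η) := by
      refine (hbig N D hN hDθ' a a' ha0 haN ha0' haN' haa c c' hc.bd hc'.bd hP).trans ?_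
      refine mul_le_mul_of_nonneg_left ?_ hCb.le
      exact Real.rpow_le_rpow_of_exponent_le hN1 (by linarith)
    have h3 : |∑ d ∈ Icc 1 (2 * D), ∑ d' ∈ Icc 1 (2 * D),
          ((c d - ww c (2 * D) Q d) * (c' d' - ww c' (2 * D) Q d') - c d * c' d') *
            Del N a a' d d'| ≤ 12 * 403 ^ 2 * (N : ℝ) ^ (1 - η) := by
      refine (rest_le N D Q a a' c c' _ _ (LL N) (1 / (N : ℝ) ^ 5) hLL1 (by positivity) hc.bd
        hc'.bd bw bw' (fun d hd => ww_zero c (2 * D) Q d hd)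
        (fun d hd => ww_zero c' (2 * D) Q d hd) ?_).trans ?_
      · intro d d' hd hd' hd2 hd2' hor
        refine hsmall N hNN0 a a' d d' hd hd' ?_
        have h4 : (d * d' : ℝ) ≤ 2 * D * Q := by
          rcases hor with h | h
          · have g1 : (d : ℝ) ≤ Q := by exact_mod_cast h
            have g2 : (d' : ℝ) ≤ 2 * D := by exact_mod_cast hd2'
            calc (d * d' : ℝ) ≤ Q * (2 * D) := mul_le_mul g1 g2 (by positivity) (by positivity)
              _ = 2 * D * Q := by ring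
          · have g1 : (d' : ℝ) ≤ Q := by exact_mod_cast h
            have g2 : (d : ℝ) ≤ 2 * D := by exact_mod_cast hd2
            exact mul_le_mul g2 g1 (by positivity) (by positivity)
        refine h4.trans ?_
        have h5 : (2 : ℝ) ≤ (N : ℝ) ^ (1 / 4 : ℝ) := by
          have g1 : (16 : ℝ) ≤ N := by exact_mod_cast hN16
          calc (2 : ℝ) = (16 : ℝ) ^ (1 / 4 : ℝ) := by
                rw [show (16 : ℝ) = 2 ^ (4 : ℝ) by norm_num, ← Real.rpow_mul (by norm_num)]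
                norm_num
            _ ≤ (N : ℝ) ^ (1 / 4 : ℝ) := Real.rpow_le_rpow (by norm_num) g1 (by norm_num)
        calc (2 * D * Q : ℝ) ≤ (N : ℝ) ^ (1 / 4 : ℝ) * (N : ℝ) ^ θ' * (N : ℝ) ^ (1 / 100 : ℝ) := by
              refine mul_le_mul (mul_le_mul h5 hDθ' (by positivity) (by positivity)) q2
                (by positivity) (by positivity)
          _ = (N : ℝ) ^ (1 / 4 + θ' + 1 / 100 : ℝ) := by
              rw [Real.rpow_add hN0, Real.rpow_add hN0]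
          _ ≤ (N : ℝ) ^ (9 / 10 : ℝ) :=
              Real.rpow_le_rpow_of_exponent_le hN1 (by linarith)
      · have hD' : (D : ℝ) ≤ N := by exact_mod_cast hDN
        have hL2 : LL N ^ 2 ≤ 403 ^ 2 * N := by
          unfold LL
          rw [mul_pow]
          refine mul_le_mul_of_nonneg_left ?_ (by positivity)
          rw [← Real.rpow_natCast, ← Real.rpow_mul hN0.le]
          calc (N : ℝ) ^ ((1 / 200 : ℝ) * ((2 : ℕ) : ℝ)) ≤ (N : ℝ) ^ (1 : ℝ) :=
                Real.rpow_le_rpow_of_exponent_le hN1 (by norm_num)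
            _ = N := Real.rpow_one _
        calc ((2 * D : ℝ)) ^ 2 * (3 * LL N ^ 2 * (1 / (N : ℝ) ^ 5))
            ≤ (2 * N) ^ 2 * (3 * (403 ^ 2 * N) * (1 / (N : ℝ) ^ 5)) := by
              refine mul_le_mul ?_ ?_ (by positivity) (by positivity)
              · exact pow_le_pow_left₀ (by positivity) (by linarith) 2
              · refine mul_le_mul_of_nonneg_right ?_ (by positivity)
                linarith
          _ = 12 * 403 ^ 2 * (1 / (N : ℝ) ^ 2) := by field_simp; ring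
          _ ≤ 12 * 403 ^ 2 * 1 := by
              refine mul_le_mul_of_nonneg_left ?_ (by positivity)
              rw [div_le_one (by positivity)]
              exact one_le_pow₀ hN1
          _ ≤ 12 * 403 ^ 2 * (N : ℝ) ^ (1 - η) :=
              mul_le_mul_of_nonneg_left hpow1 (by positivity)
    rw [h1]
    refine (abs_add_le _ _).trans ?_
    linarith
  -- the points a and a'
  have hLLp : LL N * LL N = 403 ^ 2 * (N : ℝ) ^ (1 / 100 : ℝ) := by
    unfold LL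
    have : (N : ℝ) ^ (1 / 100 : ℝ) = (N : ℝ) ^ (1 / 200 : ℝ) * (N : ℝ) ^ (1 / 200 : ℝ) := by
      rw [← Real.rpow_add hN0]; norm_num
    rw [this]; ring
  have e3 : ∀ (w x y : ℝ), 0 ≤ w → w ≤ 1 → |x| ≤ (2 * D : ℕ) * LL N →
      |y| ≤ tau (a' - a).natAbs * LL N → |w * (x * y)| ≤ 2 * Ct * 403 ^ 2 * (N : ℝ) ^ (1 - η) := by
    intro w x y hw0 hw1 hx hy
    have hT0 : 0 ≤ tau (a' - a).natAbs := by unfold tau; positivity
    rw [abs_mul, abs_mul, abs_of_nonneg hw0]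
    calc w * (|x| * |y|) ≤ 1 * (((2 * D : ℕ) * LL N) * (tau (a' - a).natAbs * LL N)) := by
          refine mul_le_mul hw1 (mul_le_mul hx hy (abs_nonneg _) (by positivity))
            (by positivity) zero_le_one
      _ = 2 * D * tau (a' - a).natAbs * (LL N * LL N) := by push_cast; ring
      _ ≤ 2 * (N : ℝ) ^ θ' * (Ct * (N : ℝ) ^ (1 / 200 : ℝ)) *
          (403 ^ 2 * (N : ℝ) ^ (1 / 100 : ℝ)) := by
          rw [hLLp]
          refine mul_le_mul_of_nonneg_right ?_ (by positivity)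
          refine mul_le_mul (by linarith) htauN hT0 (by positivity)
      _ = 2 * Ct * 403 ^ 2 * (N : ℝ) ^ (θ' + 1 / 200 + 1 / 100 : ℝ) := by
          rw [Real.rpow_add hN0, Real.rpow_add hN0]; ring
      _ ≤ 2 * Ct * 403 ^ 2 * (N : ℝ) ^ (1 - η) := by
          refine mul_le_mul_of_nonneg_left ?_ (by positivity)
          exact Real.rpow_le_rpow_of_exponent_le hN1 (by linarith)
  have hL0 : 0 ≤ LL N := by linarith
  have e4 : |Wt N a * (rho (uu c (2 * D) Q) (2 * D) a a * rho (uu c' (2 * D) Q) (2 * D) a' a)| ≤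
      2 * Ct * 403 ^ 2 * (N : ℝ) ^ (1 - η) := by
    refine e3 _ _ _ (Wt_pos N a).le (Wt_le_one N a) (abs_rho_le _ _ _ _ _ hL0 bu) ?_
    have h1 := abs_rho_le_tau (uu c' (2 * D) Q) (2 * D) a' a (LL N) hL0 bu' haa
    have h2 : (a - a').natAbs = (a' - a).natAbs := by omega
    rw [h2] at h1
    exact h1
  have e5 : |Wt N a' * (rho (uu c (2 * D) Q) (2 * D) a a' *
      rho (uu c' (2 * D) Q) (2 * D) a' a')| ≤ 2 * Ct * 403 ^ 2 * (N : ℝ) ^ (1 - η) := by
    rw [mul_comm (rho (uu c (2 * D) Q) (2 * D) a a')]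
    exact e3 _ _ _ (Wt_pos N a').le (Wt_le_one N a') (abs_rho_le _ _ _ _ _ hL0 bu')
      (abs_rho_le_tau (uu c (2 * D) Q) (2 * D) a a' (LL N) hL0 bu (Ne.symm haa))
  have f0 : 0 ≤ C₀ * (N : ℝ) ^ (1 - η) := by positivity
  refine (abs_sub _ _).trans ?_
  refine (add_le_add (abs_add_le _ _) (abs_add_le _ _)).trans ?_
  have f1 : (C₀ + Cb + 16 * Ct + 12 * 403 ^ 2 + 4 * Ct * 403 ^ 2) * (N : ℝ) ^ (1 - η) =
      C₀ * (N : ℝ) ^ (1 - η) + (16 * Ct * (N : ℝ) ^ (1 - η) +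
      (Cb + 12 * 403 ^ 2) * (N : ℝ) ^ (1 - η) + (2 * Ct * 403 ^ 2 * (N : ℝ) ^ (1 - η) +
        2 * Ct * 403 ^ 2 * (N : ℝ) ^ (1 - η))) := by ring
  rw [f1]
  linarith

end Pool.Agent.H442R2.FX
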