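import Pool.Agent.H442R2.FX.Defs
import Pool.Agent.H442R2.KF.Err2

/-!
FX project (helper442), task EF (helper605): all frequencies for one `g`, from the bound for
trilinear forms with Kloosterman fractions with one factorable variable.
-/

namespace Pool.Agent.H442R2.FX

open Finset
open Pool.Agent.H442R2.KF

namespace TaskEF

/-- coefficients of the decomposition -/
noncomputable def gam (M : ℕ) (b : ℕ → ℂ) (s1 : ℕ → ℕ) (r s : ℕ) : ℂ :=
  if r * s ∈ Ioc M (2 * M + 1) ∧ s1 (r * s) = s then b (r * s) else 0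

theorem sum_dyadic (f : ℕ → ℂ) (I : ℕ) :
    ∑ i ∈ range I, ∑ s ∈ Ico (2 ^ i) (2 * 2 ^ i), f s = ∑ s ∈ Ico 1 (2 ^ I), f s := by
  induction I with
  | zero => simp
  | succ I ih =>
    rw [Finset.sum_range_succ, ih, show 2 * 2 ^ I = 2 ^ (I + 1) by ring]
    exact Finset.sum_Ico_consecutive f Nat.one_le_two_pow
      (Nat.pow_le_pow_right (by norm_num) (by omega))

theorem decomp (M : ℕ) (b : ℕ → ℂ) (s1 : ℕ → ℕ)
    (h : ∀ m ∈ Ioc M (2 * M + 1), b m ≠ 0 → s1 m ∣ m) (G : ℕ → ℂ) :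
    ∑ m ∈ Ioc M (2 * M + 1), b m * G m =
      ∑ i ∈ range (Nat.log 2 (2 * M + 1) + 1), ∑ s ∈ Ico (2 ^ i) (2 * 2 ^ i),
        ∑ r ∈ Icc 1 (2 * M + 1), gam M b s1 r s * G (r * s) := by
  rw [sum_dyadic (fun s => ∑ r ∈ Icc 1 (2 * M + 1), gam M b s1 r s * G (r * s)),
    ← Finset.sum_product' (f := fun s r => gam M b s1 r s * G (r * s))]
  have hd : ∀ m ∈ Ioc M (2 * M + 1), b m * G m ≠ 0 → s1 m ∣ m ∧ 0 < s1 m ∧
      m / s1 m * s1 m = m ∧ 1 ≤ m / s1 m ∧ m / s1 m ≤ 2 * M + 1 ∧ s1 m ≤ 2 * M + 1 := by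
    intro m hm hb
    have hb' : b m ≠ 0 := left_ne_zero_of_mul hb
    have hdv := h m hm hb'
    have hm' := Finset.mem_Ioc.1 hm
    have hm0 : 0 < m := by omega
    have hs0 : 0 < s1 m := Nat.pos_of_dvd_of_pos hdv hm0
    refine ⟨hdv, hs0, Nat.div_mul_cancel hdv, ?_, ?_, ?_⟩
    · exact (Nat.one_le_div_iff hs0).2 (Nat.le_of_dvd hm0 hdv)
    · exact (Nat.div_le_self _ _).trans hm'.2
    · exact (Nat.le_of_dvd hm0 hdv).trans hm'.2
  refine Finset.sum_bij_ne_zero (fun m _ _ => (s1 m, m / s1 m)) ?_ ?_ ?_ ?_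
  · intro m hm hb
    obtain ⟨h1, h2, h3, h4, h5, h6⟩ := hd m hm hb
    rw [Finset.mem_product, Finset.mem_Ico, Finset.mem_Icc]
    refine ⟨⟨h2, ?_⟩, h4, h5⟩
    exact lt_of_le_of_lt h6 (Nat.lt_pow_succ_log_self (by norm_num) _)
  · intro m hm hb m' hm' hb' heq
    obtain ⟨h1, h2, h3, h4, h5, h6⟩ := hd m hm hb
    obtain ⟨h1', h2', h3', h4', h5', h6'⟩ := hd m' hm' hb'
    simp only [Prod.mk.injEq] at heq
    rw [← h3, ← h3', heq.2, heq.1]
  · rintro ⟨s, r⟩ hsr hne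
    rw [Finset.mem_product, Finset.mem_Ico, Finset.mem_Icc] at hsr
    simp only at hsr hne
    have hg : gam M b s1 r s ≠ 0 := left_ne_zero_of_mul hne
    have hG : G (r * s) ≠ 0 := right_ne_zero_of_mul hne
    unfold gam at hg
    split_ifs at hg with hc
    · refine ⟨r * s, hc.1, mul_ne_zero hg hG, ?_⟩
      rw [Prod.mk.injEq]
      refine ⟨hc.2, ?_⟩
      rw [hc.2]
      exact Nat.mul_div_cancel _ hsr.1.1
    · exact absurd rfl hg
  · intro m hm hb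
    obtain ⟨h1, h2, h3, h4, h5, h6⟩ := hd m hm hb
    simp only
    rw [h3]
    unfold gam
    rw [h3, if_pos ⟨hm, rfl⟩]

theorem gam_norm (M : ℕ) (b : ℕ → ℂ) (s1 : ℕ → ℕ) (hb : ∀ m, ‖b m‖ ≤ 1) (r s : ℕ) :
    ‖gam M b s1 r s‖ ≤ 1 := by
  unfold gam
  split_ifs
  · exact hb _
  · simp

theorem gam_ne (M : ℕ) (b : ℕ → ℂ) (s1 : ℕ → ℕ) (r s : ℕ) (h : gam M b s1 r s ≠ 0) :
    r * s ∈ Ioc M (2 * M + 1) ∧ s1 (r * s) = s ∧ b (r * s) ≠ 0 := by
  unfold gam at h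
  split_ifs at h with hc
  · exact ⟨hc.1, hc.2, h⟩
  · exact absurd rfl h

/-- the divisor of `m` -/
theorem divisor {N g m : ℕ} {θ δ : ℝ} (hg : 1 ≤ g) (h : FacD N θ δ (g * m)) :
    ∃ s : ℕ, s ∣ m ∧ (N : ℝ) ^ (2 * θ - 1 + δ) ≤ g * s ∧ (s : ℝ) ≤ (N : ℝ) ^ (4 - 7 * θ - δ) := by
  obtain ⟨_, t, ht, h1, h2⟩ := h
  have hgc : 0 < Nat.gcd t g := Nat.gcd_pos_of_pos_right _ hg
  have e1 : t / Nat.gcd t g * Nat.gcd t g = t := Nat.div_mul_cancel (Nat.gcd_dvd_left _ _)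
  have e2 : g / Nat.gcd t g * Nat.gcd t g = g := Nat.div_mul_cancel (Nat.gcd_dvd_right _ _)
  refine ⟨t / Nat.gcd t g, ?_, ?_, ?_⟩
  · have hco : Nat.Coprime (t / Nat.gcd t g) (g / Nat.gcd t g) := Nat.coprime_div_gcd_div_gcd hgc
    refine hco.dvd_of_dvd_mul_left ?_
    have h3 : t / Nat.gcd t g * Nat.gcd t g ∣ g / Nat.gcd t g * m * Nat.gcd t g := by
      rw [e1]
      calc t ∣ g * m := ht
        _ = g / Nat.gcd t g * Nat.gcd t g * m := by rw [e2]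
        _ = g / Nat.gcd t g * m * Nat.gcd t g := by ring
    exact Nat.dvd_of_mul_dvd_mul_right hgc h3
  · refine h1.trans ?_
    have h4 : t ≤ g * (t / Nat.gcd t g) := by
      calc t = t / Nat.gcd t g * Nat.gcd t g := e1.symm
        _ ≤ t / Nat.gcd t g * g :=
          Nat.mul_le_mul_left _ (Nat.le_of_dvd hg (Nat.gcd_dvd_right _ _))
        _ = _ := by ring
    exact_mod_cast h4
  · refine le_trans ?_ h2
    exact_mod_cast Nat.div_le_self _ _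

/-- the number of dyadic ranges -/
theorem range_bd {N M : ℕ} (hN : 3 ≤ N) (hMN : M ≤ N) (hlog : 1 ≤ Real.log N) :
    ((Nat.log 2 (2 * M + 1) + 1 : ℕ) : ℝ) ≤ 7 * Real.log N := by
  have hN' : (3 : ℝ) ≤ N := by exact_mod_cast hN
  have h1 : 2 ^ Nat.log 2 (2 * M + 1) ≤ 2 * M + 1 := Nat.pow_log_le_self 2 (by omega)
  have h2 : 2 ^ Nat.log 2 (2 * M + 1) ≤ 3 * N := by omega
  have h3 : (2 : ℝ) ^ Nat.log 2 (2 * M + 1) ≤ 3 * N := by exact_mod_cast h2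
  have h4 := Real.log_le_log (by positivity) h3
  rw [Real.log_pow, Real.log_mul (by norm_num) (by positivity)] at h4
  have h5 : (1 : ℝ) / 2 ≤ Real.log 2 := by
    have := Real.log_two_gt_d9
    linarith
  have h6 : Real.log 3 ≤ 2 := by
    have := Real.log_le_sub_one_of_pos (show (0 : ℝ) < 3 by norm_num)
    linarith
  have h7 : (0 : ℝ) ≤ (Nat.log 2 (2 * M + 1) : ℕ) := Nat.cast_nonneg _
  push_cast
  nlinarith

/-- first term of the bound -/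
theorem bound1 {N D g S J : ℕ} {θ δ L : ℝ} (hN : 3 ≤ N) (hL : 1 ≤ L) (hg : 1 ≤ g) (hS : 1 ≤ S)
    (hJ : (J : ℝ) * (g * N) ≤ 4 * (D : ℝ) ^ 2 * L) (hD : (D : ℝ) ≤ (N : ℝ) ^ θ)
    (h : (N : ℝ) ^ (2 * θ - 1 + δ) ≤ g * (2 * S)) :
    (J : ℝ) / S ≤ 8 * L * (N : ℝ) ^ (-δ) := by
  have hN0 : (0 : ℝ) < N := by
    have : 0 < N := by omega
    exact_mod_cast this
  have hg0 : (0 : ℝ) < g := by exact_mod_cast hg
  have hS0 : (0 : ℝ) < S := by exact_mod_cast hS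
  have hP : 0 < (N : ℝ) ^ (-δ) := Real.rpow_pos_of_pos hN0 _
  have h1 : (D : ℝ) ^ 2 ≤ (N : ℝ) ^ (2 * θ - 1 + δ) * N * (N : ℝ) ^ (-δ) := by
    calc (D : ℝ) ^ 2 ≤ ((N : ℝ) ^ θ) ^ 2 := pow_le_pow_left₀ (Nat.cast_nonneg _) hD 2
      _ = (N : ℝ) ^ (θ * (2 : ℕ)) := (Real.rpow_mul_natCast hN0.le θ 2).symm
      _ = (N : ℝ) ^ (2 * θ - 1 + δ) * (N : ℝ) ^ (1 : ℝ) * (N : ℝ) ^ (-δ) := by
        rw [← Real.rpow_add hN0, ← Real.rpow_add hN0]
        congr 1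
        push_cast
        ring
      _ = _ := by rw [Real.rpow_one]
  rw [div_le_iff₀ hS0]
  have h2 : (J : ℝ) * (g * N) ≤ (8 * L * (N : ℝ) ^ (-δ) * S) * (g * N) := by
    calc (J : ℝ) * (g * N) ≤ 4 * (D : ℝ) ^ 2 * L := hJ
      _ ≤ 4 * ((N : ℝ) ^ (2 * θ - 1 + δ) * N * (N : ℝ) ^ (-δ)) * L := by gcongr
      _ ≤ 4 * ((g * (2 * S)) * N * (N : ℝ) ^ (-δ)) * L := by gcongr
      _ = _ := by ring
  exact le_of_mul_le_mul_right h2 (by positivity)

/-- second term of the bound -/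
theorem bound2 {N D g S J M : ℕ} {θ δ L : ℝ} (hN : 3 ≤ N) (hL : 1 ≤ L) (hg : 1 ≤ g)
    (hθ : 0 ≤ θ) (hJ : (J : ℝ) * (g * N) ≤ 4 * (D : ℝ) ^ 2 * L) (hD : (D : ℝ) ≤ (N : ℝ) ^ θ)
    (hDM : (D : ℝ) ≤ 2 * g * M) (h : (S : ℝ) ≤ (N : ℝ) ^ (4 - 7 * θ - δ)) :
    (J : ℝ) ^ 2 * Real.sqrt S ≤ 32 * L ^ 2 * (N : ℝ) ^ (-(δ / 2)) * Real.sqrt M := by
  have hN0 : (0 : ℝ) < N := by
    have : 0 < N := by omega
    exact_mod_cast this
  have hg1 : (1 : ℝ) ≤ g := by exact_mod_cast hg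
  have hg0 : (0 : ℝ) < g := by linarith
  have hP : 0 < (N : ℝ) ^ (-δ) := Real.rpow_pos_of_pos hN0 _
  have hP2 : ((N : ℝ) ^ (-(δ / 2))) ^ 2 = (N : ℝ) ^ (-δ) := by
    rw [← Real.rpow_mul_natCast hN0.le]
    congr 1
    push_cast
    ring
  have h1 : (D : ℝ) ^ 7 * (N : ℝ) ^ (4 - 7 * θ - δ) ≤ (N : ℝ) ^ 4 * (N : ℝ) ^ (-δ) := by
    calc (D : ℝ) ^ 7 * (N : ℝ) ^ (4 - 7 * θ - δ)
        ≤ ((N : ℝ) ^ θ) ^ 7 * (N : ℝ) ^ (4 - 7 * θ - δ) := by gcongr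
      _ = (N : ℝ) ^ (θ * (7 : ℕ)) * (N : ℝ) ^ (4 - 7 * θ - δ) := by
        rw [Real.rpow_mul_natCast hN0.le θ 7]
      _ = (N : ℝ) ^ ((4 : ℕ) : ℝ) * (N : ℝ) ^ (-δ) := by
        rw [← Real.rpow_add hN0, ← Real.rpow_add hN0]
        congr 1
        push_cast
        ring
      _ = _ := by rw [Real.rpow_natCast]
  -- the fourth power
  have h2 : ((J : ℝ) ^ 4 * S) * (g ^ 4 * N ^ 4) ≤
      (512 * L ^ 4 * (N : ℝ) ^ (-δ) * M) * (g ^ 4 * N ^ 4) := by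
    have h3 : ((J : ℝ) * (g * N)) ^ 4 ≤ (4 * (D : ℝ) ^ 2 * L) ^ 4 :=
      pow_le_pow_left₀ (by positivity) hJ 4
    calc ((J : ℝ) ^ 4 * S) * (g ^ 4 * N ^ 4) = ((J : ℝ) * (g * N)) ^ 4 * S := by ring
      _ ≤ (4 * (D : ℝ) ^ 2 * L) ^ 4 * (N : ℝ) ^ (4 - 7 * θ - δ) := by gcongr
      _ = 256 * L ^ 4 * D * ((D : ℝ) ^ 7 * (N : ℝ) ^ (4 - 7 * θ - δ)) := by ring
      _ ≤ 256 * L ^ 4 * (2 * g * M) * ((N : ℝ) ^ 4 * (N : ℝ) ^ (-δ)) := by gcongr
      _ = (512 * L ^ 4 * (N : ℝ) ^ (-δ) * M) * (g * N ^ 4) := by ring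
      _ ≤ (512 * L ^ 4 * (N : ℝ) ^ (-δ) * M) * (g ^ 4 * N ^ 4) := by
        have : (g : ℝ) ≤ g ^ 4 := le_self_pow₀ hg1 (by norm_num)
        gcongr
  have h4 : (J : ℝ) ^ 4 * S ≤ 512 * L ^ 4 * (N : ℝ) ^ (-δ) * M :=
    le_of_mul_le_mul_right h2 (by positivity)
  have h5 : ((J : ℝ) ^ 2 * Real.sqrt S) ^ 2 ≤
      (32 * L ^ 2 * (N : ℝ) ^ (-(δ / 2)) * Real.sqrt M) ^ 2 := by
    have e1 : ((J : ℝ) ^ 2 * Real.sqrt S) ^ 2 = (J : ℝ) ^ 4 * S := by
      rw [mul_pow, Real.sq_sqrt (Nat.cast_nonneg _)]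
      ring
    have e2 : (32 * L ^ 2 * (N : ℝ) ^ (-(δ / 2)) * Real.sqrt M) ^ 2 =
        1024 * L ^ 4 * (N : ℝ) ^ (-δ) * M := by
      rw [mul_pow, mul_pow, mul_pow, Real.sq_sqrt (Nat.cast_nonneg _), hP2]
      ring
    rw [e1, e2]
    refine h4.trans ?_
    have : 0 ≤ L ^ 4 * (N : ℝ) ^ (-δ) * M := by positivity
    nlinarith
  exact (pow_le_pow_iff_left₀ (by positivity) (by positivity) (by norm_num)).1 h5

end TaskEF

open TaskEF TaskTM2 in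
/-- all frequencies for one `g` -/
theorem EF (hWF : St_WF) : St_EF := by
  intro θ δ hθ1 hθ2 hδ
  have hε : 0 < δ / 24 := by positivity
  obtain ⟨C0, hC0, H⟩ := hWF (δ / 24) hε
  have hK2 : 0 < C0 * (200 : ℝ) ^ (δ / 24) * 8000 * (36 / δ) ^ 3 := by positivity
  obtain ⟨K, hK0, hKK⟩ : ∃ K : ℝ, 0 < K ∧
      K ^ 2 = C0 * (200 : ℝ) ^ (δ / 24) * 8000 * (36 / δ) ^ 3 :=
    ⟨Real.sqrt _, Real.sqrt_pos.2 hK2, Real.sq_sqrt hK2.le⟩
  refine ⟨δ / 12, 84 / δ * K, by positivity, by positivity, ?_⟩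
  intro N D g hN hD hg hgD a k σ hσ ha ha' hk hgk c c' hc hc' hfac
  change ‖∑ j ∈ Icc 1 ⌊4 * (D : ℝ) ^ 2 * Real.log N / (g * N)⌋₊,
      ∑ d₁ ∈ Ioc (D / g) (2 * (D / g) + 1),
      ∑ d₂ ∈ (Ioc (D / g) (2 * (D / g) + 1)).filter (fun d₂ => Nat.Coprime d₁ d₂),
        trm N g a k σ c c' j d₁ d₂‖ ≤ _
  set M := D / g with hMdef
  set J := ⌊4 * (D : ℝ) ^ 2 * Real.log N / (g * N)⌋₊ with hJdef
  have hM : 1 ≤ M := (Nat.one_le_div_iff (by omega)).2 hgD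
  have hM' : (1 : ℝ) ≤ M := by exact_mod_cast hM
  have hM0 : (0 : ℝ) < M := by linarith
  have hg' : (1 : ℝ) ≤ g := by exact_mod_cast hg
  have hg0 : (0 : ℝ) < g := by linarith
  have hN' : (3 : ℝ) ≤ N := by exact_mod_cast hN
  have hNpos : (0 : ℝ) < N := by linarith
  have hN1 : (1 : ℝ) ≤ N := by linarith
  have hlog : 1 ≤ Real.log N := by
    rw [Real.le_log_iff_exp_le (by linarith)]
    have := Real.exp_one_lt_d9
    linarith
  have hD2 : (D : ℝ) ≤ 2 * g * M := by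
    have h1 : D < g * (M + 1) := by
      rw [hMdef]
      have := Nat.lt_mul_div_succ D (show 0 < g by omega)
      simpa using this
    have h2 : g * (M + 1) ≤ 2 * g * M := by nlinarith
    have h3 : D ≤ 2 * g * M := by omega
    exact_mod_cast h3
  have hDN : (D : ℝ) ≤ N := by
    refine hD.trans ?_
    calc (N : ℝ) ^ θ ≤ (N : ℝ) ^ (1 : ℝ) :=
          Real.rpow_le_rpow_of_exponent_le hN1 (by linarith)
      _ = N := Real.rpow_one _
  have hMN : M ≤ N := by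
    have h1 : D ≤ N := by exact_mod_cast hDN
    exact (Nat.div_le_self _ _).trans h1
  have hMNr : (M : ℝ) ≤ N := by exact_mod_cast hMN
  have hJle : (J : ℝ) ≤ 4 * (D : ℝ) ^ 2 * Real.log N / (g * N) :=
    Nat.floor_le (by positivity)
  have hJle' : (J : ℝ) * (g * N) ≤ 4 * (D : ℝ) ^ 2 * Real.log N := by
    rwa [le_div_iff₀ (by positivity)] at hJle
  -- no frequency
  rcases Nat.eq_zero_or_pos J with hJ0 | hJpos
  · rw [hJ0]
    simp only [zero_lt_one, Finset.Icc_eq_empty_of_lt, Finset.sum_empty, norm_zero]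
    positivity
  -- size of the frequencies
  have hJN : (J : ℝ) * N / g ≤ 16 * (M : ℝ) ^ 2 * Real.log N := by
    rw [div_le_iff₀ hg0]
    have h3 : ((J : ℝ) * N) * g ≤ (16 * (M : ℝ) ^ 2 * Real.log N * g) * g := by
      calc ((J : ℝ) * N) * g = (J : ℝ) * (g * N) := by ring
        _ ≤ 4 * (D : ℝ) ^ 2 * Real.log N := hJle'
        _ ≤ 4 * (2 * g * M) ^ 2 * Real.log N := by gcongr
        _ = _ := by ring
    exact le_of_mul_le_mul_right h3 hg0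
  have hσ1 : |(σ : ℝ)| = 1 := by
    rcases hσ with h | h <;> rw [h] <;> norm_num
  have hW : ∀ j : ℕ, Wei M (200 * Real.log N)
      ((fun (j : ℕ) (s : ℝ) => if j ≤ J then TaskM2.psi M N g (σ * j) a s else 0) j) := by
    intro j
    by_cases hj : j ≤ J
    · simp only [if_pos hj]
      apply TaskM2.wei M N g (σ * j) a hM hg ha ha' hlog
      refine le_trans ?_ hJN
      push_cast
      rw [abs_mul, hσ1, one_mul, abs_of_nonneg (Nat.cast_nonneg j)]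
      have : (j : ℝ) ≤ J := by exact_mod_cast hj
      gcongr
    · simp only [if_neg hj]
      exact wei_zero M _ (by positivity)
  have hk' : |(k : ℝ)| ≤ N / g := by
    rw [le_div_iff₀ hg0]
    rw [abs_mul, abs_of_pos hg0] at hgk
    linarith
  have hb : |((σ * k : ℤ) : ℝ)| * J ≤ 200 * Real.log N * (M : ℝ) ^ 2 := by
    push_cast
    rw [abs_mul, hσ1, one_mul]
    calc |(k : ℝ)| * J ≤ (N / g) * J := by gcongr
      _ = (J : ℝ) * N / g := by ring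
      _ ≤ 16 * (M : ℝ) ^ 2 * Real.log N := hJN
      _ ≤ _ := by
        have : 0 ≤ (M : ℝ) ^ 2 * Real.log N := by positivity
        nlinarith
  have hσk : σ * k ≠ 0 := by
    apply mul_ne_zero _ hk
    rcases hσ with h | h <;> rw [h] <;> norm_num
  -- the divisors
  classical
  obtain ⟨s1, hs1⟩ : ∃ s1 : ℕ → ℕ, ∀ m, c (g * m) ≠ 0 → s1 m ∣ m ∧
      (N : ℝ) ^ (2 * θ - 1 + δ) ≤ g * s1 m ∧ (s1 m : ℝ) ≤ (N : ℝ) ^ (4 - 7 * θ - δ) := by
    refine ⟨fun m => if h : c (g * m) ≠ 0 then (divisor hg (hfac _ h)).choose else 1, ?_⟩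
    intro m h
    simp only [dif_pos h]
    exact (divisor hg (hfac _ h)).choose_spec
  rw [sum_eq N g M J hM hg a k σ hσ c c', norm_mul, Complex.norm_real, Real.norm_eq_abs,
    abs_of_nonneg (by positivity)]
  set Ψ : ℕ → ℝ → ℂ :=
    fun j s => if j ≤ J then TaskM2.psi M N g (σ * j) a s else 0 with hΨ
  set b : ℕ → ℂ := fun m => (c (g * m) : ℂ) with hbdef
  have hb1 : ∀ m, ‖b m‖ ≤ 1 := fun m => by
    rw [hbdef, Complex.norm_real]
    exact hc _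
  have hbne : ∀ m, b m ≠ 0 → c (g * m) ≠ 0 := fun m h h' => h (by rw [hbdef]; simp [h'])
  have hdec : ∑ m ∈ Ioc M (2 * M + 1),
        ∑ n ∈ (Ioc M (2 * M + 1)).filter (fun n => Nat.Coprime m n),
          (c (g * m) : ℂ) * (c' (g * n) : ℂ) * FF Ψ (σ * k) J n m =
      ∑ m ∈ Ioc M (2 * M + 1), b m *
        ∑ n ∈ (Ioc M (2 * M + 1)).filter (fun n => Nat.Coprime m n),
          (c' (g * n) : ℂ) * FF Ψ (σ * k) J n m := by
    refine Finset.sum_congr rfl fun m _ => ?_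
    rw [Finset.mul_sum]
    exact Finset.sum_congr rfl fun n _ => by rw [hbdef]; ring
  rw [hdec, decomp M b s1 (fun m _ h => (hs1 m (hbne m h)).1)
    (fun m => ∑ n ∈ (Ioc M (2 * M + 1)).filter (fun n => Nat.Coprime m n),
      (c' (g * n) : ℂ) * FF Ψ (σ * k) J n m)]
  have hT : ∀ i ∈ range (Nat.log 2 (2 * M + 1) + 1),
      ‖∑ s ∈ Ico (2 ^ i) (2 * 2 ^ i), ∑ r ∈ Icc 1 (2 * M + 1), gam M b s1 r s *
        ∑ n ∈ (Ioc M (2 * M + 1)).filter (fun n => Nat.Coprime (r * s) n),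
          (c' (g * n) : ℂ) * FF Ψ (σ * k) J n (r * s)‖ ≤
      K * (N : ℝ) ^ (-(δ / 6)) * (M : ℝ) ^ 2 := by
    intro i _
    have hS : 1 ≤ 2 ^ i := Nat.one_le_two_pow
    generalize 2 ^ i = S at hS
    by_cases hne : ∃ s ∈ Ico S (2 * S), ∃ r, gam M b s1 r s ≠ 0
    · obtain ⟨s, hs, r, hr⟩ := hne
      have hs' := Finset.mem_Ico.1 hs
      obtain ⟨_, h2, h3⟩ := gam_ne M b s1 r s hr
      obtain ⟨_, h5, h6⟩ := hs1 _ (hbne _ h3)
      rw [h2] at h5 h6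
      have hsS : (s : ℝ) ≤ 2 * S := by exact_mod_cast hs'.2.le
      have hSs : (S : ℝ) ≤ s := by exact_mod_cast hs'.1
      have b1 := bound1 (J := J) hN hlog hg hS hJle' hD
        (h5.trans (mul_le_mul_of_nonneg_left hsS hg0.le))
      have b2 := bound2 (J := J) (S := S) hN hlog hg (by linarith) hJle' hD hD2 (hSs.trans h6)
      have key := H M S J hM hS hJpos (200 * Real.log N) (by linarith) Ψ hW (σ * k) hσk hb
        (gam M b s1) (fun n => (c' (g * n) : ℂ)) (gam_norm M b s1 hb1)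
        (fun n => by rw [Complex.norm_real]; exact hc' _)
        (fun r s h => by
          obtain ⟨h7, h8, h9⟩ := gam_ne M b s1 r s h
          refine ⟨?_, h7⟩
          exact (hfac _ (hbne _ h9)).1.squarefree_of_dvd (Dvd.intro_left _ rfl))
      have heq : ∑ s ∈ Ico S (2 * S), ∑ r ∈ Icc 1 (2 * M + 1), gam M b s1 r s *
          ∑ n ∈ (Ioc M (2 * M + 1)).filter (fun n => Nat.Coprime (r * s) n),
            (c' (g * n) : ℂ) * FF Ψ (σ * k) J n (r * s) =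
          ∑ s ∈ Ico S (2 * S), ∑ r ∈ Icc 1 (2 * M + 1),
            ∑ n ∈ (Ioc M (2 * M + 1)).filter (fun n => Nat.Coprime (r * s) n),
              gam M b s1 r s * (c' (g * n) : ℂ) * FF Ψ (σ * k) J n (r * s) := by
        refine Finset.sum_congr rfl fun s _ => Finset.sum_congr rfl fun r _ => ?_
        rw [Finset.mul_sum]
        exact Finset.sum_congr rfl fun n _ => by ring
      rw [heq]
      have hfinal : C0 * (200 * Real.log N * M) ^ (δ / 24) * (200 * Real.log N) *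
          ((M : ℝ) ^ 4 * J / S + (M : ℝ) ^ (7 / 2 : ℝ) * (J : ℝ) ^ 2 * (S : ℝ) ^ (1 / 2 : ℝ)) ≤
          (K * (N : ℝ) ^ (-(δ / 6)) * (M : ℝ) ^ 2) ^ 2 := by
        have c1 : (M : ℝ) ^ 4 * J / S + (M : ℝ) ^ (7 / 2 : ℝ) * (J : ℝ) ^ 2 *
            (S : ℝ) ^ (1 / 2 : ℝ) ≤ 40 * Real.log N ^ 2 * (N : ℝ) ^ (-(δ / 2)) * (M : ℝ) ^ 4 := by
          have d1 : (M : ℝ) ^ 4 * J / S ≤
              8 * Real.log N ^ 2 * (N : ℝ) ^ (-(δ / 2)) * (M : ℝ) ^ 4 := by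
            have f1 : (N : ℝ) ^ (-δ) ≤ (N : ℝ) ^ (-(δ / 2)) :=
              Real.rpow_le_rpow_of_exponent_le hN1 (by linarith)
            have f2 : Real.log N ≤ Real.log N ^ 2 := by nlinarith
            calc (M : ℝ) ^ 4 * J / S = (M : ℝ) ^ 4 * ((J : ℝ) / S) := by ring
              _ ≤ (M : ℝ) ^ 4 * (8 * Real.log N * (N : ℝ) ^ (-δ)) := by gcongr
              _ ≤ (M : ℝ) ^ 4 * (8 * Real.log N ^ 2 * (N : ℝ) ^ (-(δ / 2))) := by gcongr
              _ = _ := by ring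
          have d2 : (M : ℝ) ^ (7 / 2 : ℝ) * (J : ℝ) ^ 2 * (S : ℝ) ^ (1 / 2 : ℝ) ≤
              32 * Real.log N ^ 2 * (N : ℝ) ^ (-(δ / 2)) * (M : ℝ) ^ 4 := by
            have f1 : (M : ℝ) ^ (7 / 2 : ℝ) * Real.sqrt M = (M : ℝ) ^ 4 := by
              rw [Real.sqrt_eq_rpow, ← Real.rpow_add hM0, ← Real.rpow_natCast (M : ℝ) 4]
              congr 1
              norm_num
            rw [← Real.sqrt_eq_rpow]
            calc (M : ℝ) ^ (7 / 2 : ℝ) * (J : ℝ) ^ 2 * Real.sqrt S =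
                (M : ℝ) ^ (7 / 2 : ℝ) * ((J : ℝ) ^ 2 * Real.sqrt S) := by ring
              _ ≤ (M : ℝ) ^ (7 / 2 : ℝ) *
                  (32 * Real.log N ^ 2 * (N : ℝ) ^ (-(δ / 2)) * Real.sqrt M) := by gcongr
              _ = 32 * Real.log N ^ 2 * (N : ℝ) ^ (-(δ / 2)) *
                  ((M : ℝ) ^ (7 / 2 : ℝ) * Real.sqrt M) := by ring
              _ = _ := by rw [f1]
          calc _ ≤ 8 * Real.log N ^ 2 * (N : ℝ) ^ (-(δ / 2)) * (M : ℝ) ^ 4 +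
                32 * Real.log N ^ 2 * (N : ℝ) ^ (-(δ / 2)) * (M : ℝ) ^ 4 := add_le_add d1 d2
            _ = _ := by ring
        have c2 : (200 * Real.log N * M) ^ (δ / 24) ≤
            (200 : ℝ) ^ (δ / 24) * (N : ℝ) ^ (δ / 12) := by
          have f1 : Real.log N ≤ N := (Real.log_le_sub_one_of_pos hNpos).trans (by linarith)
          calc (200 * Real.log N * M) ^ (δ / 24) ≤ (200 * ((N : ℝ) ^ (2 : ℝ))) ^ (δ / 24) := by
                apply Real.rpow_le_rpow (by positivity) _ hε.le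
                rw [Real.rpow_two]
                calc 200 * Real.log N * M ≤ 200 * N * N := by gcongr
                  _ = _ := by ring
            _ = (200 : ℝ) ^ (δ / 24) * (N : ℝ) ^ (δ / 12) := by
                rw [Real.mul_rpow (by norm_num) (by positivity), ← Real.rpow_mul hNpos.le]
                congr 2
                ring
        have c3 : Real.log N ^ 3 ≤ (36 / δ) ^ 3 * (N : ℝ) ^ (δ / 12) := by
          have f1 : Real.log N ≤ (N : ℝ) ^ (δ / 36) / (δ / 36) :=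
            Real.log_le_rpow_div hNpos.le (by positivity)
          calc Real.log N ^ 3 ≤ ((N : ℝ) ^ (δ / 36) / (δ / 36)) ^ 3 :=
                pow_le_pow_left₀ (by positivity) f1 3
            _ = (36 / δ) ^ 3 * ((N : ℝ) ^ (δ / 36)) ^ 3 := by
                field_simp
            _ = (36 / δ) ^ 3 * (N : ℝ) ^ (δ / 12) := by
                rw [← Real.rpow_mul_natCast hNpos.le]
                congr 2
                push_cast
                ring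
        have c4 : (N : ℝ) ^ (δ / 12) * (N : ℝ) ^ (δ / 12) * (N : ℝ) ^ (-(δ / 2)) =
            ((N : ℝ) ^ (-(δ / 6))) ^ 2 := by
          rw [← Real.rpow_add hNpos, ← Real.rpow_add hNpos, ← Real.rpow_mul_natCast hNpos.le]
          congr 1
          push_cast
          ring
        calc C0 * (200 * Real.log N * M) ^ (δ / 24) * (200 * Real.log N) * _
            ≤ C0 * ((200 : ℝ) ^ (δ / 24) * (N : ℝ) ^ (δ / 12)) * (200 * Real.log N) *
              (40 * Real.log N ^ 2 * (N : ℝ) ^ (-(δ / 2)) * (M : ℝ) ^ 4) := by gcongr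
          _ = C0 * (200 : ℝ) ^ (δ / 24) * 8000 * (Real.log N ^ 3) * ((N : ℝ) ^ (δ / 12) *
              (N : ℝ) ^ (-(δ / 2)) * (M : ℝ) ^ 4) := by ring
          _ ≤ C0 * (200 : ℝ) ^ (δ / 24) * 8000 * ((36 / δ) ^ 3 * (N : ℝ) ^ (δ / 12)) *
              ((N : ℝ) ^ (δ / 12) * (N : ℝ) ^ (-(δ / 2)) * (M : ℝ) ^ 4) := by gcongr
          _ = (C0 * (200 : ℝ) ^ (δ / 24) * 8000 * (36 / δ) ^ 3) *
              ((N : ℝ) ^ (δ / 12) * (N : ℝ) ^ (δ / 12) * (N : ℝ) ^ (-(δ / 2))) *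
                (M : ℝ) ^ 4 := by ring
          _ = _ := by rw [c4, ← hKK]; ring
      exact (pow_le_pow_iff_left₀ (norm_nonneg _) (by positivity) (by norm_num)).1
        (key.trans hfinal)
    · push Not at hne
      rw [Finset.sum_eq_zero fun s hs => Finset.sum_eq_zero fun r _ => by
        rw [hne s hs r, zero_mul], norm_zero]
      positivity
  have hsum : ‖∑ i ∈ range (Nat.log 2 (2 * M + 1) + 1), ∑ s ∈ Ico (2 ^ i) (2 * 2 ^ i),
      ∑ r ∈ Icc 1 (2 * M + 1), gam M b s1 r s *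
        ∑ n ∈ (Ioc M (2 * M + 1)).filter (fun n => Nat.Coprime (r * s) n),
          (c' (g * n) : ℂ) * FF Ψ (σ * k) J n (r * s)‖ ≤
      84 / δ * K * (N : ℝ) ^ (-(δ / 12)) * (M : ℝ) ^ 2 := by
    refine (norm_sum_le _ _).trans ((Finset.sum_le_sum hT).trans ?_)
    rw [Finset.sum_const, nsmul_eq_mul, Finset.card_range]
    have f1 : Real.log N ≤ (N : ℝ) ^ (δ / 12) / (δ / 12) :=
      Real.log_le_rpow_div hNpos.le (by positivity)
    have f2 := range_bd hN hMN hlog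
    have f3 : (N : ℝ) ^ (δ / 12) * (N : ℝ) ^ (-(δ / 6)) = (N : ℝ) ^ (-(δ / 12)) := by
      rw [← Real.rpow_add hNpos]
      congr 1
      ring
    calc ((Nat.log 2 (2 * M + 1) + 1 : ℕ) : ℝ) * (K * (N : ℝ) ^ (-(δ / 6)) * (M : ℝ) ^ 2)
        ≤ (7 * Real.log N) * (K * (N : ℝ) ^ (-(δ / 6)) * (M : ℝ) ^ 2) := by gcongr
      _ ≤ (7 * ((N : ℝ) ^ (δ / 12) / (δ / 12))) *
          (K * (N : ℝ) ^ (-(δ / 6)) * (M : ℝ) ^ 2) := by gcongr
      _ = 84 / δ * K * ((N : ℝ) ^ (δ / 12) * (N : ℝ) ^ (-(δ / 6))) * (M : ℝ) ^ 2 := by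
        field_simp
        ring
      _ = _ := by rw [f3]
  calc (N : ℝ) / (g * (M : ℝ) ^ 2) * _
      ≤ (N : ℝ) / (g * (M : ℝ) ^ 2) *
        (84 / δ * K * (N : ℝ) ^ (-(δ / 12)) * (M : ℝ) ^ 2) :=
        mul_le_mul_of_nonneg_left hsum (by positivity)
    _ = 84 / δ * K * ((N : ℝ) * (N : ℝ) ^ (-(δ / 12))) / g := by
        field_simp
    _ = _ := by
        have : (N : ℝ) * (N : ℝ) ^ (-(δ / 12)) = (N : ℝ) ^ (1 - δ / 12) := by
          rw [sub_eq_add_neg, Real.rpow_add hNpos, Real.rpow_one]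
        rw [this]

end Pool.Agent.H442R2.FX
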