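import Pool.Agent.H442R2.FX.Defs

/-!
FX, task GR: greedy divisors. (helper677)
-/

namespace Pool.Agent.H442R2.FX

theorem GR : St_GR := by
  intro d
  induction d using Nat.strong_induction_on with
  | _ d ih =>
    intro lo y hlo hd hy hp
    rcases le_or_gt (d : ℝ) (lo * y) with h | h
    · exact ⟨d, dvd_rfl, hd, h⟩
    · have hy0 : 0 < y := by linarith
      have h1 : (1 : ℝ) < d := by nlinarith
      have h1' : 1 < d := by exact_mod_cast h1
      have hpr : d.minFac.Prime := Nat.minFac_prime (by omega)
      have hdv : d.minFac ∣ d := Nat.minFac_dvd d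
      obtain ⟨e, he⟩ := hdv
      obtain ⟨p, hpdef⟩ : ∃ p, p = d.minFac := ⟨_, rfl⟩
      rw [← hpdef] at he hpr
      have hpy : (p : ℝ) ≤ y := hp p hpr ⟨e, he⟩
      have he0 : 0 < e := by
        rcases Nat.eq_zero_or_pos e with h0 | h0
        · rw [h0, Nat.mul_zero] at he
          omega
        · exact h0
      have hed : e < d := by
        rw [he]
        nlinarith [hpr.two_le]
      have hdr : (d : ℝ) = p * e := by exact_mod_cast he
      have hle : lo ≤ (e : ℝ) := by
        have h3 : lo * y < y * e := by
          calc lo * y < d := h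
            _ = p * e := hdr
            _ ≤ y * e := by gcongr
        nlinarith
      obtain ⟨s, hs1, hs2, hs3⟩ := ih e hed lo y hlo hle hy fun q hq hqe =>
        hp q hq (he ▸ Dvd.dvd.mul_left hqe p)
      exact ⟨s, he ▸ Dvd.dvd.mul_left hs1 p, hs2, hs3⟩

end Pool.Agent.H442R2.FX
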