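import Pool.Agent.H442R2.FX.Defs
import Pool.Agent.H442R2.KF.Fin2
import Pool.Agent.H442R2.KF.Bv

/-!
FX project, task NF (helper267): factorable moduli up to `N^θ` from one dyadic block and
Bombieri-Vinogradov.
-/

set_option autoImplicit false

namespace Pool.Agent.H442R2.FX

open Finset
open Pool.Agent.H442R2.KF

namespace TaskNF

open Pool.Agent.H442R2.KF.TaskR3b

open Classical in
/-- the `i`-th block -/
noncomputable def TTF (N : ℕ) (θ δ : ℝ) (D0 X i : ℕ) : Finset ℕ :=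
  (TT D0 X i).filter (fun d => FacD N θ δ d)

theorem TTF_mem {N : ℕ} {θ δ : ℝ} {D0 X i d : ℕ} (hd : d ∈ TTF N θ δ D0 X i) :
    d ∈ TT D0 X i ∧ FacD N θ δ d := by
  classical
  unfold TTF at hd
  exact mem_filter.1 hd

open Classical in
/-- the summand -/
noncomputable def ff (N : ℕ) (θ δ : ℝ) (a d : ℕ) : ℝ :=
  if Nat.Coprime a d ∧ FacD N θ δ d then |Er N d a| else 0

theorem ff_nonneg (N : ℕ) (θ δ : ℝ) (a d : ℕ) : 0 ≤ ff N θ δ a d := by
  unfold ff
  split_ifs
  · exact abs_nonneg _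
  · exact le_rfl

open Classical in
theorem ff_sum (N : ℕ) (θ δ : ℝ) (a : ℕ) (s : Finset ℕ) :
    ∑ d ∈ s, ff N θ δ a d =
      ∑ d ∈ (s.filter (fun d => FacD N θ δ d)).filter (fun d => Nat.Coprime a d), |Er N d a| := by
  rw [Finset.filter_filter, Finset.sum_filter]
  refine Finset.sum_congr rfl fun d _ => ?_
  unfold ff
  simp only [and_comm]

theorem core (θ δ : ℝ) (hθ : θ < 5 / 9) (U : ℝ) (hU : 0 < U)
    (block : ∃ (C : ℝ), 0 < C ∧
      ∀ (N D : ℕ), 3 ≤ N → QN N ≤ D → (D : ℝ) ≤ (N : ℝ) ^ θ → ∀ T : Finset ℕ, T ⊆ Ioc D (2 * D) →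
      (∀ d ∈ T, FacD N θ δ d) →
      (((Icc 1 N).filter (fun a : ℕ => (N : ℝ) / Real.log N ^ (U + 1) <
        ∑ d ∈ T.filter (fun d => Nat.Coprime a d), |Er N d a|)).card : ℝ) ≤
        C * Real.log N ^ (2 * (U + 1) + 5)) :
    ∃ (C : ℝ), 0 < C ∧ ∀ (N : ℕ), 3 ≤ N →
    (((Icc 1 N).filter (fun a : ℕ => (N : ℝ) / Real.log N ^ U <
      ∑ d ∈ (facs N θ δ ⌊(N : ℝ) ^ θ⌋₊).filter (fun d => Nat.Coprime a d), |Er N d a|)).card : ℝ) ≤
      C * Real.log N ^ (2 * U + 8) := by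
  obtain ⟨CB, hCB, hblock⟩ := block
  obtain ⟨U', hU'⟩ : ∃ U' : ℕ, U + 1 ≤ (U' : ℝ) := exists_nat_ge _
  obtain ⟨CV, hCV, hbv⟩ := bv (49 / 100) (by norm_num) U'
  have hev1 : ∀ᶠ N : ℕ in Filter.atTop, max 4 (2 * CV) ≤ Real.log N :=
    (Real.tendsto_log_atTop.comp (tendsto_natCast_atTop_atTop (R := ℝ))).eventually_ge_atTop _
  have hev2 : ∀ᶠ N : ℕ in Filter.atTop, (2 : ℝ) ≤ (N : ℝ) ^ (1 / 10 : ℝ) :=
    ((tendsto_rpow_atTop (by norm_num : (0 : ℝ) < 1 / 10)).comp
      (tendsto_natCast_atTop_atTop (R := ℝ))).eventually_ge_atTop _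
  obtain ⟨N0, hN0⟩ := Filter.eventually_atTop.mp (hev1.and hev2)
  refine ⟨CB + N0, by positivity, fun N hN => ?_⟩
  have hl := one_le_log hN
  have hl0 : 0 < Real.log N := by linarith
  have hNr : (3 : ℝ) ≤ N := by exact_mod_cast hN
  have hN1 : (1 : ℝ) ≤ N := by linarith
  have hN00 : (0 : ℝ) < N := by linarith
  set A := (Icc 1 N).filter (fun a : ℕ => (N : ℝ) / Real.log N ^ U <
      ∑ d ∈ (facs N θ δ ⌊(N : ℝ) ^ θ⌋₊).filter (fun d => Nat.Coprime a d), |Er N d a|) with hA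
  rcases lt_or_ge N N0 with hlt | hge
  · have h1 : (A.card : ℝ) ≤ N := by
      have := Finset.card_filter_le (Icc 1 N) (fun a : ℕ => (N : ℝ) / Real.log N ^ U <
        ∑ d ∈ (facs N θ δ ⌊(N : ℝ) ^ θ⌋₊).filter (fun d => Nat.Coprime a d), |Er N d a|)
      rw [Nat.card_Icc] at this
      exact_mod_cast this
    have h2 : (1 : ℝ) ≤ Real.log N ^ (2 * U + 8) := Real.one_le_rpow hl (by linarith)
    have h3 : (N : ℝ) ≤ N0 := by exact_mod_cast hlt.le
    calc (A.card : ℝ) ≤ N0 := h1.trans h3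
      _ ≤ (CB + N0) * 1 := by linarith
      _ ≤ _ := by
        refine mul_le_mul_of_nonneg_left h2 (by positivity)
  -- large `N`
  obtain ⟨hb1, hb2⟩ := hN0 N hge
  have hb3 : 4 ≤ Real.log N := (le_max_left _ _).trans hb1
  have hb4 : 2 * CV ≤ Real.log N := (le_max_right _ _).trans hb1
  obtain ⟨X, hX⟩ : ∃ X : ℕ, X = ⌊(N : ℝ) ^ θ⌋₊ := ⟨_, rfl⟩
  obtain ⟨D0, hD0⟩ : ∃ D0 : ℕ, D0 = ⌊(N : ℝ) ^ (49 / 100 : ℝ)⌋₊ := ⟨_, rfl⟩
  obtain ⟨I, hI⟩ : ∃ I : ℕ, I = ⌈Real.log N / 4⌉₊ := ⟨_, rfl⟩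
  have hIle : (I : ℝ) ≤ Real.log N / 4 + 1 := by
    rw [hI]
    exact (Nat.ceil_lt_add_one (by positivity)).le
  have hIge : Real.log N / 4 ≤ I := by
    rw [hI]
    exact Nat.le_ceil _
  have hI2 : 2 * (I : ℝ) ≤ Real.log N := by linarith
  -- `X ≤ 2 ^ I * D0`
  have hXI : X ≤ 2 ^ I * D0 := by
    have h1 : (X : ℝ) ≤ (N : ℝ) ^ θ := by
      rw [hX]
      exact Nat.floor_le (by positivity)
    have h2 : (N : ℝ) ^ (17 / 100 : ℝ) ≤ (2 : ℝ) ^ I := by
      rw [Real.rpow_def_of_pos hN00, ← Real.rpow_natCast, Real.rpow_def_of_pos (by norm_num)]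
      refine Real.exp_le_exp.2 ?_
      have := Real.log_two_gt_d9
      nlinarith
    have h3 : (N : ℝ) ^ (49 / 100 : ℝ) - 1 ≤ D0 := by
      rw [hD0]
      have := Nat.lt_floor_add_one ((N : ℝ) ^ (49 / 100 : ℝ))
      linarith
    have h4 : (2 : ℝ) ≤ (N : ℝ) ^ (49 / 100 : ℝ) :=
      hb2.trans (Real.rpow_le_rpow_of_exponent_le hN1 (by norm_num))
    have h5 : (N : ℝ) ^ (49 / 100 : ℝ) / 2 ≤ D0 := by linarith
    have h6 : (N : ℝ) ^ θ ≤ (N : ℝ) ^ (14 / 25 : ℝ) :=
      Real.rpow_le_rpow_of_exponent_le hN1 (by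
        have : (5 / 9 : ℝ) < 14 / 25 := by norm_num
        linarith)
    have h7 : (N : ℝ) ^ (14 / 25 : ℝ) * (N : ℝ) ^ (1 / 10 : ℝ) =
        (N : ℝ) ^ (17 / 100 : ℝ) * (N : ℝ) ^ (49 / 100 : ℝ) := by
      rw [← Real.rpow_add hN00, ← Real.rpow_add hN00]
      norm_num
    have h8 : (N : ℝ) ^ (17 / 100 : ℝ) * ((N : ℝ) ^ (49 / 100 : ℝ) / 2) ≤ (2 : ℝ) ^ I * D0 :=
      mul_le_mul h2 h5 (by positivity) (by positivity)
    have h9 : (N : ℝ) ^ (14 / 25 : ℝ) * 2 ≤ (N : ℝ) ^ (14 / 25 : ℝ) * (N : ℝ) ^ (1 / 10 : ℝ) :=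
      mul_le_mul_of_nonneg_left hb2 (by positivity)
    have h10 : (X : ℝ) ≤ (2 : ℝ) ^ I * D0 := by linarith
    exact_mod_cast h10
  -- the bad sets
  set AI : ℕ → Finset ℕ := fun i => (Icc 1 N).filter (fun a : ℕ => (N : ℝ) / Real.log N ^ (U + 1) <
      ∑ d ∈ (TTF N θ δ D0 X i).filter (fun d => Nat.Coprime a d), |Er N d a|) with hAI
  have hAIc : ∀ i, ((AI i).card : ℝ) ≤ CB * Real.log N ^ (2 * (U + 1) + 5) := by
    intro i
    by_cases hi : 2 ^ i * D0 ≤ X
    · refine hblock N (2 ^ i * D0) hN ?_ ?_ (TTF N θ δ D0 X i)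
        (fun d hd => (mem_filter.1 (TTF_mem hd).1).1) (fun d hd => (TTF_mem hd).2)
      · have h1 : QN N ≤ D0 := by
          unfold QN
          rw [hD0]
          exact Nat.floor_mono (Real.rpow_le_rpow_of_exponent_le hN1 (by norm_num))
        exact h1.trans (Nat.le_mul_of_pos_left _ (by positivity))
      · have h1 : (X : ℝ) ≤ (N : ℝ) ^ θ := by
          rw [hX]
          exact Nat.floor_le (by positivity)
        refine le_trans ?_ h1
        exact_mod_cast hi
    · have h1 : TTF N θ δ D0 X i = ∅ := by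
        rw [Finset.eq_empty_iff_forall_notMem]
        intro d hd
        have h2 := (TTF_mem hd).1
        unfold TT at h2
        rw [mem_filter, mem_Ioc] at h2
        omega
      have h2 : AI i = ∅ := by
        simp only [hAI, h1]
        rw [Finset.filter_eq_empty_iff]
        intro a _
        rw [Finset.filter_empty, Finset.sum_empty, not_lt]
        positivity
      rw [h2, Finset.card_empty, Nat.cast_zero]
      positivity
  have hcov : A ⊆ (range I).biUnion AI := by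
    intro a ha
    rw [hA, mem_filter] at ha
    obtain ⟨ha1, ha2⟩ := ha
    by_contra hcon
    rw [mem_biUnion] at hcon
    push Not at hcon
    have hsm : ∀ i ∈ range I, ∑ d ∈ (TTF N θ δ D0 X i).filter (fun d => Nat.Coprime a d),
        |Er N d a| ≤ (N : ℝ) / Real.log N ^ (U + 1) := by
      intro i hi
      have := hcon i hi
      simp only [hAI, mem_filter] at this
      by_contra h
      exact this ⟨ha1, not_le.1 h⟩
    have hdy := dyadic (ff N θ δ a) (ff_nonneg N θ δ a) D0 X I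
    have e1 : (Icc 1 X).filter (fun d => d ≤ 2 ^ I * D0) = Icc 1 X := by
      rw [Finset.filter_eq_self]
      intro d hd
      rw [mem_Icc] at hd
      exact hd.2.trans hXI
    rw [e1] at hdy
    have e3 : ∑ d ∈ Icc 1 D0, ff N θ δ a d ≤ CV * (N / Real.log N ^ U') := by
      have h1 := hbv N hN (fun d => if Nat.Coprime a d then a else 1) (fun d _ => by
        show Nat.Coprime (if Nat.Coprime a d then a else 1) d
        split_ifs with h
        · exact h
        · exact Nat.coprime_one_left d)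
      rw [← hD0] at h1
      refine le_trans (Finset.sum_le_sum fun d _ => ?_) h1
      show ff N θ δ a d ≤ |Er N d (if Nat.Coprime a d then a else 1)|
      unfold ff
      by_cases hc : Nat.Coprime a d
      · rw [if_pos hc]
        split_ifs
        · exact le_rfl
        · exact abs_nonneg _
      · rw [if_neg (fun h => hc h.1)]
        exact abs_nonneg _
    have e4 : ∑ i ∈ range I, ∑ d ∈ TT D0 X i, ff N θ δ a d ≤
        I * ((N : ℝ) / Real.log N ^ (U + 1)) := by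
      have h1 : ∀ i ∈ range I, ∑ d ∈ TT D0 X i, ff N θ δ a d ≤ (N : ℝ) / Real.log N ^ (U + 1) := by
        intro i hi
        rw [ff_sum]
        exact hsm i hi
      refine (Finset.sum_le_sum h1).trans ?_
      rw [sum_const, card_range, nsmul_eq_mul]
    have ha3 : (N : ℝ) / Real.log N ^ U < ∑ d ∈ Icc 1 X, ff N θ δ a d := by
      rw [ff_sum, hX]
      exact ha2
    have e5 : Real.log N ^ (U + 1) = Real.log N ^ U * Real.log N := by
      rw [Real.rpow_add hl0, Real.rpow_one]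
    have hLU : 0 < Real.log N ^ U := by positivity
    have e6 : I * ((N : ℝ) / Real.log N ^ (U + 1)) ≤ (N : ℝ) / Real.log N ^ U / 2 := by
      rw [e5]
      have : I * ((N : ℝ) / (Real.log N ^ U * Real.log N)) =
          (N : ℝ) / Real.log N ^ U * (I / Real.log N) := by
        field_simp
      rw [this, div_eq_mul_one_div ((N : ℝ) / Real.log N ^ U) 2]
      refine mul_le_mul_of_nonneg_left ?_ (by positivity)
      rw [div_le_div_iff₀ hl0 (by norm_num)]
      linarith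
    have e7 : CV * (N / Real.log N ^ U') ≤ (N : ℝ) / Real.log N ^ U / 2 := by
      have h1 : Real.log N ^ (U + 1) ≤ Real.log N ^ U' := by
        rw [← Real.rpow_natCast]
        exact Real.rpow_le_rpow_of_exponent_le hl hU'
      have h2 : (N : ℝ) / Real.log N ^ U' ≤ N / Real.log N ^ (U + 1) :=
        div_le_div_of_nonneg_left hN00.le (by positivity) h1
      have h3 : CV * (N / Real.log N ^ U') ≤ Real.log N / 2 * (N / Real.log N ^ (U + 1)) :=
        mul_le_mul (by linarith) h2 (by positivity) (by positivity)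
      refine h3.trans (le_of_eq ?_)
      rw [e5]
      field_simp
    linarith
  have hcard : (A.card : ℝ) ≤ I * (CB * Real.log N ^ (2 * (U + 1) + 5)) := by
    have h1 : A.card ≤ ∑ i ∈ range I, (AI i).card :=
      (Finset.card_le_card hcov).trans Finset.card_biUnion_le
    have h2 : (A.card : ℝ) ≤ ∑ i ∈ range I, ((AI i).card : ℝ) := by exact_mod_cast h1
    refine h2.trans ((Finset.sum_le_sum fun i _ => hAIc i).trans ?_)
    rw [sum_const, card_range, nsmul_eq_mul]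
  have e8 : Real.log N ^ (2 * U + 8) = Real.log N * Real.log N ^ (2 * (U + 1) + 5) := by
    rw [show (2 * U + 8) = 1 + (2 * (U + 1) + 5) by ring, Real.rpow_add hl0, Real.rpow_one]
  rw [e8]
  calc (A.card : ℝ) ≤ I * (CB * Real.log N ^ (2 * (U + 1) + 5)) := hcard
    _ ≤ Real.log N * ((CB + N0) * Real.log N ^ (2 * (U + 1) + 5)) := by
      refine mul_le_mul (by linarith) ?_ (by positivity) hl0.le
      refine mul_le_mul_of_nonneg_right ?_ (by positivity)
      have : (0 : ℝ) ≤ N0 := Nat.cast_nonneg _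
      linarith
    _ = _ := by ring

end TaskNF

theorem NF (hKB : St_KB) : St_NF := by
  intro θ δ h1 h2 hδ U hU
  exact TaskNF.core θ δ h2 U hU (hKB θ δ h1 h2 hδ (U + 1))

end Pool.Agent.H442R2.FX
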