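import Pool.Agent.H442R2.FX.Defs
import Pool.Agent.H442R2.KF.Bv

/-! FX project (helper442), task NS: smooth moduli. -/

namespace Pool.Agent.H442R2.FX

open Finset
open Pool.Agent.H442R2.KF

namespace TaskNS

theorem log_ge_one {x : ℕ} (hx : 3 ≤ x) : 1 ≤ Real.log x := by
  have h : (3:ℝ) ≤ x := by exact_mod_cast hx
  rw [Real.le_log_iff_exp_le (by linarith)]
  have := Real.exp_one_lt_d9
  linarith

/-- a smooth modulus is small or has a divisor of the right size -/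
theorem split (hGR : St_GR) {θ θ₁ : ℝ} (h1 : θ ≤ θ₁) (h2 : 1 / 2 ≤ θ₁) (h3 : θ₁ < 5 / 9) {N d : ℕ}
    (hN : 3 ≤ N) (hd : d ∈ smoo N ((5 - 9 * θ₁) / 2) ⌊(N : ℝ) ^ θ⌋₊) :
    d ∈ Icc 1 ⌊(N : ℝ) ^ (49 / 100 : ℝ)⌋₊ ∨ d ∈ facs N θ₁ ((5 - 9 * θ₁) / 4) ⌊(N : ℝ) ^ θ₁⌋₊ := by
  classical
  have hN1 : (1:ℝ) ≤ N := by exact_mod_cast (by omega : 1 ≤ N)
  have hN0 : (0:ℝ) < N := by linarith
  unfold smoo at hd
  rw [mem_filter, mem_Icc] at hd
  obtain ⟨⟨hd1, hd2⟩, hsq, hsm⟩ := hd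
  set lo : ℝ := (N : ℝ) ^ (2 * θ₁ - 1 + (5 - 9 * θ₁) / 4) with hlo
  have hlo1 : 1 ≤ lo := Real.one_le_rpow hN1 (by linarith)
  rcases lt_or_ge (d : ℝ) lo with h | h
  · left
    rw [mem_Icc]
    refine ⟨hd1, Nat.le_floor ?_⟩
    refine h.le.trans ?_
    exact Real.rpow_le_rpow_of_exponent_le hN1 (by linarith)
  · right
    obtain ⟨s, hs1, hs2, hs3⟩ := hGR d lo ((N : ℝ) ^ ((5 - 9 * θ₁) / 2)) hlo1 h
      (Real.one_le_rpow hN1 (by linarith)) hsm
    unfold facs
    rw [mem_filter, mem_Icc]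
    refine ⟨⟨hd1, hd2.trans (Nat.floor_le_floor
      (Real.rpow_le_rpow_of_exponent_le hN1 h1))⟩, hsq, s, hs1, hs2, ?_⟩
    refine hs3.trans (le_of_eq ?_)
    rw [hlo, ← Real.rpow_add hN0]
    congr 1
    ring

end TaskNS

open TaskNS in
/-- NS (Ns.lean): smooth moduli -/
theorem NS (hNF : St_NF) (hGR : St_GR) : St_NS := by
  classical
  intro θ hθ
  set θ₁ : ℝ := max θ (1 / 2) with hθ₁
  have h1 : θ ≤ θ₁ := le_max_left _ _
  have h2 : 1 / 2 ≤ θ₁ := le_max_right _ _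
  have h3 : θ₁ < 5 / 9 := max_lt hθ (by norm_num)
  refine ⟨(5 - 9 * θ₁) / 2, by linarith, ?_⟩
  intro U hU
  obtain ⟨C1, hC1, hN1⟩ := hNF θ₁ ((5 - 9 * θ₁) / 4) h2 h3 (by linarith) (U + 1) (by linarith)
  obtain ⟨C2, hC2, hN2⟩ := bv (49 / 100) (by norm_num) (⌈U⌉₊ + 2)
  refine ⟨C1 + ⌈Real.exp (2 * C2 + 2)⌉₊, by positivity, ?_⟩
  intro N hN
  have hlog := log_ge_one hN
  have hNR : (3:ℝ) ≤ N := by exact_mod_cast hN
  have hpow1 : 1 ≤ Real.log N ^ (2 * U + 10) := Real.one_le_rpow hlog (by linarith)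
  rcases lt_or_ge N ⌈Real.exp (2 * C2 + 2)⌉₊ with hsmall | hbig
  · have hc : (((Icc 1 N).filter (fun a : ℕ => (N : ℝ) / Real.log N ^ U <
      ∑ d ∈ (smoo N ((5 - 9 * θ₁) / 2) ⌊(N : ℝ) ^ θ⌋₊).filter (fun d => Nat.Coprime a d),
        |Er N d a|)).card : ℝ) ≤ N := by
      exact_mod_cast (card_filter_le _ _).trans (by simp)
    have hc2 : (N : ℝ) ≤ ⌈Real.exp (2 * C2 + 2)⌉₊ := by exact_mod_cast hsmall.le
    calc _ ≤ (N : ℝ) := hc
      _ ≤ C1 + ⌈Real.exp (2 * C2 + 2)⌉₊ := by linarith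
      _ = (C1 + ⌈Real.exp (2 * C2 + 2)⌉₊) * 1 := by ring
      _ ≤ _ := by
          apply mul_le_mul_of_nonneg_left hpow1
          positivity
  · -- large N
    have hlogbig : 2 * C2 + 2 ≤ Real.log N := by
      rw [Real.le_log_iff_exp_le (by linarith)]
      exact Nat.ceil_le.mp hbig
    have hsub : (Icc 1 N).filter (fun a : ℕ => (N : ℝ) / Real.log N ^ U <
      ∑ d ∈ (smoo N ((5 - 9 * θ₁) / 2) ⌊(N : ℝ) ^ θ⌋₊).filter (fun d => Nat.Coprime a d),
        |Er N d a|) ⊆ (Icc 1 N).filter (fun a : ℕ => (N : ℝ) / Real.log N ^ (U + 1) <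
      ∑ d ∈ (facs N θ₁ ((5 - 9 * θ₁) / 4) ⌊(N : ℝ) ^ θ₁⌋₊).filter (fun d => Nat.Coprime a d),
        |Er N d a|) := by
      intro a ha
      rw [mem_filter] at ha ⊢
      refine ⟨ha.1, ?_⟩
      have ha2 := ha.2
      set A := (smoo N ((5 - 9 * θ₁) / 2) ⌊(N : ℝ) ^ θ⌋₊).filter (fun d => Nat.Coprime a d) with hA
      set B := (Icc 1 ⌊(N : ℝ) ^ (49 / 100 : ℝ)⌋₊).filter (fun d => Nat.Coprime a d) with hB
      set F := (facs N θ₁ ((5 - 9 * θ₁) / 4) ⌊(N : ℝ) ^ θ₁⌋₊).filter (fun d => Nat.Coprime a d)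
        with hF
      have hABF : A ⊆ B ∪ F := by
        intro d hd
        rw [hA, mem_filter] at hd
        rw [mem_union, hB, hF, mem_filter, mem_filter]
        rcases split hGR h1 h2 h3 hN hd.1 with h | h
        · exact Or.inl ⟨h, hd.2⟩
        · exact Or.inr ⟨h, hd.2⟩
      have hs1 : ∑ d ∈ A, |Er N d a| ≤ ∑ d ∈ B, |Er N d a| + ∑ d ∈ F, |Er N d a| := by
        calc ∑ d ∈ A, |Er N d a| ≤ ∑ d ∈ B ∪ F, |Er N d a| :=
              sum_le_sum_of_subset_of_nonneg hABF (fun _ _ _ => abs_nonneg _)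
          _ ≤ ∑ d ∈ B ∪ F, |Er N d a| + ∑ d ∈ B ∩ F, |Er N d a| :=
              le_add_of_nonneg_right (sum_nonneg (fun _ _ => abs_nonneg _))
          _ = _ := sum_union_inter
      have hs2 : ∑ d ∈ B, |Er N d a| ≤ C2 * (N / Real.log N ^ (⌈U⌉₊ + 2)) := by
        have hb := hN2 N hN (fun d => if Nat.Coprime a d then a else 1) (by
          intro d _
          by_cases hc : Nat.Coprime a d
          · show Nat.Coprime (if Nat.Coprime a d then a else 1) d
            rw [if_pos hc]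
            exact hc
          · show Nat.Coprime (if Nat.Coprime a d then a else 1) d
            rw [if_neg hc]
            exact Nat.coprime_one_left d)
        refine le_trans ?_ hb
        calc ∑ d ∈ B, |Er N d a|
            = ∑ d ∈ B, |Er N d (if Nat.Coprime a d then a else 1)| := by
              apply sum_congr rfl
              intro d hd
              rw [hB, mem_filter] at hd
              rw [if_pos hd.2]
          _ ≤ _ := sum_le_sum_of_subset_of_nonneg (filter_subset _ _)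
              (fun _ _ _ => abs_nonneg _)
      have hlog0 : 0 < Real.log N := by linarith
      have hs3 : C2 * (N / Real.log N ^ (⌈U⌉₊ + 2)) ≤ N / Real.log N ^ U / 2 := by
        have e1 : Real.log N ^ U * Real.log N ^ 2 ≤ Real.log N ^ (⌈U⌉₊ + 2) := by
          rw [pow_add]
          apply mul_le_mul_of_nonneg_right _ (by positivity)
          rw [← Real.rpow_natCast (Real.log N) ⌈U⌉₊]
          exact Real.rpow_le_rpow_of_exponent_le hlog (Nat.le_ceil U)
        have e2 : 2 * C2 ≤ Real.log N ^ 2 := by nlinarith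
        have e3 : 0 < Real.log N ^ U := Real.rpow_pos_of_pos hlog0 _
        have e4 : 2 * C2 * Real.log N ^ U ≤ Real.log N ^ (⌈U⌉₊ + 2) := by
          refine le_trans ?_ e1
          rw [mul_comm (Real.log N ^ U)]
          exact mul_le_mul_of_nonneg_right e2 e3.le
        have e5 : 0 < Real.log N ^ (⌈U⌉₊ + 2) := by positivity
        rw [div_div, mul_div_assoc', div_le_div_iff₀ e5 (by positivity)]
        have hNn : (0:ℝ) ≤ N := by linarith
        nlinarith [mul_le_mul_of_nonneg_left e4 hNn]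
      have hs4 : (N : ℝ) / Real.log N ^ (U + 1) ≤ N / Real.log N ^ U / 2 := by
        rw [Real.rpow_add hlog0, Real.rpow_one, div_div]
        have e3 : 0 < Real.log N ^ U := Real.rpow_pos_of_pos hlog0 _
        apply div_le_div_of_nonneg_left (by linarith) (by positivity)
        apply mul_le_mul_of_nonneg_left _ e3.le
        linarith
      have hs5 : (N : ℝ) / Real.log N ^ U < ∑ d ∈ A, |Er N d a| := ha2
      have e6 : (N : ℝ) / Real.log N ^ U = N / Real.log N ^ U / 2 + N / Real.log N ^ U / 2 := by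
        ring
      linarith
    calc _ ≤ (((Icc 1 N).filter (fun a : ℕ => (N : ℝ) / Real.log N ^ (U + 1) <
      ∑ d ∈ (facs N θ₁ ((5 - 9 * θ₁) / 4) ⌊(N : ℝ) ^ θ₁⌋₊).filter (fun d => Nat.Coprime a d),
        |Er N d a|)).card : ℝ) := by exact_mod_cast card_le_card hsub
      _ ≤ C1 * Real.log N ^ (2 * (U + 1) + 8) := hN1 N hN
      _ = C1 * Real.log N ^ (2 * U + 10) := by
          congr 2
          ring
      _ ≤ _ := by
          apply mul_le_mul_of_nonneg_right _ (by positivity)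
          have : (0:ℝ) ≤ ⌈Real.exp (2 * C2 + 2)⌉₊ := Nat.cast_nonneg _
          linarith

end Pool.Agent.H442R2.FX
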