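import Pool.Agent.H442R2.FX.Wf
import Pool.Agent.H442R2.FX.Ef
import Pool.Agent.H442R2.FX.Bf
import Pool.Agent.H442R2.FX.Cf
import Pool.Agent.H442R2.FX.Kb
import Pool.Agent.H442R2.FX.Nf
import Pool.Agent.H442R2.FX.Gr
import Pool.Agent.H442R2.FX.Ns

/-! FX project: assembly. -/

namespace Pool.Agent.H442R2.FX

/-- factorable squarefree moduli -/
theorem NF_thm : St_NF := NF (KB (CF (BF (EF WF))))

/-- smooth squarefree moduli -/
theorem NS_thm : St_NS := NS NF_thm GR

end Pool.Agent.H442R2.FX
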