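import Pool.Agent.H442R2.FX.KbY
import Pool.Agent.H442R2.KF.FinY
import Pool.Agent.H442R2.KF.BvY

/-! FX project: all moduli of a family, primes up to `y ≤ N` (adapted from KF/FinY.lean). -/

set_option autoImplicit false

namespace Pool.Agent.H442R2.FX

open Finset
open Pool.Agent.H442R2.KF
open Pool.Agent.H442R2.KF.TaskR3

theorem finalS (hCF : St_CF) (θ δ : ℝ) (hhalf : 1 / 2 ≤ θ) (hθ : θ < 5 / 9) (hδ : 0 < δ)
    (S : ℕ → Finset ℕ) (hS1 : ∀ N, 3 ≤ N → S N ⊆ Icc 1 ⌊(N : ℝ) ^ θ⌋₊)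
    (hS2 : ∀ N, 3 ≤ N → ∀ d ∈ S N, ⌊(N : ℝ) ^ (49 / 100 : ℝ)⌋₊ < d → FacD N θ δ d) :
    ∀ U : ℝ, 0 < U → ∃ (C : ℝ), 0 < C ∧
    ∀ (N : ℕ), 3 ≤ N → ∀ y : ℕ, y ≤ N →
    (((Icc 1 N).filter (fun a : ℕ => (N : ℝ) / Real.log N ^ U <
      ∑ d ∈ (S N).filter (fun d => Nat.Coprime a d), |Er y d a|)).card : ℝ) ≤
      C * Real.log N ^ (2 * U + 8) := by
  intro U hU
  obtain ⟨CB, hCB, hblock⟩ := KBY hCF θ δ hhalf hθ hδ (U + 1)
  obtain ⟨U', hU'⟩ : ∃ U' : ℕ, U + 1 ≤ (U' : ℝ) := exists_nat_ge _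
  obtain ⟨CV, hCV, hbv⟩ := bvY (49 / 100) (by norm_num) U'
  have hev1 : ∀ᶠ N : ℕ in Filter.atTop, max 4 (2 * CV) ≤ Real.log N :=
    (Real.tendsto_log_atTop.comp (tendsto_natCast_atTop_atTop (R := ℝ))).eventually_ge_atTop _
  have hev2 : ∀ᶠ N : ℕ in Filter.atTop, (2 : ℝ) ≤ (N : ℝ) ^ (1 / 10 : ℝ) :=
    ((tendsto_rpow_atTop (by norm_num : (0 : ℝ) < 1 / 10)).comp
      (tendsto_natCast_atTop_atTop (R := ℝ))).eventually_ge_atTop _
  obtain ⟨N0, hN0⟩ := Filter.eventually_atTop.mp (hev1.and hev2)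
  refine ⟨CB + N0, by positivity, fun N hN y hy => ?_⟩
  have hl := one_le_log hN
  have hl0 : 0 < Real.log N := by linarith
  have hNr : (3 : ℝ) ≤ N := by exact_mod_cast hN
  have hN1 : (1 : ℝ) ≤ N := by linarith
  have hN00 : (0 : ℝ) < N := by linarith
  set A := (Icc 1 N).filter (fun a : ℕ => (N : ℝ) / Real.log N ^ U <
      ∑ d ∈ (S N).filter (fun d => Nat.Coprime a d), |Er y d a|) with hA
  rcases lt_or_ge N N0 with hlt | hge
  · have h1 : (A.card : ℝ) ≤ N := by
      have := Finset.card_filter_le (Icc 1 N) (fun a : ℕ => (N : ℝ) / Real.log N ^ U <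
        ∑ d ∈ (S N).filter (fun d => Nat.Coprime a d), |Er y d a|)
      rw [Nat.card_Icc] at this
      exact_mod_cast this
    have h2 : (1 : ℝ) ≤ Real.log N ^ (2 * U + 8) := Real.one_le_rpow hl (by linarith)
    have h3 : (N : ℝ) ≤ N0 := by exact_mod_cast hlt.le
    calc (A.card : ℝ) ≤ N0 := h1.trans h3
      _ ≤ (CB + N0) * 1 := by linarith
      _ ≤ _ := by
        refine mul_le_mul_of_nonneg_left h2 (by positivity)
  -- large `N`
  obtain ⟨hb1, hb2⟩ := hN0 N hge
  have hb3 : 4 ≤ Real.log N := (le_max_left _ _).trans hb1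
  have hb4 : 2 * CV ≤ Real.log N := (le_max_right _ _).trans hb1
  obtain ⟨X, hX⟩ : ∃ X : ℕ, X = ⌊(N : ℝ) ^ θ⌋₊ := ⟨_, rfl⟩
  obtain ⟨D0, hD0⟩ : ∃ D0 : ℕ, D0 = ⌊(N : ℝ) ^ (49 / 100 : ℝ)⌋₊ := ⟨_, rfl⟩
  obtain ⟨I, hI⟩ : ∃ I : ℕ, I = ⌈Real.log N / 4⌉₊ := ⟨_, rfl⟩
  have hIle : (I : ℝ) ≤ Real.log N / 4 + 1 := by
    rw [hI]
    exact (Nat.ceil_lt_add_one (by positivity)).le
  have hIge : Real.log N / 4 ≤ I := by
    rw [hI]
    exact Nat.le_ceil _
  have hI2 : 2 * (I : ℝ) ≤ Real.log N := by linarith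
  -- `X ≤ 2 ^ I * D0`
  have hXI : X ≤ 2 ^ I * D0 := by
    have h1 : (X : ℝ) ≤ (N : ℝ) ^ θ := by
      rw [hX]
      exact Nat.floor_le (by positivity)
    have h2 : (N : ℝ) ^ (17 / 100 : ℝ) ≤ (2 : ℝ) ^ I := by
      rw [Real.rpow_def_of_pos hN00, ← Real.rpow_natCast, Real.rpow_def_of_pos (by norm_num)]
      refine Real.exp_le_exp.2 ?_
      have := Real.log_two_gt_d9
      nlinarith
    have h3 : (N : ℝ) ^ (49 / 100 : ℝ) - 1 ≤ D0 := by
      rw [hD0]
      have := Nat.lt_floor_add_one ((N : ℝ) ^ (49 / 100 : ℝ))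
      linarith
    have h4 : (2 : ℝ) ≤ (N : ℝ) ^ (49 / 100 : ℝ) :=
      hb2.trans (Real.rpow_le_rpow_of_exponent_le hN1 (by norm_num))
    have h5 : (N : ℝ) ^ (49 / 100 : ℝ) / 2 ≤ D0 := by linarith
    have h6 : (N : ℝ) ^ θ ≤ (N : ℝ) ^ (14 / 25 : ℝ) :=
      Real.rpow_le_rpow_of_exponent_le hN1 (by linarith)
    have h7 : (N : ℝ) ^ (14 / 25 : ℝ) * (N : ℝ) ^ (1 / 10 : ℝ) =
        (N : ℝ) ^ (17 / 100 : ℝ) * (N : ℝ) ^ (49 / 100 : ℝ) := by
      rw [← Real.rpow_add hN00, ← Real.rpow_add hN00]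
      norm_num
    have h8 : (N : ℝ) ^ (17 / 100 : ℝ) * ((N : ℝ) ^ (49 / 100 : ℝ) / 2) ≤ (2 : ℝ) ^ I * D0 :=
      mul_le_mul h2 h5 (by positivity) (by positivity)
    have h9 : (N : ℝ) ^ (14 / 25 : ℝ) * 2 ≤ (N : ℝ) ^ (14 / 25 : ℝ) * (N : ℝ) ^ (1 / 10 : ℝ) :=
      mul_le_mul_of_nonneg_left hb2 (by positivity)
    have h10 : (X : ℝ) ≤ (2 : ℝ) ^ I * D0 := by linarith
    exact_mod_cast h10
  -- the bad sets
  set AI : ℕ → Finset ℕ := fun i => (Icc 1 N).filter (fun a : ℕ => (N : ℝ) / Real.log N ^ (U + 1) <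
      ∑ d ∈ ((TT D0 X i).filter (fun d => d ∈ S N)).filter (fun d => Nat.Coprime a d), |Er y d a|) with hAI
  have hAIc : ∀ i, ((AI i).card : ℝ) ≤ CB * Real.log N ^ (2 * (U + 1) + 5) := by
    intro i
    by_cases hi : 2 ^ i * D0 ≤ X
    · refine hblock N (2 ^ i * D0) hN ?_ ?_ y hy ((TT D0 X i).filter (fun d => d ∈ S N))
        ((Finset.filter_subset _ _).trans (Finset.filter_subset _ _)) ?_
      · have h1 : QN N ≤ D0 := by
          unfold QN
          rw [hD0]
          exact Nat.floor_mono (Real.rpow_le_rpow_of_exponent_le hN1 (by norm_num))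
        exact h1.trans (Nat.le_mul_of_pos_left _ (by positivity))
      · have h1 : (X : ℝ) ≤ (N : ℝ) ^ θ := by
          rw [hX]
          exact Nat.floor_le (by positivity)
        refine le_trans ?_ h1
        exact_mod_cast hi
      · intro d hd
        rw [mem_filter] at hd
        unfold TT at hd
        rw [mem_filter, mem_Ioc] at hd
        refine hS2 N hN d hd.2 ?_
        rw [← hD0]
        have : D0 ≤ 2 ^ i * D0 := Nat.le_mul_of_pos_left _ (by positivity)
        omega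
    · have h1 : TT D0 X i = ∅ := by
        unfold TT
        rw [Finset.filter_eq_empty_iff]
        intro d hd
        rw [mem_Ioc] at hd
        omega
      have h2 : AI i = ∅ := by
        simp only [hAI, h1]
        rw [Finset.filter_eq_empty_iff]
        intro a _
        rw [Finset.filter_empty, Finset.filter_empty, Finset.sum_empty, not_lt]
        positivity
      rw [h2, Finset.card_empty, Nat.cast_zero]
      positivity
  have hcov : A ⊆ (range I).biUnion AI := by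
    classical
    intro a ha
    rw [hA, mem_filter] at ha
    obtain ⟨ha1, ha2⟩ := ha
    by_contra hcon
    rw [mem_biUnion] at hcon
    push Not at hcon
    have hsm : ∀ i ∈ range I,
        ∑ d ∈ ((TT D0 X i).filter (fun d => d ∈ S N)).filter (fun d => Nat.Coprime a d), |Er y d a| ≤
        (N : ℝ) / Real.log N ^ (U + 1) := by
      intro i hi
      have := hcon i hi
      simp only [hAI, mem_filter] at this
      by_contra h
      exact this ⟨ha1, not_le.1 h⟩
    obtain ⟨f, hf⟩ : ∃ f : ℕ → ℝ, f = fun d => if d ∈ S N ∧ Nat.Coprime a d then |Er y d a| else 0 :=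
      ⟨_, rfl⟩
    have hf0 : ∀ d, 0 ≤ f d := by
      intro d
      rw [hf]
      show 0 ≤ if d ∈ S N ∧ Nat.Coprime a d then |Er y d a| else 0
      split_ifs
      · exact abs_nonneg _
      · exact le_rfl
    have hdy := dyadic f hf0 D0 X I
    have e1 : (Icc 1 X).filter (fun d => d ≤ 2 ^ I * D0) = Icc 1 X := by
      rw [Finset.filter_eq_self]
      intro d hd
      rw [mem_Icc] at hd
      exact hd.2.trans hXI
    rw [e1] at hdy
    have e2 : ∀ s : Finset ℕ, ∑ d ∈ s, f d =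
        ∑ d ∈ (s.filter (fun d => d ∈ S N)).filter (fun d => Nat.Coprime a d), |Er y d a| := by
      intro s
      rw [Finset.filter_filter, Finset.sum_filter, hf]
    have e2' : ∑ d ∈ Icc 1 X, f d = ∑ d ∈ (S N).filter (fun d => Nat.Coprime a d), |Er y d a| := by
      rw [e2]
      congr 2
      ext d
      rw [mem_filter]
      constructor
      · exact fun h => h.2
      · intro h
        refine ⟨?_, h⟩
        rw [hX]
        exact hS1 N hN h
    have e3 : ∑ d ∈ Icc 1 D0, f d ≤ CV * (N / Real.log N ^ U') := by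
      have h1 := hbv N hN y hy (fun d => if Nat.Coprime a d then a else 1) (fun d _ => by
        show Nat.Coprime (if Nat.Coprime a d then a else 1) d
        split_ifs with h
        · exact h
        · exact Nat.coprime_one_left d)
      rw [← hD0] at h1
      refine le_trans (Finset.sum_le_sum fun d _ => ?_) h1
      rw [hf]
      show (if d ∈ S N ∧ Nat.Coprime a d then |Er y d a| else 0) ≤
        |Er y d (if Nat.Coprime a d then a else 1)|
      by_cases h : d ∈ S N ∧ Nat.Coprime a d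
      · rw [if_pos h, if_pos h.2]
      · rw [if_neg h]
        exact abs_nonneg _
    have e4 : ∑ i ∈ range I, ∑ d ∈ TT D0 X i, f d ≤ I * ((N : ℝ) / Real.log N ^ (U + 1)) := by
      have h1 : ∀ i ∈ range I, ∑ d ∈ TT D0 X i, f d ≤ (N : ℝ) / Real.log N ^ (U + 1) := by
        intro i hi
        rw [e2]
        exact hsm i hi
      refine (Finset.sum_le_sum h1).trans ?_
      rw [sum_const, card_range, nsmul_eq_mul]
    rw [← e2'] at ha2
    have e5 : Real.log N ^ (U + 1) = Real.log N ^ U * Real.log N := by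
      rw [Real.rpow_add hl0, Real.rpow_one]
    have hLU : 0 < Real.log N ^ U := by positivity
    have e6 : I * ((N : ℝ) / Real.log N ^ (U + 1)) ≤ (N : ℝ) / Real.log N ^ U / 2 := by
      rw [e5]
      have : I * ((N : ℝ) / (Real.log N ^ U * Real.log N)) =
          (N : ℝ) / Real.log N ^ U * (I / Real.log N) := by
        field_simp
      rw [this, div_eq_mul_one_div ((N : ℝ) / Real.log N ^ U) 2]
      refine mul_le_mul_of_nonneg_left ?_ (by positivity)
      rw [div_le_div_iff₀ hl0 (by norm_num)]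
      linarith
    have e7 : CV * (N / Real.log N ^ U') ≤ (N : ℝ) / Real.log N ^ U / 2 := by
      have h1 : Real.log N ^ (U + 1) ≤ Real.log N ^ U' := by
        rw [← Real.rpow_natCast]
        exact Real.rpow_le_rpow_of_exponent_le hl hU'
      have h2 : (N : ℝ) / Real.log N ^ U' ≤ N / Real.log N ^ (U + 1) :=
        div_le_div_of_nonneg_left hN00.le (by positivity) h1
      have h3 : CV * (N / Real.log N ^ U') ≤ Real.log N / 2 * (N / Real.log N ^ (U + 1)) :=
        mul_le_mul (by linarith) h2 (by positivity) (by positivity)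
      refine h3.trans (le_of_eq ?_)
      rw [e5]
      field_simp
    linarith
  have hcard : (A.card : ℝ) ≤ I * (CB * Real.log N ^ (2 * (U + 1) + 5)) := by
    have h1 : A.card ≤ ∑ i ∈ range I, (AI i).card :=
      (Finset.card_le_card hcov).trans Finset.card_biUnion_le
    have h2 : (A.card : ℝ) ≤ ∑ i ∈ range I, ((AI i).card : ℝ) := by exact_mod_cast h1
    refine h2.trans ((Finset.sum_le_sum fun i _ => hAIc i).trans ?_)
    rw [sum_const, card_range, nsmul_eq_mul]
  have e8 : Real.log N ^ (2 * U + 8) = Real.log N * Real.log N ^ (2 * (U + 1) + 5) := by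
    rw [show (2 * U + 8) = 1 + (2 * (U + 1) + 5) by ring, Real.rpow_add hl0, Real.rpow_one]
  rw [e8]
  calc (A.card : ℝ) ≤ I * (CB * Real.log N ^ (2 * (U + 1) + 5)) := hcard
    _ ≤ Real.log N * ((CB + N0) * Real.log N ^ (2 * (U + 1) + 5)) := by
      refine mul_le_mul (by linarith) ?_ (by positivity) hl0.le
      refine mul_le_mul_of_nonneg_right ?_ (by positivity)
      have : (0 : ℝ) ≤ N0 := Nat.cast_nonneg _
      linarith
    _ = _ := by ring

end Pool.Agent.H442R2.FX
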