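import Pool.Agent.H442R2.FX.Defs
import Pool.Agent.H442R2.KF.Weighted

/-! FX project: weights and the maximum over `y ≤ N` for a family of moduli (adapted from
KF/Weighted.lean). -/

set_option autoImplicit false

namespace Pool.Agent.H442R2.FX

open Finset
open Pool.Agent.H442R2.KF
open Pool.Agent.H300R2.WEH

theorem weightedS (θ : ℝ) (hθ : θ < 5 / 9)
    (S : ℕ → Finset ℕ) (hS1 : ∀ N, 3 ≤ N → S N ⊆ Icc 1 ⌊(N : ℝ) ^ θ⌋₊)
    (hfinal : ∀ U : ℝ, 0 < U → ∃ (C : ℝ), 0 < C ∧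
      ∀ (N : ℕ), 3 ≤ N → ∀ y : ℕ, y ≤ N →
      (((Icc 1 N).filter (fun a : ℕ => (N : ℝ) / Real.log N ^ U <
        ∑ d ∈ (S N).filter (fun d => Nat.Coprime a d), |Er y d a|)).card : ℝ) ≤
        C * Real.log N ^ (2 * U + 8)) (κ : ℝ) (hκ : 1 ≤ κ) (U : ℕ) :
    ∃ (B : ℕ) (C : ℝ), 0 < C ∧ ∀ N : ℕ, 3 ≤ N →
    (((Icc 1 N).filter (fun a : ℕ => (N : ℝ) / Real.log N ^ U <
      ∑ d ∈ (S N).filter (fun d => Nat.Coprime a d),
        κ ^ d.primeFactors.card * Pool.Agent.H300R2.WEH.errMax N d a)).card : ℝ) ≤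
      C * Real.log N ^ B := by
  obtain ⟨c2, hc2⟩ := sum_log (κ ^ 2) (one_le_pow₀ hκ)
  obtain ⟨c1, hc1⟩ := sum_log 1 le_rfl
  obtain ⟨W, hW⟩ := upWeight κ c2 U
  obtain ⟨U1, K, N0, hU1⟩ := upMax c1 W
  obtain ⟨Cf, hCf, hf⟩ := hfinal ((U1 : ℝ) + 1) (by positivity)
  obtain ⟨Cp, N2, hCp, hp⟩ := uf_pnt (c1 + U1 + 1) K
  obtain ⟨N3, hN3⟩ := gp_facts K
  have hev2 : ∀ᶠ X : ℝ in Filter.atTop, 2 * Cp + 4 ≤ Real.log X :=
    Real.tendsto_log_atTop.eventually (Filter.eventually_ge_atTop _)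
  obtain ⟨Y, hY⟩ := Filter.eventually_atTop.mp hev2
  set N1 := max (max (max N0 N2) (max N3 8)) ⌈Y⌉₊ with hN1
  refine ⟨K + (2 * (U1 + 1) + 8), 2 * Cf + N1 + 1, by positivity, fun N hN => ?_⟩
  have hN3' : (3 : ℝ) ≤ N := by exact_mod_cast hN
  have hL1 : 1 ≤ Real.log N := by
    rw [Real.le_log_iff_exp_le (by linarith)]
    exact (Real.exp_one_lt_d9.le.trans (by norm_num)).trans hN3'
  by_cases hlarge : N1 ≤ N
  swap
  · -- small N
    have h1 : (((Icc 1 N).filter (fun a : ℕ => (N : ℝ) / Real.log N ^ U <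
      ∑ d ∈ (S N).filter (fun d => Nat.Coprime a d),
        κ ^ d.primeFactors.card * errMax N d a)).card : ℝ) ≤ N := by
      have := card_filter_le (Icc 1 N) (fun a : ℕ => (N : ℝ) / Real.log N ^ U <
        ∑ d ∈ (S N).filter (fun d => Nat.Coprime a d),
        κ ^ d.primeFactors.card * errMax N d a)
      rw [Nat.card_Icc] at this
      exact_mod_cast this.trans (by omega)
    have h2 : (N : ℝ) ≤ N1 := by exact_mod_cast (not_le.1 hlarge).le
    have h3 : (1 : ℝ) ≤ Real.log N ^ (K + (2 * (U1 + 1) + 8)) := one_le_pow₀ hL1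
    have h4 : (0 : ℝ) ≤ 2 * Cf + N1 + 1 := by positivity
    calc _ ≤ (N : ℝ) := h1
      _ ≤ 2 * Cf + N1 + 1 := by linarith
      _ ≤ (2 * Cf + N1 + 1) * Real.log N ^ (K + (2 * (U1 + 1) + 8)) :=
          le_mul_of_one_le_right h4 h3
  -- large N
  have hN0 : N0 ≤ N := (le_max_left _ _).trans ((le_max_left _ _).trans ((le_max_left _ _).trans hlarge))
  have hN2 : N2 ≤ N := (le_max_right _ _).trans ((le_max_left _ _).trans ((le_max_left _ _).trans hlarge))
  have hNN3 : N3 ≤ N := (le_max_left _ _).trans ((le_max_right _ _).trans ((le_max_left _ _).trans hlarge))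
  have hN8 : 8 ≤ N := (le_max_right _ _).trans ((le_max_right _ _).trans ((le_max_left _ _).trans hlarge))
  have hLbig : 2 * Cp + 4 ≤ Real.log N := by
    apply hY
    exact (Nat.le_ceil Y).trans (by exact_mod_cast (le_max_right _ _).trans hlarge)
  set L := Real.log (N : ℝ) with hL
  obtain ⟨j1, j2, j3⟩ := JJ_facts K N hL1
  rw [← hL] at j2 j3
  set J := JJ K N with hJ
  have hL0 : 0 < L := by linarith
  have hNr : (0 : ℝ) < N := by linarith
  have hD : ⌊(N : ℝ) ^ θ⌋₊ ≤ N := by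
    have h1 : (N : ℝ) ^ θ ≤ (N : ℝ) ^ (1 : ℝ) :=
      Real.rpow_le_rpow_of_exponent_le (by linarith) (by linarith)
    rw [Real.rpow_one] at h1
    have := Nat.floor_le_floor h1
    rwa [Nat.floor_natCast] at this
  -- the main implication
  have hmain : ∀ a : ℕ, (∀ j ∈ Icc 1 J,
      ∑ d ∈ (S N).filter (fun d => Nat.Coprime a d), |Er (gp N J j) d a| ≤
        (N : ℝ) / L ^ ((U1 : ℝ) + 1)) →
      ∑ d ∈ (S N).filter (fun d => Nat.Coprime a d),
        κ ^ d.primeFactors.card * errMax N d a ≤ (N : ℝ) / L ^ U := by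
    intro a ha
    set P := (S N).filter (fun d => Nat.Coprime a d) with hP
    have hPsub : P ⊆ Icc 1 N := by
      intro d hd
      rw [hP, mem_filter] at hd
      have hd1 := mem_Icc.1 (hS1 N hN hd.1)
      rw [mem_Icc]
      exact ⟨hd1.1, hd1.2.trans hD⟩
    have hP1 : ∀ d ∈ P, 1 ≤ d := fun d hd => (mem_Icc.1 (hPsub hd)).1
    have hs1 : ∑ i ∈ P, 1 / (Nat.totient i : ℝ) ≤ 1 * L ^ c1 := by
      rw [one_mul]
      refine le_trans ?_ (hc1 N hN8)
      calc ∑ i ∈ P, 1 / (Nat.totient i : ℝ) ≤ ∑ i ∈ Icc 1 N, 1 / (Nat.totient i : ℝ) :=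
            sum_le_sum_of_subset_of_nonneg hPsub fun i _ _ => by positivity
        _ = _ := by
            apply sum_congr rfl
            intro i _
            rw [one_pow]
    have hs2 : ∑ i ∈ P, (κ ^ 2) ^ i.primeFactors.card / (Nat.totient i : ℝ) ≤ 1 * L ^ c2 := by
      rw [one_mul]
      refine le_trans ?_ (hc2 N hN8)
      exact sum_le_sum_of_subset_of_nonneg hPsub fun i _ _ => by positivity
    have hmax : ∑ i ∈ P, errMax N i a ≤ 1 * N / L ^ W := by
      refine hU1 N hN0 P (fun i => i) (fun _ => a) 1 zero_le_one hP1 hs1 ?_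
      intro j hj
      obtain ⟨g1, g2⟩ := hN3 N hNN3 j hj
      have h1 := hp N hN2 (gp N J j) g1 g2
      have h2 := ha j hj
      have hU : L ^ ((U1 : ℝ) + 1) = L ^ (U1 + 1) := by
        rw [← Real.rpow_natCast]
        push_cast
        rfl
      rw [hU] at h2
      calc ∑ i ∈ P, eL (gp N J j) i a ≤
          ∑ i ∈ P, (|Er (gp N J j) i a| +
            |(piN (gp N J j) : ℝ) - Pool.Agent.H442R2.EHI.lis (gp N J j)| *
              (1 / (Nat.totient i : ℝ))) := sum_le_sum fun i _ => uf_eL _ _ _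
        _ = ∑ i ∈ P, |Er (gp N J j) i a| +
            |(piN (gp N J j) : ℝ) - Pool.Agent.H442R2.EHI.lis (gp N J j)| *
              ∑ i ∈ P, (1 / (Nat.totient i : ℝ)) := by rw [sum_add_distrib, mul_sum]
        _ ≤ (N : ℝ) / L ^ (U1 + 1) + Cp * N / L ^ (c1 + U1 + 1) * L ^ c1 := by
            have h3 : ∑ i ∈ P, (1 / (Nat.totient i : ℝ)) ≤ L ^ c1 := by linarith
            have h4 : 0 ≤ ∑ i ∈ P, (1 / (Nat.totient i : ℝ)) :=
              sum_nonneg fun i _ => by positivity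
            have h5 : 0 ≤ Cp * N / L ^ (c1 + U1 + 1) := by positivity
            have h6 := mul_le_mul h1 h3 h4 h5
            linarith
        _ = (N : ℝ) / L ^ U1 * ((1 + Cp) / L) := by
            rw [show c1 + U1 + 1 = c1 + (U1 + 1) by ring, pow_add L c1, pow_succ L U1]
            field_simp
        _ ≤ (N : ℝ) / L ^ U1 * 1 := by
            apply mul_le_mul_of_nonneg_left _ (by positivity)
            rw [div_le_one hL0]
            linarith
        _ = 1 * N / L ^ U1 := by ring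
    have hfin := hW N hN8 P (fun i => i) (fun i => errMax N i a) 1 zero_le_one
      (fun i hi => ⟨errMax_nonneg _ _ _, errMax_triv N i a (by omega) (hP1 i hi)
        (mem_Icc.1 (hPsub hi)).2⟩) hs2 hmax
    rw [one_mul] at hfin
    exact hfin
  -- counting
  have hsub : (Icc 1 N).filter (fun a : ℕ => (N : ℝ) / L ^ U <
      ∑ d ∈ (S N).filter (fun d => Nat.Coprime a d),
        κ ^ d.primeFactors.card * errMax N d a) ⊆
      (Icc 1 J).biUnion (fun j => (Icc 1 N).filter (fun a : ℕ => (N : ℝ) / L ^ ((U1 : ℝ) + 1) <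
        ∑ d ∈ (S N).filter (fun d => Nat.Coprime a d),
          |Er (gp N J j) d a|)) := by
    intro a ha
    rw [mem_filter] at ha
    rw [mem_biUnion]
    by_contra hcon
    push Not at hcon
    apply absurd ha.2
    rw [not_lt]
    apply hmain a
    intro j hj
    have := hcon j hj
    rw [mem_filter, not_and] at this
    exact not_lt.1 (this ha.1)
  have hcard := card_le_card hsub
  have hcard2 := hcard.trans card_biUnion_le
  have hcard3 : ((∑ j ∈ Icc 1 J, ((Icc 1 N).filter (fun a : ℕ => (N : ℝ) / L ^ ((U1 : ℝ) + 1) <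
        ∑ d ∈ (S N).filter (fun d => Nat.Coprime a d),
          |Er (gp N J j) d a|)).card : ℕ) : ℝ) ≤ J * (Cf * L ^ (2 * (U1 + 1) + 8)) := by
    push_cast
    calc _ ≤ ∑ j ∈ Icc 1 J, Cf * L ^ (2 * (U1 + 1) + 8) := by
          apply sum_le_sum
          intro j hj
          have := hf N hN (gp N J j) (hN3 N hNN3 j hj).2
          have e : L ^ (2 * ((U1 : ℝ) + 1) + 8) = L ^ (2 * (U1 + 1) + 8) := by
            rw [← Real.rpow_natCast]
            push_cast
            rfl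
          rw [e] at this
          exact this
      _ = J * (Cf * L ^ (2 * (U1 + 1) + 8)) := by
          rw [sum_const, Nat.card_Icc, nsmul_eq_mul]
          simp
  have hcard4 : (((Icc 1 N).filter (fun a : ℕ => (N : ℝ) / L ^ U <
      ∑ d ∈ (S N).filter (fun d => Nat.Coprime a d),
        κ ^ d.primeFactors.card * errMax N d a)).card : ℝ) ≤ J * (Cf * L ^ (2 * (U1 + 1) + 8)) :=
    le_trans (by exact_mod_cast hcard2) hcard3
  refine hcard4.trans ?_
  calc (J : ℝ) * (Cf * L ^ (2 * (U1 + 1) + 8)) ≤ 2 * L ^ K * (Cf * L ^ (2 * (U1 + 1) + 8)) := by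
        gcongr
    _ = 2 * Cf * L ^ (K + (2 * (U1 + 1) + 8)) := by rw [pow_add L K]; ring
    _ ≤ (2 * Cf + N1 + 1) * L ^ (K + (2 * (U1 + 1) + 8)) := by
        apply mul_le_mul_of_nonneg_right _ (by positivity)
        have : (0 : ℝ) ≤ N1 := Nat.cast_nonneg _
        linarith

end Pool.Agent.H442R2.FX
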