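import Pool.Agent.H442R2.FX.Wf
import Pool.Agent.H442R2.FX.Ef
import Pool.Agent.H442R2.FX.Bf
import Pool.Agent.H442R2.FX.Cf
import Pool.Agent.H442R2.FX.FinS
import Pool.Agent.H442R2.FX.WtS
import Pool.Agent.H442R2.FX.Gr
import Pool.Agent.H442R2.FX.Ns

/-! FX project: assembly with primes up to `y ≤ N`, divisor weights and the maximum over `y`. -/

set_option autoImplicit false

namespace Pool.Agent.H442R2.FX

open Finset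
open Pool.Agent.H442R2.KF

theorem CF_thm : St_CF := CF (BF (EF WF))

theorem subset_floor {N : ℕ} {θ θ₁ : ℝ} (hN : 3 ≤ N) (h : θ ≤ θ₁) {s : Finset ℕ}
    (hs : s ⊆ Icc 1 ⌊(N : ℝ) ^ θ⌋₊) : s ⊆ Icc 1 ⌊(N : ℝ) ^ θ₁⌋₊ := by
  refine hs.trans ?_
  apply Finset.Icc_subset_Icc_right
  apply Nat.floor_le_floor
  apply Real.rpow_le_rpow_of_exponent_le _ h
  exact_mod_cast (by omega : 1 ≤ N)

/-- smooth squarefree moduli -/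
theorem smooth_weighted (θ : ℝ) (hθ : θ < 5 / 9) : ∃ η : ℝ, 0 < η ∧
    ∀ κ : ℝ, 1 ≤ κ → ∀ U : ℕ, ∃ (B : ℕ) (C : ℝ), 0 < C ∧ ∀ N : ℕ, 3 ≤ N →
    (((Icc 1 N).filter (fun a : ℕ => (N : ℝ) / Real.log N ^ U <
      ∑ d ∈ (smoo N η ⌊(N : ℝ) ^ θ⌋₊).filter (fun d => Nat.Coprime a d),
        κ ^ d.primeFactors.card * Pool.Agent.H300R2.WEH.errMax N d a)).card : ℝ) ≤
      C * Real.log N ^ B := by
  classical
  obtain ⟨θ₁, hθ₁⟩ : ∃ θ₁ : ℝ, θ₁ = max θ (1 / 2) := ⟨_, rfl⟩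
  have h1 : θ ≤ θ₁ := by rw [hθ₁]; exact le_max_left _ _
  have h2 : 1 / 2 ≤ θ₁ := by rw [hθ₁]; exact le_max_right _ _
  have h3 : θ₁ < 5 / 9 := by rw [hθ₁]; exact max_lt hθ (by norm_num)
  refine ⟨(5 - 9 * θ₁) / 2, by linarith, ?_⟩
  intro κ hκ U
  have hS1 : ∀ N, 3 ≤ N → smoo N ((5 - 9 * θ₁) / 2) ⌊(N : ℝ) ^ θ⌋₊ ⊆ Icc 1 ⌊(N : ℝ) ^ θ₁⌋₊ := by
    intro N hN
    apply subset_floor hN h1
    unfold smoo
    exact Finset.filter_subset _ _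
  have hfin := finalS CF_thm θ₁ ((5 - 9 * θ₁) / 4) h2 h3 (by linarith)
    (fun N => smoo N ((5 - 9 * θ₁) / 2) ⌊(N : ℝ) ^ θ⌋₊) hS1 (by
      intro N hN d hd hlt
      rcases TaskNS.split GR h1 h2 h3 hN hd with h | h
      · rw [mem_Icc] at h
        omega
      · unfold facs at h
        rw [mem_filter] at h
        exact h.2)
  exact weightedS θ₁ h3 (fun N => smoo N ((5 - 9 * θ₁) / 2) ⌊(N : ℝ) ^ θ⌋₊) hS1 hfin κ hκ U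

/-- factorable squarefree moduli -/
theorem fac_weighted (θ δ : ℝ) (h2 : 1 / 2 ≤ θ) (h3 : θ < 5 / 9) (hδ : 0 < δ) :
    ∀ κ : ℝ, 1 ≤ κ → ∀ U : ℕ, ∃ (B : ℕ) (C : ℝ), 0 < C ∧ ∀ N : ℕ, 3 ≤ N →
    (((Icc 1 N).filter (fun a : ℕ => (N : ℝ) / Real.log N ^ U <
      ∑ d ∈ (facs N θ δ ⌊(N : ℝ) ^ θ⌋₊).filter (fun d => Nat.Coprime a d),
        κ ^ d.primeFactors.card * Pool.Agent.H300R2.WEH.errMax N d a)).card : ℝ) ≤
      C * Real.log N ^ B := by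
  classical
  intro κ hκ U
  have hS1 : ∀ N, 3 ≤ N → facs N θ δ ⌊(N : ℝ) ^ θ⌋₊ ⊆ Icc 1 ⌊(N : ℝ) ^ θ⌋₊ := by
    intro N hN
    unfold facs
    exact Finset.filter_subset _ _
  have hfin := finalS CF_thm θ δ h2 h3 hδ (fun N => facs N θ δ ⌊(N : ℝ) ^ θ⌋₊) hS1 (by
      intro N hN d hd hlt
      unfold facs at hd
      rw [mem_filter] at hd
      exact hd.2)
  exact weightedS θ h3 (fun N => facs N θ δ ⌊(N : ℝ) ^ θ⌋₊) hS1 hfin κ hκ U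

end Pool.Agent.H442R2.FX
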