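import Pool.Agent.H442R2.KF.Defs2

/-!
FX project (helper442): definitions and statements.

Level of distribution `5/9` for squarefree moduli with a divisor of suitable size (in particular for
smooth squarefree moduli), for all but `(log N)^B` of the residues `a ≤ N`.

Every `St_X` below is the statement of one task; the doc comment is its complete proof.
-/

namespace Pool.Agent.H442R2.FX

open Finset
open Pool.Agent.H442R2.KF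

/-- squarefree moduli with a divisor in `[N^(2θ-1+δ), N^(4-7θ-δ)]` -/
def FacD (N : ℕ) (θ δ : ℝ) (d : ℕ) : Prop :=
  Squarefree d ∧ ∃ s : ℕ, s ∣ d ∧ (N : ℝ) ^ (2 * θ - 1 + δ) ≤ s ∧
    (s : ℝ) ≤ (N : ℝ) ^ (4 - 7 * θ - δ)

open Classical in
/-- these moduli up to `X` -/
noncomputable def facs (N : ℕ) (θ δ : ℝ) (X : ℕ) : Finset ℕ :=
  (Icc 1 X).filter (fun d => FacD N θ δ d)

open Classical in
/-- squarefree numbers up to `X` with all prime factors at most `N^η` -/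
noncomputable def smoo (N : ℕ) (η : ℝ) (X : ℕ) : Finset ℕ :=
  (Icc 1 X).filter (fun d : ℕ => Squarefree d ∧ ∀ p : ℕ, p.Prime → p ∣ d → (p : ℝ) ≤ (N : ℝ) ^ η)

/-- **WF** (file `Wf.lean`, theorem `WF : St_WF`; imports `H262R4.FR.W1` (`t_W1 : P_W1`, Weil's bound
for incomplete Kloosterman sums to squarefree moduli with a gcd and a Lipschitz weight) and, if
useful, the proof of `P_W3` in `H262R4.FR.W3` (counting lemmas) and the file `H262R4/FR/W2.lean`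
(theorem `t_W2`), which is almost the same argument; `KF.kf_recip`, `KF.kf_of_inv` are in
`KF/Kfb.lean`).

Trilinear forms with Kloosterman fractions, one factorable variable.

Proof.  The left side is zero if `S > 2M + 1`.  Cauchy–Schwarz over the pairs `(r, n)`, `r ≤ 3M/S`
(as `r s ≤ 2M + 1 ≤ 3M`, `s ≥ S`), `n ∈ (M, 2M+1]`:
`|T|² ≤ (3M/S)(M+1) ∑_r ∑_n |∑_{s, j} γ(r,s) 1_{(rs,n)=1} ψ_j(rsn) kf(j k) (rs) n|²`.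
Expand the square: `(s₁, j₁)`, `(s₂, j₂)`, both with `γ ≠ 0`, so `r s₁, r s₂` squarefree and in
`(M, 2M+1]`.
(i) `j₁ s₂ = j₂ s₁`: at most `C_ε (S J)^(1+ε)` quadruples (`P_W3`, first part, or: `j₁ s₂` determines
`(j₁, s₂)` and `(j₂, s₁)` up to divisor functions), each contributes at most
`(3M/S)(M+1)`.
(ii) `Δ = j₁ s₂ - j₂ s₁ ≠ 0`: let `g = (s₁, s₂)`, `s_i = g t_i`, `q = r g t₁ t₂ = lcm(r s₁, r s₂)`,
squarefree, and `n` is coprime to `r s₁` and `r s₂` iff it is coprime to `q`.  With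
`B = k (j₁ t₂ - j₂ t₁) ≠ 0`: `kf (j₁ k) (r s₁) n * conj (kf (j₂ k) (r s₂) n) = kf B q n =
e(B/(n q)) * conj (kf B n q)` (`kf_recip`).  The weight
`Ω(x) = ψ_{j₁}(r s₁ x) conj ψ_{j₂}(r s₂ x) e(B/(x q))` has norm `≤ 1` on `[M, 2M+1]`... (as
`r s_i > M`, `x ≥ M`) and Lipschitz constant `Λ ≤ 20 V/M` (`|B|/q ≤ |k| (j₁/(r s₁) + j₂/(r s₂)) ≤
2 V M`).  `P_W1`: the sum over `n` is
`≤ C q^ε (1 + Λ (M+1)) (√q + (M + 2) √((B,q)/q))`.  Here `q ≤ (2M+1)(2S)` and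
`(B, q) ≤ (B, r) · g t₁ t₂`, so `√((B,q)/q) ≤ √((B,r)/r)`, and `r ≥ M/(2S)`.. so
`(M+2) √((B,q)/q) ≤ 5 √(M S) √(B,r)`.  `B` does not depend on `r`:
`∑_{r ≤ 3M/S} √(B, r) ≤ (3M/S) τ(|B|)` (`P_W3`), `|B| ≤ 4 S V M²`, `τ(|B|) ≤ C_ε (V M)^(4ε)`.  The
number of `(s₁, s₂, j₁, j₂)` is `≤ (S J)²`.
Total `|T|² ≤ C (V M)^(10ε) V (M²/S) ((S J)(M²/S) + (S J)² (M/S) √(M S))
= C (V M)^(10ε) V (M⁴ J/S + M^(7/2) J² S^(1/2))` (`J ≤ V M²` as `|k| ≥ 1`). -/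
def St_WF : Prop := ∀ ε : ℝ, 0 < ε → ∃ C : ℝ, 0 < C ∧ ∀ (M S J : ℕ), 1 ≤ M → 1 ≤ S → 1 ≤ J →
    ∀ V : ℝ, 1 ≤ V → ∀ ψ : ℕ → ℝ → ℂ, (∀ j, Wei M V (ψ j)) →
    ∀ k : ℤ, k ≠ 0 → |(k : ℝ)| * J ≤ V * (M : ℝ) ^ 2 →
    ∀ (γ : ℕ → ℕ → ℂ) (β : ℕ → ℂ), (∀ r s, ‖γ r s‖ ≤ 1) → (∀ n, ‖β n‖ ≤ 1) →
    (∀ r s, γ r s ≠ 0 → Squarefree (r * s) ∧ r * s ∈ Ioc M (2 * M + 1)) →
    ‖∑ s ∈ Ico S (2 * S), ∑ r ∈ Icc 1 (2 * M + 1),
      ∑ n ∈ (Ioc M (2 * M + 1)).filter (fun n => Nat.Coprime (r * s) n),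
        γ r s * β n * FF ψ k J n (r * s)‖ ^ 2 ≤
      C * (V * M) ^ ε * V * ((M : ℝ) ^ 4 * J / S +
        (M : ℝ) ^ (7 / 2 : ℝ) * (J : ℝ) ^ 2 * (S : ℝ) ^ (1 / 2 : ℝ))

/-- **EF** (file `Ef.lean`, theorem `EF (hWF : St_WF) : St_EF`; copy and adapt `KF/Err2.lean`,
theorem `err2_of`, whose lemmas `TaskTM2.sum_eq`, `trivial_bd`, `TaskM2.wei`... can be imported).

Proof.  As in `err2_of`: `M = D/g`, `J = ⌊4 D² log N/(g N)⌋`; `J = 0` trivial, `N < N₀` trivial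
(`trivial_bd`), and the sum is `(N/(g M²)) ∑_m ∑_n c(g m) c'(g n) FF (…) (σ k) J n m` with weights
`Wei M (200 log N)`, `|σ k| J ≤ 200 log N M²`.
For every `d` with `c d ≠ 0` choose (`FacD`) a divisor `sd d` of `d` in
`[N^(2θ-1+δ), N^(4-7θ-δ)]`; for `m` with `c (g m) ≠ 0` put `s₁(m) = sd (g m)/gcd(sd (g m), g)`; it
divides `m` (as `g m` is squarefree) and
`N^(2θ-1+δ)/g ≤ s₁(m) ≤ N^(4-7θ-δ)`.  Let `γ_i(r, s) = c (g r s)` if `c (g r s) ≠ 0`,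
`s = s₁(r s)`, `s ∈ [2^i, 2^(i+1))`, `r s ∈ (M, 2M+1]`, and `0` otherwise.  Then
`∑_m c(g m) G(m) = ∑_i ∑_{s ∈ Ico (2^i) (2^(i+1))} ∑_r γ_i(r, s) G(r s)`, `i ≤ log₂ (2M+1)`.  WF for
every `i`, `S = 2^i` (if `γ_i ≠ 0` then `N^(2θ-1+δ)/(2g) ≤ S ≤ N^(4-7θ-δ)`):
`J ≤ 4 N^(2θ-1) log N/g`, so `J/S ≤ 8 log N N^(-δ)`; `M ≥ D/(2g)` so
`J² S^(1/2) M^(-1/2) ≤ 16 (D⁴ log² N/(g² N²)) N^((4-7θ-δ)/2) (2g/D)^(1/2)
≤ 32 log² N N^(7θ/2 - 2 + 2 - 7θ/2 - δ/2) = 32 log² N N^(-δ/2)`.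
So `|T_i|² ≤ C (N^3)^ε (log N)^3 M⁴ N^(-δ/2)`; take `ε = δ/24`: `|T_i| ≤ C M² N^(-δ/8)`, and the
number of `i` is `≤ 2 log N + 2`. -/
def St_EF : Prop := ∀ θ δ : ℝ, 1 / 2 ≤ θ → θ < 5 / 9 → 0 < δ → ∃ (η C : ℝ), 0 < η ∧ 0 < C ∧
    ∀ (N D g : ℕ), 3 ≤ N → (D : ℝ) ≤ (N : ℝ) ^ θ → 1 ≤ g → g ≤ D →
    ∀ (a k σ : ℤ), (σ = 1 ∨ σ = -1) → 0 ≤ a → a ≤ N → k ≠ 0 → |(g : ℝ) * k| ≤ N →
    ∀ c c' : ℕ → ℝ, (∀ d, |c d| ≤ 1) → (∀ d, |c' d| ≤ 1) → (∀ d, c d ≠ 0 → FacD N θ δ d) →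
    ‖∑ j ∈ Icc 1 ⌊4 * (D : ℝ) ^ 2 * Real.log N / (g * N)⌋₊,
      ∑ d₁ ∈ Ioc (D / g) (2 * (D / g) + 1),
      ∑ d₂ ∈ (Ioc (D / g) (2 * (D / g) + 1)).filter (fun d₂ => Nat.Coprime d₁ d₂),
        (c (g * d₁) : ℂ) * (c' (g * d₂) : ℂ) * ((N : ℝ) / (g * d₁ * d₂) : ℝ) *
          ((Real.exp (-Real.pi * ((j : ℝ) * N / (g * d₁ * d₂)) ^ 2) : ℝ) : ℂ) *
          e ((σ : ℝ) * j * a / (g * d₁ * d₂)) * kf (σ * j * k) d₁ d₂‖ ≤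
      C * (N : ℝ) ^ (1 - η) / g

/-- **BF** (file `Bf.lean`, theorem `BF (hEF : St_EF) : St_BF`; copy and adapt `KF/Big2.lean`,
theorem `big_pairs2_of`: replace `err2` by EF; the only change is the extra hypothesis on the
support of `c`, which passes to the truncated coefficient `tc D c`). -/
def St_BF : Prop := ∀ θ δ : ℝ, 1 / 2 ≤ θ → θ < 5 / 9 → 0 < δ → ∃ (η C : ℝ), 0 < η ∧ 0 < C ∧
    ∀ (N D : ℕ), 2 ≤ N → (D : ℝ) ≤ (N : ℝ) ^ θ →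
    ∀ (a a' : ℤ), 0 ≤ a → a ≤ N → 0 ≤ a' → a' ≤ N → a ≠ a' →
    ∀ c c' : ℕ → ℝ, (∀ d, |c d| ≤ 1) → (∀ d, |c' d| ≤ 1) → (∀ d, c d ≠ 0 → FacD N θ δ d) →
    |∑ d ∈ Ioc D (2 * D), ∑ d' ∈ Ioc D (2 * D), c d * c' d' *
      (SS N a a' d d' - N * Fh (a' - a) (Nat.gcd d d') / (d * d'))| ≤ C * (N : ℝ) ^ (1 - η)

/-- **CF** (file `Cf.lean`, theorem `CF (hBF : St_BF) : St_CF`; copy and adapt `KF/Corr2.lean`,
theorem `corr2_of` (its other hypothesis `small` is the theorem `small_pairs`, see `KF/AsmA.lean`,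
`KF/AsmB.lean` for the names); everything but the big pairs is independent of the level as long as
`2D · QN N ≤ N^(9/10)`, i.e. `θ < 5/9` is fine). -/
def St_CF : Prop := ∀ θ δ : ℝ, 1 / 2 ≤ θ → θ < 5 / 9 → 0 < δ → ∃ (η C : ℝ), 0 < η ∧ 0 < C ∧
    ∀ (N D : ℕ), 2 ≤ N → QN N ≤ D → (D : ℝ) ≤ (N : ℝ) ^ θ →
    ∀ (a a' : ℤ), 0 ≤ a → a ≤ N → 0 ≤ a' → a' ≤ N → a ≠ a' →
    ∀ c c' : ℕ → ℝ, Cof D c → Cof D c' → (∀ d, c d ≠ 0 → FacD N θ δ d) →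
    (∀ d, c' d ≠ 0 → FacD N θ δ d) →
    |∑' n : ℤ, Wt N n * (rr (uu c (2 * D) (QN N)) (2 * D) a n *
      rr (uu c' (2 * D) (QN N)) (2 * D) a' n)| ≤ C * (N : ℝ) ^ (1 - η)

/-- **KB** (file `Kb.lean`, theorem `KB (hCF : St_CF) : St_KB`; copy and adapt `KF/Block2.lean`,
theorem `block2_of` (see `KF/AsmB.lean` for the names of its other hypotheses, all of them
theorems): the coefficients used there are signs times the indicator of `T`, so they have the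
extra support property if `T ⊆ FacD`). -/
def St_KB : Prop := ∀ θ δ : ℝ, 1 / 2 ≤ θ → θ < 5 / 9 → 0 < δ → ∀ U : ℝ, ∃ (C : ℝ), 0 < C ∧
    ∀ (N D : ℕ), 3 ≤ N → QN N ≤ D → (D : ℝ) ≤ (N : ℝ) ^ θ → ∀ T : Finset ℕ, T ⊆ Ioc D (2 * D) →
    (∀ d ∈ T, FacD N θ δ d) →
    (((Icc 1 N).filter (fun a : ℕ => (N : ℝ) / Real.log N ^ U <
      ∑ d ∈ T.filter (fun d => Nat.Coprime a d), |Er N d a|)).card : ℝ) ≤
      C * Real.log N ^ (2 * U + 5)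

/-- **NF** (file `Nf.lean`, theorem `NF (hKB : St_KB) : St_NF`; copy and adapt `KF/Fin2.lean`,
theorem `final2_of` (`bv` is the theorem `KF.bv`); the blocks are intersected with `facs`). -/
def St_NF : Prop := ∀ θ δ : ℝ, 1 / 2 ≤ θ → θ < 5 / 9 → 0 < δ → ∀ U : ℝ, 0 < U → ∃ (C : ℝ), 0 < C ∧
    ∀ (N : ℕ), 3 ≤ N →
    (((Icc 1 N).filter (fun a : ℕ => (N : ℝ) / Real.log N ^ U <
      ∑ d ∈ (facs N θ δ ⌊(N : ℝ) ^ θ⌋₊).filter (fun d => Nat.Coprime a d), |Er N d a|)).card : ℝ) ≤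
      C * Real.log N ^ (2 * U + 8)

/-- **GR** (file `Gr.lean`, theorem `GR : St_GR`).  Greedy divisors.

Proof.  Multiply prime factors of `d` (with multiplicity) one by one until the product is `≥ lo`
for the first time; the previous product was `< lo` (or the product is `1 = lo`).  Induction on
`d`: if `d ≤ lo * y` take `s = d`; otherwise `d > lo * y`, take a prime `p ∣ d`, `d/p ≥ lo`, and
apply the induction hypothesis to `d/p`. -/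
def St_GR : Prop := ∀ (d : ℕ) (lo y : ℝ), 1 ≤ lo → lo ≤ d → 1 ≤ y →
    (∀ p : ℕ, p.Prime → p ∣ d → (p : ℝ) ≤ y) → ∃ s : ℕ, s ∣ d ∧ lo ≤ s ∧ (s : ℝ) ≤ lo * y

/-- **NS** (file `Ns.lean`, theorem `NS (hNF : St_NF) (hGR : St_GR) : St_NS`; import `KF/Bv.lean` for
`KF.bv`).  Smooth moduli.

Proof.  `θ₁ = max θ (1/2)`, `δ = (5 - 9θ₁)/4`, `η = (5 - 9θ₁)/2`, `lo = N^(2θ₁-1+δ)`; so
`lo N^η = N^(4-7θ₁-δ)`.  A squarefree `d ≤ N^θ` with all prime factors `≤ N^η` either has `d < lo`,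
`lo ≤ N^(49/100)` (`2θ₁ - 1 + δ = (8θ₁... ) < 1/4`), or is in `facs N θ₁ δ ⌊N^θ₁⌋` by GR.  By `KF.bv`
with `δ = 49/100` and the classes `a(d) = a` if `a` is coprime to `d`, `1` otherwise (reduced mod
`d` is not needed), `∑_{d ≤ N^(49/100), (d,a)=1} |Er N d a| ≤ C N/(log N)^(⌈U⌉+2) ≤
N/(2 (log N)^U)` for every `a`, if `N ≥ N₀(U)`.  So an exceptional `a` has
`∑_{facs} > N/(2 (log N)^U) ≥ N/(log N)^(U+1)` (`log N ≥ 2`), and NF with `U + 1` bounds their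
number by `C (log N)^(2U+10)`.  For `N < N₀`: at most `N₀`. -/
def St_NS : Prop := ∀ θ : ℝ, θ < 5 / 9 → ∃ η : ℝ, 0 < η ∧ ∀ U : ℝ, 0 < U → ∃ C : ℝ, 0 < C ∧
    ∀ N : ℕ, 3 ≤ N →
    (((Icc 1 N).filter (fun a : ℕ => (N : ℝ) / Real.log N ^ U <
      ∑ d ∈ (smoo N η ⌊(N : ℝ) ^ θ⌋₊).filter (fun d => Nat.Coprime a d), |Er N d a|)).card : ℝ) ≤
      C * Real.log N ^ (2 * U + 10)

end Pool.Agent.H442R2.FX
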