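import Pool.Agent.H442R2.FX.Defs
import Pool.Agent.H442R2.KF.BlockY
import Pool.Agent.H442R2.KF.PriY
import Pool.Agent.H442R2.KF.DualY
import Pool.Agent.H442R2.KF.Diag
import Pool.Agent.H442R2.KF.Summ
import Pool.Agent.H442R2.KF.Hat

/-! FX project: one dyadic block, primes up to `y ≤ N` (adapted from KF/BlockY.lean). -/

namespace Pool.Agent.H442R2.FX

open Finset
open Pool.Agent.H442R2.KF
open Pool.Agent.H442R2.KF.TaskUD

theorem KBY (hCF : St_CF) (θ δ : ℝ) (hhalf : 1 / 2 ≤ θ) (hθ : θ < 5 / 9) (hδ : 0 < δ) (U : ℝ) :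
    ∃ (C : ℝ), 0 < C ∧
    ∀ (N D : ℕ), 3 ≤ N → QN N ≤ D → (D : ℝ) ≤ (N : ℝ) ^ θ → ∀ y : ℕ, y ≤ N →
    ∀ T : Finset ℕ, T ⊆ Ioc D (2 * D) → (∀ d ∈ T, FacD N θ δ d) →
    (((Icc 1 N).filter (fun a : ℕ => (N : ℝ) / Real.log N ^ U <
      ∑ d ∈ T.filter (fun d => Nat.Coprime a d), |Er y d a|)).card : ℝ) ≤
      C * Real.log N ^ (2 * U + 5) := by
  obtain ⟨η, CO, hη, hCO, hcorr⟩ := hCF θ δ hhalf hθ hδ
  obtain ⟨CG, hCG, hdiag⟩ := KF.diag
  set U' : ℕ := ⌈max (U + 1) 0⌉₊ with hU'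
  have hU'1 : U + 1 ≤ (U' : ℝ) := (le_max_left _ _).trans (Nat.le_ceil _)
  obtain ⟨CP, hCP, hprime⟩ := prime_sideY U'
  -- the threshold
  have hev1 : ∀ᶠ N : ℕ in Filter.atTop, 200 * CO * Real.log N ^ (2 * U) ≤ (N : ℝ) ^ η := by
    have h1 := (isLittleO_log_rpow_rpow_atTop (2 * U) hη).comp_tendsto
      (tendsto_natCast_atTop_atTop (R := ℝ))
    have h2 := h1.def (c := 1 / (200 * CO)) (by positivity)
    filter_upwards [h2, Filter.eventually_ge_atTop 3] with N hN hN3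
    have hl := one_le_log hN3
    simp only [Function.comp_apply, Real.norm_eq_abs] at hN
    rw [abs_of_nonneg (by positivity), abs_of_nonneg (by positivity)] at hN
    calc 200 * CO * Real.log N ^ (2 * U) ≤ 200 * CO * (1 / (200 * CO) * (N : ℝ) ^ η) := by
          gcongr
      _ = (N : ℝ) ^ η := by field_simp
  have hev2 : ∀ᶠ N : ℕ in Filter.atTop, 2 * CP ≤ Real.log N :=
    (Real.tendsto_log_atTop.comp (tendsto_natCast_atTop_atTop (R := ℝ))).eventually_ge_atTop _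
  obtain ⟨N0, hN0⟩ := Filter.eventually_atTop.mp (hev1.and hev2)
  set C1 : ℝ := ∑ N ∈ Finset.range N0, (N : ℝ) / |Real.log N ^ (2 * U + 5)| with hC1
  have hC1' : 0 ≤ C1 := Finset.sum_nonneg (fun N _ => by positivity)
  refine ⟨5000 * CG + C1, by positivity, ?_⟩
  intro N D hN3 hQD hDθ y hyN T hT hFac
  set A := (Icc 1 N).filter (fun a : ℕ => (N : ℝ) / Real.log N ^ U <
      ∑ d ∈ T.filter (fun d => Nat.Coprime a d), |Er y d a|) with hA
  have hl := one_le_log hN3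
  have hl0 : 0 < Real.log N := by linarith
  have hN1 : 1 ≤ N := by omega
  have hNr : (3 : ℝ) ≤ N := by exact_mod_cast hN3
  have hpow : 0 < Real.log N ^ (2 * U + 5) := by positivity
  rcases lt_or_ge N N0 with hlt | hge
  · -- small N
    have h1 : (A.card : ℝ) ≤ N := by
      have := Finset.card_filter_le (Icc 1 N) (fun a : ℕ => (N : ℝ) / Real.log N ^ U <
        ∑ d ∈ T.filter (fun d => Nat.Coprime a d), |Er y d a|)
      rw [Nat.card_Icc] at this
      exact_mod_cast this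
    have h2 : (N : ℝ) / |Real.log N ^ (2 * U + 5)| ≤ C1 :=
      Finset.single_le_sum (f := fun N : ℕ => (N : ℝ) / |Real.log N ^ (2 * U + 5)|)
        (fun N _ => by positivity) (Finset.mem_range.mpr hlt)
    rw [abs_of_pos hpow, div_le_iff₀ hpow] at h2
    calc (A.card : ℝ) ≤ N := h1
      _ ≤ C1 * Real.log N ^ (2 * U + 5) := h2
      _ ≤ (5000 * CG + C1) * Real.log N ^ (2 * U + 5) := by
          apply mul_le_mul_of_nonneg_right _ hpow.le
          linarith
  -- large N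
  obtain ⟨hb1, hb2⟩ := hN0 N hge
  set Y : ℝ := (N : ℝ) / Real.log N ^ U with hY
  have hYpos : 0 < Y := by positivity
  set u : ℕ → ℕ → ℝ := fun a => uu (cs T y a) (2 * D) (QN N) with hu
  set r : ℕ → ℤ → ℝ := fun a n => rr (u a) (2 * D) a n with hr
  have hcof : ∀ a, Cof D (cs T y a) := fun a => cof_cs T y D a hT
  have hsupp : ∀ a d, cs T y a d ≠ 0 → FacD N θ δ d := by
    intro a d h
    apply hFac
    by_contra hd
    apply h
    unfold cs
    rw [if_neg]
    rintro ⟨h', -⟩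
    exact hd h'
  have hQ1 : 1 ≤ QN N := one_le_QN hN1
  -- bound of the weights
  have hK : ∀ a d, |u a d| ≤ 5 * Real.log N := by
    intro a d
    have h1 := (hcof a).bd d
    have h2 := abs_ww_le (cs T y a) D (QN N) d (hcof a) hQ1
    have h3 := log_QN_le hN1
    simp only [hu, uu]
    calc |cs T y a d - ww (cs T y a) (2 * D) (QN N) d|
        ≤ |cs T y a d| + |ww (cs T y a) (2 * D) (QN N) d| := abs_sub _ _
      _ ≤ 1 + 2 * (1 + Real.log (QN N)) := by linarith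
      _ ≤ 5 * Real.log N := by linarith
  -- the prime side
  have hD34 : (D : ℝ) ≤ (N : ℝ) ^ (3 / 4 : ℝ) := by
    refine hDθ.trans (Real.rpow_le_rpow_of_exponent_le (by linarith) ?_)
    have : (5 / 9 : ℝ) < 3 / 4 := by norm_num
    linarith
  have hps : ∀ a ∈ A, Y / 2 ≤ ∑ p ∈ (Icc 1 y).filter Nat.Prime, r a p := by
    intro a ha
    rw [hA, mem_filter, mem_Icc] at ha
    obtain ⟨⟨ha1, ha2⟩, ha3⟩ := ha
    have h1 := hprime N D hN3 hQD hD34 y hyN a ha1 ha2 (cs T y a) (hcof a) (fun d hd => cs_zero T y a d hd)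
    rw [cs_sum T y D a hT] at h1
    have h2 := (abs_le.mp h1).1
    have h3 : CP * ((N : ℝ) / Real.log N ^ U') ≤ Y / 2 := by
      have h4 : Real.log N ^ (U' : ℝ) ≥ Real.log N ^ (U + 1) :=
        Real.rpow_le_rpow_of_exponent_le hl hU'1
      rw [Real.rpow_natCast] at h4
      rw [Real.rpow_add hl0, Real.rpow_one] at h4
      have h5 : 0 < Real.log N ^ U := by positivity
      have h6 : Real.log N ^ U * (2 * CP) ≤ Real.log N ^ U' := by
        refine le_trans ?_ h4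
        gcongr
      rw [hY, div_div, mul_div_assoc', div_le_div_iff₀ (by positivity) (by positivity)]
      calc CP * N * (Real.log N ^ U * 2) = N * (Real.log N ^ U * (2 * CP)) := by ring
        _ ≤ N * Real.log N ^ U' := by gcongr
    have h4 : (∑ p ∈ (Icc 1 y).filter Nat.Prime, r a p) =
        ∑ p ∈ (Icc 1 y).filter Nat.Prime, rr (uu (cs T y a) (2 * D) (QN N)) (2 * D) a p := rfl
    rw [h4]
    linarith
  -- duality
  have hNη : 0 ≤ CO * (N : ℝ) ^ (1 - η) := by positivity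
  have hD2 : 2 ≤ N := by omega
  have hd := dualY N y hN1 hyN A r
    (fun a _ a' _ => summable_rr N (2 * D) hN1 (u a) (u a') a a')
    (CG * (5 * Real.log N) ^ 2 * (N * Real.log N ^ 3)) (CO * (N : ℝ) ^ (1 - η))
    (by
      intro a ha
      rw [hA, mem_filter, mem_Icc] at ha
      exact hdiag N (2 * D) hN3 a (by positivity) (by exact_mod_cast ha.1.2) (u a) _ (hK a))
    hNη
    (by
      intro a ha a' ha' hne
      rw [hA, mem_filter, mem_Icc] at ha ha'
      exact (le_abs_self _).trans (hcorr N D hD2 hQD hDθ a a' (by positivity)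
        (by exact_mod_cast ha.1.2) (by positivity) (by exact_mod_cast ha'.1.2)
        (by exact_mod_cast hne) (cs T y a) (cs T y a') (hcof a) (hcof a')
        (hsupp a) (hsupp a')))
  have hlow : (A.card : ℝ) * (Y / 2) ≤ ∑ a ∈ A, ∑ p ∈ (Icc 1 y).filter Nat.Prime, r a p := by
    rw [← nsmul_eq_mul]
    exact Finset.card_nsmul_le_sum A _ _ hps
  have hsq : ((A.card : ℝ) * (Y / 2)) ^ 2 ≤
      (∑ a ∈ A, ∑ p ∈ (Icc 1 y).filter Nat.Prime, r a p) ^ 2 :=
    pow_le_pow_left₀ (by positivity) hlow 2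
  have hmain := hsq.trans hd
  have hYsq : Y ^ 2 * Real.log N ^ (2 * U) = (N : ℝ) ^ 2 := by
    rw [hY, div_pow, mul_comm 2 U, Real.rpow_mul hl0.le, Real.rpow_two]
    field_simp
  have hO1 : 25 * N * (CO * (N : ℝ) ^ (1 - η)) ≤ Y ^ 2 / 8 := by
    have hNp : (N : ℝ) ^ (1 - η) * (N : ℝ) ^ η = N := by
      rw [← Real.rpow_add (by positivity), sub_add_cancel, Real.rpow_one]
    have hq : 0 < Real.log N ^ (2 * U) := by positivity
    have h1 : 25 * N * (CO * (N : ℝ) ^ (1 - η)) * Real.log N ^ (2 * U) ≤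
        Y ^ 2 / 8 * Real.log N ^ (2 * U) := by
      have h2 : Y ^ 2 / 8 * Real.log N ^ (2 * U) = (N : ℝ) ^ 2 / 8 := by
        rw [div_mul_eq_mul_div, hYsq]
      rw [h2]
      calc 25 * N * (CO * (N : ℝ) ^ (1 - η)) * Real.log N ^ (2 * U)
          = N * (N : ℝ) ^ (1 - η) / 8 * (200 * CO * Real.log N ^ (2 * U)) := by ring
        _ ≤ N * (N : ℝ) ^ (1 - η) / 8 * (N : ℝ) ^ η := by gcongr
        _ = N * ((N : ℝ) ^ (1 - η) * (N : ℝ) ^ η) / 8 := by ring
        _ = (N : ℝ) ^ 2 / 8 := by rw [hNp]; ring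
    exact le_of_mul_le_mul_right h1 hq
  rcases Nat.eq_zero_or_pos A.card with h0 | hpos
  · rw [h0]
    have : 0 ≤ (5000 * CG + C1) * Real.log N ^ (2 * U + 5) := by positivity
    simpa using this
  have hc : (0 : ℝ) < A.card := by exact_mod_cast hpos
  have hfin : (A.card : ℝ) * Y ^ 2 ≤ 5000 * CG * Real.log N ^ 5 * (N : ℝ) ^ 2 := by
    have h1 : (A.card : ℝ) ^ 2 * (25 * N * (CO * (N : ℝ) ^ (1 - η))) ≤
        (A.card : ℝ) ^ 2 * (Y ^ 2 / 8) := by gcongr
    have h2 : (A.card : ℝ) * ((A.card : ℝ) * Y ^ 2) ≤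
        (A.card : ℝ) * (5000 * CG * Real.log N ^ 5 * (N : ℝ) ^ 2) := by
      nlinarith [hmain, h1]
    exact le_of_mul_le_mul_left h2 hc
  have hfin2 : (A.card : ℝ) * Y ^ 2 ≤
      (5000 * CG * Real.log N ^ (2 * U + 5)) * Y ^ 2 := by
    have h1 : Real.log N ^ (2 * U + 5) = Real.log N ^ (2 * U) * Real.log N ^ 5 := by
      rw [Real.rpow_add hl0]
      norm_cast
    calc (A.card : ℝ) * Y ^ 2 ≤ 5000 * CG * Real.log N ^ 5 * (N : ℝ) ^ 2 := hfin
      _ = (5000 * CG * Real.log N ^ (2 * U + 5)) * Y ^ 2 := by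
          rw [← hYsq, h1]; ring
  have hfin3 := le_of_mul_le_mul_right hfin2 (by positivity)
  refine hfin3.trans ?_
  apply mul_le_mul_of_nonneg_right _ hpow.le
  linarith

end Pool.Agent.H442R2.FX
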