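import Pool.Agent.H442R2.FX.Defs
import Pool.Agent.H442R2.KF.Kfb
import Pool.Agent.H262R4.FR.W1
import Pool.Agent.H262R4.FR.W2
import Pool.Agent.H262R4.FR.W3
import Pool.Agent.H510R2.Div

/-!
FX project (helper442), task WF (helper338): trilinear forms with Kloosterman fractions, one
factorable variable: Cauchy-Schwarz over `(r, n)` and Weil's bound.
-/

set_option autoImplicit false

namespace Pool.Agent.H442R2.FX

open Finset
open Pool.Agent.H442R2.KF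

namespace TaskWF

open Pool.Agent.H442R2.KF.TaskA
open Pool.Agent.H262R4.FR.TW2 (W1c B0 B0_ne B0_abs_le expand_sq sum_quad)

theorem conj_kf (B m : ℤ) (n : ℕ) : (starRingEnd ℂ) (kf B m n) = kf (-B) m n := by
  unfold kf
  rw [conj_e]
  congr 1
  push_cast
  ring

/-- the product of two Kloosterman fractions -/
theorem kf_prod (n q r1 r2 t1 t2 : ℕ) (hn : 0 < n) (h1 : r1 * t2 = q) (h2 : r2 * t1 = q)
    (hc : Nat.Coprime q n) (b1 b2 : ℤ) :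
    kf b1 (r1 : ℤ) n * (starRingEnd ℂ) (kf b2 (r2 : ℤ) n) =
      kf (b1 * t2 - b2 * t1) (q : ℤ) n := by
  have hcz : IsCoprime (q : ℤ) (n : ℤ) := Nat.isCoprime_iff_coprime.2 hc
  obtain ⟨x, hx, -⟩ := unit_inv n hn q hcz
  have c1 : (((r1 : ℤ) * (t2 * x) : ℤ) : ZMod n) = 1 := by
    rw [← hx, ← h1]; push_cast; ring
  have c2 : (((r2 : ℤ) * (t1 * x) : ℤ) : ZMod n) = 1 := by
    rw [← hx, ← h2]; push_cast; ring
  rw [kf_of_inv n hn b1 _ _ c1, kf_of_inv n hn b2 _ _ c2, kf_of_inv n hn _ _ _ hx, conj_e, ← e_add]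
  congr 1
  push_cast
  ring

/-- one term -/
noncomputable def aw (γ : ℕ → ℕ → ℂ) (ψ : ℕ → ℝ → ℂ) (k : ℤ) (r s j n : ℕ) : ℂ :=
  if Nat.Coprime (r * s) n then
    γ r s * (ψ j (((r * s : ℕ) : ℝ) * n) * kf ((j : ℤ) * k) ((r * s : ℕ) : ℤ) n)
  else 0

theorem low_bd (M m : ℕ) (x : ℝ) (hm : M < m) (hx : (M : ℝ) ≤ x) :
    (M : ℝ) ^ 2 ≤ (m : ℝ) * x := by
  have h1 : (M : ℝ) ≤ m := by exact_mod_cast hm.le
  have h0 : (0 : ℝ) ≤ M := Nat.cast_nonneg _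
  rw [pow_two]
  exact mul_le_mul h1 hx h0 (h0.trans h1)

theorem norm_aw_le (M : ℕ) (V : ℝ) (γ : ℕ → ℕ → ℂ) (ψ : ℕ → ℝ → ℂ) (hψ : ∀ j, Wei M V (ψ j))
    (hγ1 : ∀ r s, ‖γ r s‖ ≤ 1)
    (hγ2 : ∀ r s, γ r s ≠ 0 → Squarefree (r * s) ∧ r * s ∈ Ioc M (2 * M + 1))
    (k : ℤ) (r s j n : ℕ) (hn : M < n) : ‖aw γ ψ k r s j n‖ ≤ 1 := by
  unfold aw
  split_ifs
  · by_cases hz : γ r s = 0
    · rw [hz, zero_mul, norm_zero]; exact zero_le_one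
    · have h1 := (Finset.mem_Ioc.1 (hγ2 r s hz).2).1
      rw [norm_mul, norm_mul, norm_kf, mul_one]
      have h2 : ‖ψ j (((r * s : ℕ) : ℝ) * n)‖ ≤ 1 :=
        (hψ j).bd _ (low_bd M (r * s) n h1 (by exact_mod_cast hn.le))
      calc _ ≤ (1 : ℝ) * 1 := mul_le_mul (hγ1 r s) h2 (norm_nonneg _) zero_le_one
        _ = 1 := one_mul 1
  · simp

/-- the gcd -/
theorem gcd_le (B : ℤ) (r w : ℕ) (hr : 0 < r) (hw : 0 < w) :
    Int.gcd B ((r * w : ℕ) : ℤ) ≤ Int.gcd B r * w := by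
  have h1 : ∀ n : ℕ, Int.gcd B (n : ℤ) = Nat.gcd B.natAbs n := fun n => rfl
  rw [h1, h1]
  have h2 : Nat.gcd B.natAbs (r * w) ≤ Nat.gcd B.natAbs r * Nat.gcd B.natAbs w :=
    Nat.le_of_dvd (Nat.mul_pos (Nat.gcd_pos_of_pos_right _ hr)
      (Nat.gcd_pos_of_pos_right _ hw)) (Nat.gcd_mul_right_dvd_mul_gcd _ _ _)
  exact h2.trans (Nat.mul_le_mul_left _ (Nat.le_of_dvd hw (Nat.gcd_dvd_right _ _)))

/-- Lipschitz bound for a product of three factors bounded by one -/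
theorem lip3 (a b c a' b' c' : ℂ) (x y z : ℝ) (_ha : ‖a‖ ≤ 1) (hb' : ‖b'‖ ≤ 1) (hb : ‖b‖ ≤ 1)
    (hc : ‖c‖ ≤ 1) (ha' : ‖a'‖ ≤ 1) (h1 : ‖a - a'‖ ≤ x) (h2 : ‖b - b'‖ ≤ y) (h3 : ‖c - c'‖ ≤ z) :
    ‖a * b * c - a' * b' * c'‖ ≤ x + y + z := by
  have e1 : a * b * c - a' * b' * c' = (a - a') * (b * c) + a' * ((b - b') * c) +
      a' * b' * (c - c') := by ring
  rw [e1]
  have hx : 0 ≤ x := (norm_nonneg _).trans h1
  have hy : 0 ≤ y := (norm_nonneg _).trans h2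
  have hz : 0 ≤ z := (norm_nonneg _).trans h3
  refine (norm_add_le _ _).trans (add_le_add ((norm_add_le _ _).trans (add_le_add ?_ ?_)) ?_)
  · rw [norm_mul, norm_mul]
    calc ‖a - a'‖ * (‖b‖ * ‖c‖) ≤ x * (1 * 1) := by gcongr
      _ = x := by ring
  · rw [norm_mul, norm_mul]
    calc ‖a'‖ * (‖b - b'‖ * ‖c‖) ≤ 1 * (y * 1) := by gcongr
      _ = y := by ring
  · rw [norm_mul, norm_mul]
    calc ‖a'‖ * ‖b'‖ * ‖c - c'‖ ≤ 1 * 1 * z := by gcongr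
      _ = z := by ring

theorem inner (ε C : ℝ) (hε : 0 < ε) (hC : 0 < C) (hW : W1c ε C) (M S J : ℕ) (hM : 1 ≤ M)
    (hS : 1 ≤ S) (V : ℝ) (hV : 1 ≤ V) (ψ : ℕ → ℝ → ℂ) (hψ : ∀ j, Wei M V (ψ j)) (k : ℤ)
    (hk : k ≠ 0) (hkJ : |(k : ℝ)| * J ≤ V * (M : ℝ) ^ 2) (γ : ℕ → ℕ → ℂ)
    (hγ1 : ∀ r s, ‖γ r s‖ ≤ 1)
    (hγ2 : ∀ r s, γ r s ≠ 0 → Squarefree (r * s) ∧ r * s ∈ Ioc M (2 * M + 1))
    (r s1 s2 j1 j2 : ℕ) (hs1 : s1 ∈ Ico S (2 * S)) (hs2 : s2 ∈ Ico S (2 * S))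
    (hj1 : j1 ∈ Icc 1 J) (hj2 : j2 ∈ Icc 1 J) (hne : j1 * s2 ≠ j2 * s1) :
    ‖∑ n ∈ Ioc M (2 * M + 1), aw γ ψ k r s1 j1 n * (starRingEnd ℂ) (aw γ ψ k r s2 j2 n)‖ ≤
      C * (6 * M * S : ℝ) ^ ε * (21 * V) * (6 * Real.sqrt (M * S)) *
        Real.sqrt (Int.gcd (B0 k s1 s2 j1 j2) r) := by
  have hM0 : (0 : ℝ) < M := by exact_mod_cast hM
  have hM1 : (1 : ℝ) ≤ M := by exact_mod_cast hM
  have hS0 : (0 : ℝ) < S := by exact_mod_cast hS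
  have hV0 : 0 < V := by linarith
  have hRnn : 0 ≤ C * (6 * M * S : ℝ) ^ ε * (21 * V) * (6 * Real.sqrt (M * S)) *
        Real.sqrt (Int.gcd (B0 k s1 s2 j1 j2) r) := by positivity
  by_cases hz1 : γ r s1 = 0
  · have h0 : ∀ n ∈ Ioc M (2 * M + 1), aw γ ψ k r s1 j1 n *
        (starRingEnd ℂ) (aw γ ψ k r s2 j2 n) = 0 := by
      intro n _
      have : aw γ ψ k r s1 j1 n = 0 := by unfold aw; simp [hz1]
      rw [this, zero_mul]
    rw [Finset.sum_eq_zero h0, norm_zero]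
    exact hRnn
  by_cases hz2 : γ r s2 = 0
  · have h0 : ∀ n ∈ Ioc M (2 * M + 1), aw γ ψ k r s1 j1 n *
        (starRingEnd ℂ) (aw γ ψ k r s2 j2 n) = 0 := by
      intro n _
      have : aw γ ψ k r s2 j2 n = 0 := by unfold aw; simp [hz2]
      rw [this, map_zero, mul_zero]
    rw [Finset.sum_eq_zero h0, norm_zero]
    exact hRnn
  obtain ⟨hsq1, hco1⟩ := hγ2 r s1 hz1
  obtain ⟨hsq2, hco2⟩ := hγ2 r s2 hz2
  rw [Finset.mem_Ioc] at hco1 hco2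
  rw [Finset.mem_Ico] at hs1 hs2
  rw [Finset.mem_Icc] at hj1 hj2
  have hs10 : 0 < s1 := by omega
  have hs20 : 0 < s2 := by omega
  have hr0 : 0 < r := Nat.pos_of_ne_zero (by rintro rfl; simp at hco1)
  have hB0 := B0_ne k s1 s2 j1 j2 hk hs10 hne
  have hg : 0 < Nat.gcd s1 s2 := Nat.gcd_pos_of_pos_left _ hs10
  obtain ⟨t1, ht1⟩ := Nat.gcd_dvd_left s1 s2
  obtain ⟨t2, ht2⟩ := Nat.gcd_dvd_right s1 s2
  have htco : Nat.Coprime t1 t2 := by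
    have := Nat.coprime_div_gcd_div_gcd hg
    rwa [Nat.div_eq_of_eq_mul_right hg ht1, Nat.div_eq_of_eq_mul_right hg ht2] at this
  have hB0e : B0 k s1 s2 j1 j2 = (j1 : ℤ) * k * t2 - (j2 : ℤ) * k * t1 := by
    unfold B0
    rw [Nat.div_eq_of_eq_mul_right hg ht1, Nat.div_eq_of_eq_mul_right hg ht2]
  set g := Nat.gcd s1 s2 with hgdef
  rw [hB0e] at hB0 ⊢
  have ht10 : 0 < t1 := Nat.pos_of_ne_zero (by rintro rfl; simp at ht1; omega)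
  have ht20 : 0 < t2 := Nat.pos_of_ne_zero (by rintro rfl; simp at ht2; omega)
  set B : ℤ := (j1 : ℤ) * k * t2 - (j2 : ℤ) * k * t1 with hB
  obtain ⟨w, hw⟩ : ∃ w : ℕ, w = g * (t1 * t2) := ⟨_, rfl⟩
  have hw0 : 0 < w := by rw [hw]; positivity
  obtain ⟨q, hq⟩ : ∃ q : ℕ, q = r * w := ⟨_, rfl⟩
  have hq0 : 0 < q := by rw [hq]; positivity
  have hr1 : (r * s1) * t2 = q := by rw [hq, hw, ht1]; ring
  have hr2 : (r * s2) * t1 = q := by rw [hq, hw, ht2]; ring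
  -- squarefree
  have hqsq : Squarefree q := by
    have h1 : Squarefree ((r * g) * t1) := by
      have : (r * g) * t1 = r * s1 := by rw [ht1]; ring
      rwa [this]
    have h2 : Squarefree ((r * g) * t2) := by
      have : (r * g) * t2 = r * s2 := by rw [ht2]; ring
      rwa [this]
    rw [Nat.squarefree_mul_iff] at h1 h2
    have h3 : Squarefree ((r * g) * t1 * t2) := by
      rw [Nat.squarefree_mul_iff]
      refine ⟨Nat.Coprime.mul_left h2.1 htco, ?_, h2.2.2⟩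
      rw [Nat.squarefree_mul_iff]
      exact h1
    have h4 : q = (r * g) * t1 * t2 := by rw [hq, hw]; ring
    rwa [h4]
  have hiff : ∀ n : ℕ, (Nat.Coprime (r * s1) n ∧ Nat.Coprime (r * s2) n) ↔ Nat.Coprime n q := by
    intro n
    constructor
    · rintro ⟨h1, h2⟩
      rw [← hr1]
      refine Nat.Coprime.mul_right h1.symm ?_
      exact h2.symm.coprime_dvd_right ⟨r * g, by rw [ht2]; ring⟩
    · intro h1
      exact ⟨(h1.coprime_dvd_right (Dvd.intro _ hr1)).symm,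
        (h1.coprime_dvd_right (Dvd.intro _ hr2)).symm⟩
  -- rewriting the sum
  set Ω : ℝ → ℂ := fun x => ψ j1 (((r * s1 : ℕ) : ℝ) * x) *
    (starRingEnd ℂ) (ψ j2 (((r * s2 : ℕ) : ℝ) * x)) * e ((B : ℝ) / (x * q)) with hΩ
  have hsum : ∑ n ∈ Ioc M (2 * M + 1), aw γ ψ k r s1 j1 n *
        (starRingEnd ℂ) (aw γ ψ k r s2 j2 n) =
      (γ r s1 * (starRingEnd ℂ) (γ r s2)) *
        ∑ n ∈ (Icc (M + 1) (2 * M + 1)).filter (fun n => Nat.Coprime n q),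
          Ω n * kf (-B) (n : ℤ) q := by
    have hI : Ioc M (2 * M + 1) = Icc (M + 1) (2 * M + 1) := by
      ext x; rw [Finset.mem_Ioc, Finset.mem_Icc]; omega
    rw [hI, Finset.sum_filter, Finset.mul_sum]
    refine Finset.sum_congr rfl fun n hn => ?_
    have hn0 : 0 < n := by rw [Finset.mem_Icc] at hn; omega
    unfold aw
    by_cases hcc : Nat.Coprime n q
    · obtain ⟨h1, h2⟩ := (hiff n).2 hcc
      have hkp := kf_prod n q (r * s1) (r * s2) t1 t2 hn0 hr1 hr2 hcc.symm ((j1 : ℤ) * k)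
        ((j2 : ℤ) * k)
      have hrec := kf_recip B q n hq0 hn0 hcc.symm
      rw [conj_kf] at hrec
      rw [← hB, hrec] at hkp
      rw [if_pos h1, if_pos h2, if_pos hcc, hΩ]
      simp only [map_mul]
      calc _ = (γ r s1 * (starRingEnd ℂ) (γ r s2)) * (ψ j1 (((r * s1 : ℕ) : ℝ) * n) *
            (starRingEnd ℂ) (ψ j2 (((r * s2 : ℕ) : ℝ) * n))) *
            (kf ((j1 : ℤ) * k) ((r * s1 : ℕ) : ℤ) n *
              (starRingEnd ℂ) (kf ((j2 : ℤ) * k) ((r * s2 : ℕ) : ℤ) n)) := by ring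
        _ = _ := by rw [hkp]; ring
    · rw [if_neg hcc, mul_zero]
      by_cases h1 : Nat.Coprime (r * s1) n
      · have h2 : ¬ Nat.Coprime (r * s2) n := fun h2 => hcc ((hiff n).1 ⟨h1, h2⟩)
        rw [if_neg h2, map_zero, mul_zero]
      · rw [if_neg h1, zero_mul]
  -- the weight
  have hxlow : ∀ x ∈ Set.Icc ((M + 1 : ℕ) : ℝ) ((2 * M + 1 : ℕ) : ℝ), (M : ℝ) ≤ x := by
    intro x hx
    have := hx.1
    push_cast at this
    linarith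
  have hqR0 : (0 : ℝ) < q := by exact_mod_cast hq0
  have hBq : |(B : ℝ)| ≤ 2 * V * M * q := by
    have ht1R : (0 : ℝ) < t1 := by exact_mod_cast ht10
    have ht2R : (0 : ℝ) < t2 := by exact_mod_cast ht20
    have hj1R : (j1 : ℝ) ≤ J := by exact_mod_cast hj1.2
    have hj2R : (j2 : ℝ) ≤ J := by exact_mod_cast hj2.2
    have h1 : (B : ℝ) = k * ((j1 : ℝ) * t2 - j2 * t1) := by rw [hB]; push_cast; ring
    have h2 : |(j1 : ℝ) * t2 - j2 * t1| ≤ J * (t1 + t2) := by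
      rw [abs_le]
      have a1 : (0 : ℝ) ≤ (j1 : ℝ) * t2 := by positivity
      have a2 : (0 : ℝ) ≤ (j2 : ℝ) * t1 := by positivity
      have a3 : (j1 : ℝ) * t2 ≤ J * t2 := by gcongr
      have a4 : (j2 : ℝ) * t1 ≤ J * t1 := by gcongr
      have a5 : (0 : ℝ) ≤ (J : ℝ) * t1 := by positivity
      have a6 : (0 : ℝ) ≤ (J : ℝ) * t2 := by positivity
      have a7 : (J : ℝ) * (t1 + t2) = J * t1 + J * t2 := by ring
      constructor <;> linarith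
    have h3 : (M : ℝ) * t2 ≤ q := by
      have a1 : M * t2 ≤ q := by
        rw [← hr1]; exact Nat.mul_le_mul_right _ hco1.1.le
      exact_mod_cast a1
    have h4 : (M : ℝ) * t1 ≤ q := by
      have a1 : M * t1 ≤ q := by
        rw [← hr2]; exact Nat.mul_le_mul_right _ hco2.1.le
      exact_mod_cast a1
    rw [h1, abs_mul]
    calc |(k : ℝ)| * |(j1 : ℝ) * t2 - j2 * t1| ≤ |(k : ℝ)| * (J * (t1 + t2)) := by gcongr
      _ = (|(k : ℝ)| * J) * (t1 + t2) := by ring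
      _ ≤ (V * (M : ℝ) ^ 2) * (t1 + t2) := by gcongr
      _ = V * M * (M * t1 + M * t2) := by ring
      _ ≤ V * M * (q + q) := by gcongr
      _ = _ := by ring
  have hΩ1 : ∀ x ∈ Set.Icc ((M + 1 : ℕ) : ℝ) ((2 * M + 1 : ℕ) : ℝ), ‖Ω x‖ ≤ 1 := by
    intro x hx
    rw [hΩ]
    simp only [norm_mul, RCLike.norm_conj, norm_e, mul_one]
    calc _ ≤ (1 : ℝ) * 1 := mul_le_mul ((hψ j1).bd _ (low_bd M _ x hco1.1 (hxlow x hx)))
          ((hψ j2).bd _ (low_bd M _ x hco2.1 (hxlow x hx))) (norm_nonneg _) zero_le_one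
      _ = 1 := one_mul 1
  have hψlip : ∀ x ∈ Set.Icc ((M + 1 : ℕ) : ℝ) ((2 * M + 1 : ℕ) : ℝ),
      ∀ x' ∈ Set.Icc ((M + 1 : ℕ) : ℝ) ((2 * M + 1 : ℕ) : ℝ), ∀ (j m : ℕ), M < m →
      m ≤ 2 * M + 1 → ‖ψ j ((m : ℝ) * x) - ψ j ((m : ℝ) * x')‖ ≤ 3 * V / M * |x - x'| := by
    intro x hx x' hx' j m hm hm'
    refine ((hψ j).lip _ _ (low_bd M m x hm (hxlow x hx))
      (low_bd M m x' hm (hxlow x' hx'))).trans ?_
    have h1 : (m : ℝ) * x - m * x' = m * (x - x') := by ring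
    rw [h1, abs_mul, abs_of_nonneg (Nat.cast_nonneg m), div_le_iff₀ (by positivity)]
    have h2 : (m : ℝ) ≤ 3 * M := by
      have : (m : ℝ) ≤ 2 * M + 1 := by exact_mod_cast hm'
      linarith
    calc V * ((m : ℝ) * |x - x'|) ≤ V * ((3 * M) * |x - x'|) := by gcongr
      _ = 3 * V / M * |x - x'| * M ^ 2 := by field_simp
  have helip : ∀ x ∈ Set.Icc ((M + 1 : ℕ) : ℝ) ((2 * M + 1 : ℕ) : ℝ),
      ∀ x' ∈ Set.Icc ((M + 1 : ℕ) : ℝ) ((2 * M + 1 : ℕ) : ℝ),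
      ‖e ((B : ℝ) / (x * q)) - e ((B : ℝ) / (x' * q))‖ ≤ 14 * V / M * |x - x'| := by
    intro x hx x' hx'
    have hxl := hxlow x hx
    have hxl' := hxlow x' hx'
    have hx0 : 0 < x := by linarith
    have hx0' : 0 < x' := by linarith
    refine (norm_e_sub_le _ _).trans ?_
    have h1 : (B : ℝ) / (x * q) - (B : ℝ) / (x' * q) = (B : ℝ) * (x' - x) / (x * x' * q) := by
      field_simp
    rw [h1, abs_div, abs_mul, abs_of_pos (by positivity : (0 : ℝ) < x * x' * q), abs_sub_comm x' x]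
    have h2 : |(B : ℝ)| * |x - x'| / (x * x' * q) ≤ 2 * V / M * |x - x'| := by
      rw [div_le_iff₀ (by positivity)]
      have h3 : (M : ℝ) * M ≤ x * x' := by gcongr
      calc |(B : ℝ)| * |x - x'| ≤ (2 * V * M * q) * |x - x'| := by gcongr
        _ = 2 * V / M * |x - x'| * ((M * M) * q) := by field_simp
        _ ≤ 2 * V / M * |x - x'| * (x * x' * q) := by gcongr
    calc 2 * Real.pi * (|(B : ℝ)| * |x - x'| / (x * x' * q))
        ≤ 2 * 3.5 * (2 * V / M * |x - x'|) := by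
          gcongr
          have := Real.pi_lt_d2
          linarith
      _ = 14 * V / M * |x - x'| := by ring
  have hΩ2 : ∀ x ∈ Set.Icc ((M + 1 : ℕ) : ℝ) ((2 * M + 1 : ℕ) : ℝ),
      ∀ x' ∈ Set.Icc ((M + 1 : ℕ) : ℝ) ((2 * M + 1 : ℕ) : ℝ),
      ‖Ω x - Ω x'‖ ≤ 20 * V / M * |x - x'| := by
    intro x hx x' hx'
    rw [hΩ]
    have b1 := (hψ j1).bd _ (low_bd M _ x hco1.1 (hxlow x hx))
    have b1' := (hψ j1).bd _ (low_bd M _ x' hco1.1 (hxlow x' hx'))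
    have b2 := (hψ j2).bd _ (low_bd M _ x hco2.1 (hxlow x hx))
    have b2' := (hψ j2).bd _ (low_bd M _ x' hco2.1 (hxlow x' hx'))
    have l1 := hψlip x hx x' hx' j1 (r * s1) hco1.1 hco1.2
    have l2 := hψlip x hx x' hx' j2 (r * s2) hco2.1 hco2.2
    have l3 := helip x hx x' hx'
    refine (lip3 _ _ _ _ _ _ (3 * V / M * |x - x'|) (3 * V / M * |x - x'|)
      (14 * V / M * |x - x'|) b1 ?_ ?_ ?_ b1' l1 ?_ l3).trans (le_of_eq (by ring))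
    · rw [RCLike.norm_conj]; exact b2'
    · rw [RCLike.norm_conj]; exact b2
    · rw [norm_e]
    · rw [← map_sub, RCLike.norm_conj]; exact l2
  have hmain := hW q (M + 1) (2 * M + 1) (-B) Ω (20 * V / M) hqsq (neg_ne_zero.2 hB0) (by omega)
    (by positivity) hΩ1 hΩ2
  have hgneg : Int.gcd (-B) (q : ℤ) = Int.gcd B q := Int.neg_gcd
  rw [hgneg] at hmain
  have hA : ((2 * M + 1 : ℕ) : ℝ) - ((M + 1 : ℕ) : ℝ) = M := by push_cast; ring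
  rw [hA] at hmain
  rw [hsum, norm_mul, norm_mul, RCLike.norm_conj]
  have hcc : ‖γ r s1‖ * ‖γ r s2‖ ≤ 1 := by
    calc _ ≤ (1 : ℝ) * 1 := mul_le_mul (hγ1 _ _) (hγ1 _ _) (norm_nonneg _) zero_le_one
      _ = 1 := one_mul 1
  refine (mul_le_mul hcc hmain (norm_nonneg _) zero_le_one).trans ?_
  rw [one_mul]
  -- numerical bounds
  have hrR : (0 : ℝ) < r := by exact_mod_cast hr0
  have hwR : (0 : ℝ) < w := by exact_mod_cast hw0
  have hqle : (q : ℝ) ≤ 6 * M * S := by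
    have h1 : t2 ≤ s2 := Nat.le_of_dvd hs20 ⟨g, by rw [ht2]; ring⟩
    have h2 : q ≤ (2 * M + 1) * (2 * S) := by
      rw [← hr1]; exact Nat.mul_le_mul hco1.2 (h1.trans hs2.2.le)
    have h3 : (q : ℝ) ≤ (2 * M + 1) * (2 * S) := by exact_mod_cast h2
    calc (q : ℝ) ≤ (2 * M + 1) * (2 * S) := h3
      _ ≤ (2 * M + M) * (2 * S) := by gcongr
      _ = 6 * M * S := by ring
  have hMS : (0 : ℝ) < (M : ℝ) * S := by positivity
  have hsqMS : 0 < Real.sqrt ((M : ℝ) * S) := Real.sqrt_pos.2 hMS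
  have hsqq : Real.sqrt q ≤ 3 * Real.sqrt ((M : ℝ) * S) := by
    rw [← Real.sqrt_sq (by positivity : (0 : ℝ) ≤ 3 * Real.sqrt ((M : ℝ) * S))]
    apply Real.sqrt_le_sqrt
    rw [mul_pow, Real.sq_sqrt hMS.le]
    calc (q : ℝ) ≤ 6 * (M * S) := by rw [← mul_assoc]; exact hqle
      _ ≤ 3 ^ 2 * (M * S) := by
        refine mul_le_mul_of_nonneg_right ?_ hMS.le
        norm_num
  set gr : ℕ := Int.gcd B r with hgr
  have hgq : (Int.gcd B q : ℝ) ≤ gr * w := by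
    have := gcd_le B r w hr0 hw0
    rw [← hq] at this
    exact_mod_cast this
  have hgr1 : (1 : ℝ) ≤ gr := by
    have : 0 < gr := by
      rw [hgr]; exact Int.gcd_pos_of_ne_zero_left _ hB0
    exact_mod_cast this
  have hrge : (M : ℝ) ≤ r * (2 * S) := by
    have h1 : M ≤ r * (2 * S) := hco1.1.le.trans (Nat.mul_le_mul_left _ hs1.2.le)
    exact_mod_cast h1
  have hsqg : ((M : ℝ) + 1) * Real.sqrt ((Int.gcd B q : ℝ) / q) ≤
      3 * Real.sqrt ((M : ℝ) * S) * Real.sqrt gr := by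
    have h1 : ((M : ℝ) + 1) = Real.sqrt (((M : ℝ) + 1) ^ 2) := by
      rw [Real.sqrt_sq (by positivity)]
    have h2 : (3 : ℝ) = Real.sqrt 9 := by
      rw [show (9 : ℝ) = 3 ^ 2 by norm_num, Real.sqrt_sq (by norm_num)]
    rw [h1, h2, ← Real.sqrt_mul (by positivity), ← Real.sqrt_mul (by positivity),
      ← Real.sqrt_mul (by positivity)]
    apply Real.sqrt_le_sqrt
    have hqe : (q : ℝ) = r * w := by rw [hq]; push_cast; ring
    have h3 : (Int.gcd B q : ℝ) / q ≤ gr / r := by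
      rw [div_le_div_iff₀ hqR0 hrR, hqe]
      calc (Int.gcd B q : ℝ) * r ≤ (gr * w) * r := by gcongr
        _ = gr * (r * w) := by ring
    have h4 : (gr : ℝ) / r ≤ gr * (2 * S / M) := by
      rw [div_le_iff₀ hrR]
      have : (1 : ℝ) ≤ 2 * S / M * r := by
        rw [div_mul_eq_mul_div, le_div_iff₀ hM0]
        linarith
      calc (gr : ℝ) = gr * 1 := by ring
        _ ≤ gr * (2 * S / M * r) := by gcongr
        _ = _ := by ring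
    have h5 : ((M : ℝ) + 1) ^ 2 ≤ 4 * M ^ 2 := by
      calc ((M : ℝ) + 1) ^ 2 ≤ ((M : ℝ) + M) ^ 2 := by gcongr
        _ = 4 * (M : ℝ) ^ 2 := by ring
    have h6 : (Int.gcd B q : ℝ) / q ≤ (gr : ℝ) * (2 * S / M) := h3.trans h4
    calc ((M : ℝ) + 1) ^ 2 * ((Int.gcd B q : ℝ) / q)
        ≤ (4 * (M : ℝ) ^ 2) * ((gr : ℝ) * (2 * S / M)) := by gcongr
      _ = 8 * ((M : ℝ) * S) * (gr : ℝ) := by field_simp; ring
      _ ≤ 9 * ((M : ℝ) * S) * (gr : ℝ) := by gcongr; norm_num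
  have hqε : (q : ℝ) ^ ε ≤ (6 * M * S : ℝ) ^ ε := Real.rpow_le_rpow hqR0.le hqle hε.le
  have hfac : 1 + 20 * V / M * (M : ℝ) ≤ 21 * V := by
    have h2 : 20 * V / M * (M : ℝ) = 20 * V := by field_simp
    linarith
  have hsgr : 1 ≤ Real.sqrt gr := by
    rw [← Real.sqrt_one]; exact Real.sqrt_le_sqrt hgr1
  have hlast : Real.sqrt q + ((M : ℝ) + 1) * Real.sqrt ((Int.gcd B q : ℝ) / q) ≤
      (6 * Real.sqrt (M * S)) * Real.sqrt gr := by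
    have h1 : 3 * Real.sqrt ((M : ℝ) * S) ≤ 3 * Real.sqrt ((M : ℝ) * S) * Real.sqrt gr :=
      le_mul_of_one_le_right (by positivity) hsgr
    calc _ ≤ 3 * Real.sqrt ((M : ℝ) * S) + 3 * Real.sqrt ((M : ℝ) * S) * Real.sqrt gr :=
          add_le_add hsqq hsqg
      _ ≤ 3 * Real.sqrt ((M : ℝ) * S) * Real.sqrt gr +
          3 * Real.sqrt ((M : ℝ) * S) * Real.sqrt gr := by gcongr
      _ = _ := by ring
  calc C * (q : ℝ) ^ ε * (1 + 20 * V / M * (M : ℝ)) *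
        (Real.sqrt q + ((M : ℝ) + 1) * Real.sqrt ((Int.gcd B q : ℝ) / q))
      ≤ C * (6 * M * S : ℝ) ^ ε * (21 * V) * ((6 * Real.sqrt (M * S)) * Real.sqrt gr) := by
        gcongr
    _ = _ := by ring

/-! ### Summing up -/

theorem cauchy_n (T S : Finset ℕ) (c : ℕ → ℂ) (hc : ∀ n, ‖c n‖ ≤ 1) (F : ℕ → ℕ → ℂ) :
    ‖∑ n ∈ T, ∑ r ∈ S, c n * F n r‖ ^ 2 ≤
      (T.card : ℝ) * S.card * ∑ r ∈ S, ∑ n ∈ T, ‖F n r‖ ^ 2 := by
  have h1 : ‖∑ n ∈ T, ∑ r ∈ S, c n * F n r‖ ≤ ∑ x ∈ T ×ˢ S, ‖F x.1 x.2‖ := by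
    rw [Finset.sum_product]
    refine (norm_sum_le _ _).trans (Finset.sum_le_sum fun n _ => (norm_sum_le _ _).trans
      (Finset.sum_le_sum fun r _ => ?_))
    rw [norm_mul]
    calc _ ≤ 1 * ‖F n r‖ := mul_le_mul_of_nonneg_right (hc n) (norm_nonneg _)
      _ = _ := one_mul _
  have h2 : (∑ x ∈ T ×ˢ S, ‖F x.1 x.2‖) ^ 2 ≤ ((T ×ˢ S).card : ℝ) *
      ∑ x ∈ T ×ˢ S, ‖F x.1 x.2‖ ^ 2 := sq_sum_le_card_mul_sum_sq
  calc _ ≤ (∑ x ∈ T ×ˢ S, ‖F x.1 x.2‖) ^ 2 := pow_le_pow_left₀ (norm_nonneg _) h1 2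
    _ ≤ _ := h2
    _ = _ := by
      rw [Finset.card_product, Finset.sum_product, Finset.sum_comm]
      push_cast
      rfl

theorem total (ε C C2 C4 : ℝ) (hε : 0 < ε) (hC : 0 < C) (hC2 : 0 < C2) (hW : W1c ε C)
    (hτ : ∀ n : ℕ, 1 ≤ n → (n.divisors.card : ℝ) ≤ C2 * (n : ℝ) ^ ε)
    (hdiag : ∀ L J : ℕ, 1 ≤ L → 1 ≤ J →
      ((((Icc 1 L ×ˢ Icc 1 L) ×ˢ (Icc 1 J ×ˢ Icc 1 J)).filter
        (fun x : (ℕ × ℕ) × (ℕ × ℕ) => x.2.1 * x.1.2 = x.2.2 * x.1.1)).card : ℝ) ≤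
        C4 * ((L : ℝ) * J) ^ (1 + ε))
    (hgcd : ∀ (B : ℤ) (K : ℕ), B ≠ 0 →
      ∑ k ∈ Icc 1 K, Real.sqrt (Int.gcd B k) ≤ (K : ℝ) * (B.natAbs.divisors.card : ℝ))
    (M S J R : ℕ) (hM : 1 ≤ M) (hS : 1 ≤ S) (hJ : 1 ≤ J) (V : ℝ) (hV : 1 ≤ V)
    (ψ : ℕ → ℝ → ℂ) (hψ : ∀ j, Wei M V (ψ j)) (k : ℤ)
    (hk : k ≠ 0) (hkJ : |(k : ℝ)| * J ≤ V * (M : ℝ) ^ 2) (γ : ℕ → ℕ → ℂ)
    (hγ1 : ∀ r s, ‖γ r s‖ ≤ 1)
    (hγ2 : ∀ r s, γ r s ≠ 0 → Squarefree (r * s) ∧ r * s ∈ Ioc M (2 * M + 1)) :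
    ∑ r ∈ Icc 1 R, ∑ x ∈ Ico S (2 * S) ×ˢ Icc 1 J, ∑ y ∈ Ico S (2 * S) ×ˢ Icc 1 J,
      ‖∑ n ∈ Ioc M (2 * M + 1), aw γ ψ k r x.1 x.2 n *
        (starRingEnd ℂ) (aw γ ψ k r y.1 y.2 n)‖ ≤
      R * (((M : ℝ) + 1) * (C4 * (2 * S * J : ℝ) ^ (1 + ε))) +
      (C * (6 * M * S : ℝ) ^ ε * (21 * V) * (6 * Real.sqrt (M * S))) *
        (R * (C2 * (|(k : ℝ)| * (J * (2 * S))) ^ ε)) * (S ^ 2 * J ^ 2) := by
  classical
  have hM0 : (0 : ℝ) < M := by exact_mod_cast hM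
  have hS0 : (0 : ℝ) < S := by exact_mod_cast hS
  have hJ0 : (0 : ℝ) < J := by exact_mod_cast hJ
  have hV0 : 0 < V := by linarith
  set U : ℝ := C * (6 * M * S : ℝ) ^ ε * (21 * V) * (6 * Real.sqrt (M * S)) with hU
  have hU0 : 0 ≤ U := by positivity
  set D : ℝ := C2 * (|(k : ℝ)| * (J * (2 * S))) ^ ε with hD
  have hD0 : 0 ≤ D := by positivity
  set Q : Finset ((ℕ × ℕ) × (ℕ × ℕ)) :=
    (Ico S (2 * S) ×ˢ Ico S (2 * S)) ×ˢ (Icc 1 J ×ˢ Icc 1 J) with hQ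
  have hswap : ∑ r ∈ Icc 1 R, ∑ x ∈ Ico S (2 * S) ×ˢ Icc 1 J,
      ∑ y ∈ Ico S (2 * S) ×ˢ Icc 1 J,
      ‖∑ n ∈ Ioc M (2 * M + 1), aw γ ψ k r x.1 x.2 n *
        (starRingEnd ℂ) (aw γ ψ k r y.1 y.2 n)‖ =
      ∑ w ∈ Q, ∑ r ∈ Icc 1 R,
      ‖∑ n ∈ Ioc M (2 * M + 1), aw γ ψ k r w.1.1 w.2.1 n *
        (starRingEnd ℂ) (aw γ ψ k r w.1.2 w.2.2 n)‖ := by
    rw [Finset.sum_comm (s := Q)]
    refine Finset.sum_congr rfl fun r _ => ?_
    rw [sum_quad (Ico S (2 * S)) (Icc 1 J) (fun x y => ‖∑ n ∈ Ioc M (2 * M + 1),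
      aw γ ψ k r x.1 x.2 n * (starRingEnd ℂ) (aw γ ψ k r y.1 y.2 n)‖)]
  have hk1 : ∀ w ∈ Q, ∑ r ∈ Icc 1 R,
      ‖∑ n ∈ Ioc M (2 * M + 1), aw γ ψ k r w.1.1 w.2.1 n *
        (starRingEnd ℂ) (aw γ ψ k r w.1.2 w.2.2 n)‖ ≤
      (R : ℝ) * (if w.2.1 * w.1.2 = w.2.2 * w.1.1 then ((M : ℝ) + 1) else 0) + U * (R * D) := by
    rintro ⟨⟨s1, s2⟩, ⟨j1, j2⟩⟩ hw
    simp only [hQ, Finset.mem_product] at hw
    obtain ⟨⟨hs1, hs2⟩, hj1, hj2⟩ := hw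
    simp only
    by_cases heq : j1 * s2 = j2 * s1
    · rw [if_pos heq]
      have h1 : ∀ r ∈ Icc 1 R, ‖∑ n ∈ Ioc M (2 * M + 1), aw γ ψ k r s1 j1 n *
          (starRingEnd ℂ) (aw γ ψ k r s2 j2 n)‖ ≤ (M : ℝ) + 1 := by
        intro r _
        have h2 : ∀ n ∈ Ioc M (2 * M + 1), ‖aw γ ψ k r s1 j1 n *
            (starRingEnd ℂ) (aw γ ψ k r s2 j2 n)‖ ≤ 1 := by
          intro n hn
          rw [Finset.mem_Ioc] at hn
          rw [norm_mul, RCLike.norm_conj]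
          calc _ ≤ (1 : ℝ) * 1 := mul_le_mul
                (norm_aw_le M V γ ψ hψ hγ1 hγ2 k r s1 j1 n hn.1)
                (norm_aw_le M V γ ψ hψ hγ1 hγ2 k r s2 j2 n hn.1) (norm_nonneg _) zero_le_one
            _ = 1 := one_mul 1
        refine (norm_sum_le _ _).trans ((Finset.sum_le_sum h2).trans (le_of_eq ?_))
        rw [Finset.sum_const, Nat.card_Ioc, nsmul_eq_mul, mul_one]
        have : 2 * M + 1 - M = M + 1 := by omega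
        rw [this]
        push_cast
        ring
      refine (Finset.sum_le_sum h1).trans ?_
      rw [Finset.sum_const, Nat.card_Icc, nsmul_eq_mul]
      have h3 : 0 ≤ U * (R * D) := by positivity
      have h4 : R + 1 - 1 = R := by omega
      rw [h4]
      linarith
    · rw [if_neg heq, mul_zero, zero_add]
      have hB0 := B0_ne k s1 s2 j1 j2 hk (by rw [Finset.mem_Ico] at hs1; omega) heq
      have h1 : ∀ r ∈ Icc 1 R, ‖∑ n ∈ Ioc M (2 * M + 1), aw γ ψ k r s1 j1 n *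
          (starRingEnd ℂ) (aw γ ψ k r s2 j2 n)‖ ≤
          U * Real.sqrt (Int.gcd (B0 k s1 s2 j1 j2) r) := fun r _ =>
        inner ε C hε hC hW M S J hM hS V hV ψ hψ k hk hkJ γ hγ1 hγ2 r s1 s2 j1 j2 hs1 hs2 hj1 hj2
          heq
      refine (Finset.sum_le_sum h1).trans ?_
      rw [← Finset.mul_sum]
      refine mul_le_mul_of_nonneg_left ?_ hU0
      refine (hgcd _ R hB0).trans ?_
      refine mul_le_mul_of_nonneg_left ?_ (Nat.cast_nonneg _)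
      refine (hτ _ (Int.natAbs_pos.2 hB0)).trans ?_
      rw [hD]
      refine mul_le_mul_of_nonneg_left ?_ hC2.le
      refine Real.rpow_le_rpow (Nat.cast_nonneg _) ?_ hε.le
      rw [Finset.mem_Ico] at hs1 hs2
      rw [Finset.mem_Icc] at hj1 hj2
      have h2 := B0_abs_le k s1 s2 j1 j2 S J hs1.2.le hs2.2.le hj1.2 hj2.2
      have h3 : ((B0 k s1 s2 j1 j2).natAbs : ℝ) ≤ ((k.natAbs * (J * (2 * S)) : ℕ) : ℝ) := by
        exact_mod_cast h2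
      refine h3.trans (le_of_eq ?_)
      push_cast
      rw [Nat.cast_natAbs, Int.cast_abs]
  rw [hswap]
  refine (Finset.sum_le_sum hk1).trans ?_
  rw [Finset.sum_add_distrib]
  have hcardQ : (Q.card : ℝ) = S ^ 2 * J ^ 2 := by
    have h1 : (Ico S (2 * S)).card = S := by rw [Nat.card_Ico]; omega
    rw [hQ, Finset.card_product, Finset.card_product, Finset.card_product, h1, Nat.card_Icc]
    push_cast
    ring
  have hterm1 : ∑ w ∈ Q, (R : ℝ) * (if w.2.1 * w.1.2 = w.2.2 * w.1.1 then ((M : ℝ) + 1) else 0) ≤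
      R * (((M : ℝ) + 1) * (C4 * (2 * S * J : ℝ) ^ (1 + ε))) := by
    rw [← Finset.mul_sum, ← Finset.sum_filter, Finset.sum_const, nsmul_eq_mul]
    have h1 : ((Q.filter (fun w => w.2.1 * w.1.2 = w.2.2 * w.1.1)).card : ℝ) ≤
        C4 * (2 * S * J : ℝ) ^ (1 + ε) := by
      have h2 := hdiag (2 * S) J (by omega) hJ
      push_cast at h2
      refine le_trans ?_ h2
      have h3 : Q.filter (fun w => w.2.1 * w.1.2 = w.2.2 * w.1.1) ⊆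
          ((Icc 1 (2 * S) ×ˢ Icc 1 (2 * S)) ×ˢ (Icc 1 J ×ˢ Icc 1 J)).filter
          (fun x : (ℕ × ℕ) × (ℕ × ℕ) => x.2.1 * x.1.2 = x.2.2 * x.1.1) := by
        intro w hw
        simp only [hQ, Finset.mem_filter, Finset.mem_product, Finset.mem_Ico,
          Finset.mem_Icc] at hw ⊢
        obtain ⟨⟨⟨hl1, hl2⟩, hj⟩, he⟩ := hw
        exact ⟨⟨⟨⟨by omega, by omega⟩, ⟨by omega, by omega⟩⟩, hj⟩, he⟩
      exact_mod_cast Finset.card_le_card h3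
    calc (R : ℝ) * (((Q.filter (fun w => w.2.1 * w.1.2 = w.2.2 * w.1.1)).card : ℝ) *
          ((M : ℝ) + 1))
        ≤ R * ((C4 * (2 * S * J : ℝ) ^ (1 + ε)) * ((M : ℝ) + 1)) := by gcongr
      _ = _ := by ring
  have hterm2 : ∑ _w ∈ Q, U * (R * D) = U * (R * D) * (S ^ 2 * J ^ 2) := by
    rw [Finset.sum_const, nsmul_eq_mul, hcardQ]; ring
  rw [hterm2]
  linarith

end TaskWF

open TaskWF in
/-- task WF -/
theorem WF : St_WF := by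
  classical
  intro ε hε
  obtain ⟨ε1, hε1⟩ : ∃ ε1 : ℝ, ε1 = ε / 5 := ⟨_, rfl⟩
  have hε1p : 0 < ε1 := by rw [hε1]; positivity
  have hε5 : ε = 5 * ε1 := by rw [hε1]; ring
  obtain ⟨C1, hC1, hW⟩ := Pool.Agent.H262R4.FR.t_W1 ε1 hε1p
  obtain ⟨C2, hC2, hτ⟩ := Pool.Agent.H510R2.divisor_bound ε1 hε1p
  obtain ⟨hd, hgcd, -⟩ := Pool.Agent.H262R4.FR.t_W3
  obtain ⟨C4, hC4, hdiag⟩ := hd ε1 hε1p
  refine ⟨72 * (C4 * (6 : ℝ) ^ ε1) + 2268 * (C1 * (18 : ℝ) ^ ε1) * (C2 * (6 : ℝ) ^ ε1),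
    by positivity, ?_⟩
  intro M S J hM hS hJ V hV ψ hψ k hk hkJ γ β hγ1 hβ hγ2
  have hM1 : (1 : ℝ) ≤ M := by exact_mod_cast hM
  have hS1 : (1 : ℝ) ≤ S := by exact_mod_cast hS
  have hJ1 : (1 : ℝ) ≤ J := by exact_mod_cast hJ
  have hM0 : (0 : ℝ) < M := by linarith
  have hS0 : (0 : ℝ) < S := by linarith
  have hJ0 : (0 : ℝ) < J := by linarith
  have hV0 : (0 : ℝ) < V := by linarith
  have hk1 : (1 : ℝ) ≤ |(k : ℝ)| := by
    have : (1 : ℤ) ≤ |k| := Int.one_le_abs hk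
    exact_mod_cast this
  obtain ⟨R, hR⟩ : ∃ R : ℕ, R = (2 * M + 1) / S := ⟨_, rfl⟩
  -- rewriting
  have hre : ∑ s ∈ Ico S (2 * S), ∑ r ∈ Icc 1 (2 * M + 1),
      ∑ n ∈ (Ioc M (2 * M + 1)).filter (fun n => Nat.Coprime (r * s) n),
        γ r s * β n * FF ψ k J n (r * s) =
      ∑ n ∈ Ioc M (2 * M + 1), ∑ r ∈ Icc 1 R, β n *
        ∑ x ∈ Ico S (2 * S) ×ˢ Icc 1 J, aw γ ψ k r x.1 x.2 n := by
    have h1 : ∀ s ∈ Ico S (2 * S), ∑ r ∈ Icc 1 (2 * M + 1),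
        ∑ n ∈ (Ioc M (2 * M + 1)).filter (fun n => Nat.Coprime (r * s) n),
          γ r s * β n * FF ψ k J n (r * s) =
        ∑ r ∈ Icc 1 R, ∑ n ∈ Ioc M (2 * M + 1), β n * ∑ j ∈ Icc 1 J, aw γ ψ k r s j n := by
      intro s hs
      rw [Finset.mem_Ico] at hs
      have hsub : Icc 1 R ⊆ Icc 1 (2 * M + 1) := by
        intro r hr
        rw [Finset.mem_Icc] at hr ⊢
        exact ⟨hr.1, hr.2.trans (by rw [hR]; exact Nat.div_le_self _ _)⟩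
      rw [← Finset.sum_subset hsub]
      · refine Finset.sum_congr rfl fun r _ => ?_
        rw [Finset.sum_filter]
        refine Finset.sum_congr rfl fun n _ => ?_
        unfold aw FF
        by_cases h : Nat.Coprime (r * s) n
        · simp only [if_pos h]
          rw [Finset.mul_sum, Finset.mul_sum]
          refine Finset.sum_congr rfl fun j _ => ?_
          ring
        · simp [if_neg h]
      · intro r hr hr'
        rw [Finset.mem_Icc] at hr hr'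
        have h2 : γ r s = 0 := by
          by_contra h3
          have h4 := (Finset.mem_Ioc.1 (hγ2 r s h3).2).2
          have h5 : r ≤ R := by
            rw [hR, Nat.le_div_iff_mul_le (by omega)]
            exact (Nat.mul_le_mul_left r hs.1).trans h4
          exact hr' ⟨hr.1, h5⟩
        refine Finset.sum_eq_zero fun n _ => ?_
        rw [h2, zero_mul, zero_mul]
    rw [Finset.sum_congr rfl h1, Finset.sum_comm]
    have h2 : ∀ r ∈ Icc 1 R, ∑ s ∈ Ico S (2 * S), ∑ n ∈ Ioc M (2 * M + 1),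
        β n * ∑ j ∈ Icc 1 J, aw γ ψ k r s j n = ∑ n ∈ Ioc M (2 * M + 1), β n *
        ∑ x ∈ Ico S (2 * S) ×ˢ Icc 1 J, aw γ ψ k r x.1 x.2 n := by
      intro r _
      rw [Finset.sum_comm]
      refine Finset.sum_congr rfl fun n _ => ?_
      rw [Finset.sum_product, Finset.mul_sum]
    rw [Finset.sum_congr rfl h2, Finset.sum_comm]
  rw [hre]
  by_cases hSM : 2 * M + 1 < S
  · have hR0 : R = 0 := by rw [hR]; exact Nat.div_eq_of_lt hSM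
    rw [hR0]
    have : Icc 1 0 = (∅ : Finset ℕ) := by simp
    rw [this]
    simp only [Finset.sum_empty, Finset.sum_const_zero, norm_zero]
    rw [zero_pow (by norm_num)]
    positivity
  rw [not_lt] at hSM
  refine (cauchy_n (Ioc M (2 * M + 1)) (Icc 1 R) β hβ
    (fun n r => ∑ x ∈ Ico S (2 * S) ×ˢ Icc 1 J, aw γ ψ k r x.1 x.2 n)).trans ?_
  have hcN : ((Ioc M (2 * M + 1)).card : ℝ) = (M : ℝ) + 1 := by
    rw [Nat.card_Ioc]
    have : 2 * M + 1 - M = M + 1 := by omega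
    rw [this]; push_cast; ring
  have hcR : ((Icc 1 R).card : ℝ) = R := by rw [Nat.card_Icc]; congr 1
  rw [hcN, hcR]
  have hexp : ∑ r ∈ Icc 1 R, ∑ n ∈ Ioc M (2 * M + 1),
      ‖∑ x ∈ Ico S (2 * S) ×ˢ Icc 1 J, aw γ ψ k r x.1 x.2 n‖ ^ 2 ≤
      ∑ r ∈ Icc 1 R, ∑ x ∈ Ico S (2 * S) ×ˢ Icc 1 J, ∑ y ∈ Ico S (2 * S) ×ˢ Icc 1 J,
      ‖∑ n ∈ Ioc M (2 * M + 1), aw γ ψ k r x.1 x.2 n *
        (starRingEnd ℂ) (aw γ ψ k r y.1 y.2 n)‖ :=
    Finset.sum_le_sum fun r _ => Pool.Agent.H262R4.FR.TW2.expand_sq (Ico S (2 * S) ×ˢ Icc 1 J)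
      (Ioc M (2 * M + 1)) (fun x n => aw γ ψ k r x.1 x.2 n)
  have htot := total ε1 C1 C2 C4 hε1p hC1 hC2 hW hτ hdiag hgcd M S J R hM hS hJ V hV ψ hψ k hk
    hkJ γ hγ1 hγ2
  -- the parameter
  have hS3 : (S : ℝ) ≤ 3 * M := by
    have : (S : ℝ) ≤ 2 * M + 1 := by exact_mod_cast hSM
    linarith
  have hVM1 : 1 ≤ V * M := one_le_mul_of_one_le_of_one_le hV hM1
  have hVM0 : 0 < V * M := by linarith
  have hJV : (J : ℝ) ≤ V * M ^ 2 := by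
    refine le_trans ?_ hkJ
    exact le_mul_of_one_le_left hJ0.le hk1
  have hMV : (M : ℝ) ≤ V * M := le_mul_of_one_le_left hM0.le hV
  have hVV3 : V * (M : ℝ) ^ 3 ≤ (V * M) ^ 3 := by
    have h1 : (V * M) ^ 3 = V ^ 3 * (M : ℝ) ^ 3 := by ring
    rw [h1]
    exact mul_le_mul_of_nonneg_right (le_self_pow₀ hV (by norm_num)) (by positivity)
  set P : ℝ := (V * M) ^ ε1 with hP
  have hP1 : 1 ≤ P := Real.one_le_rpow hVM1 hε1p.le
  have hP0 : 0 < P := by linarith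
  have hpow : ∀ m : ℕ, ((V * M) ^ m) ^ ε1 = P ^ m := by
    intro m
    rw [hP, ← Real.rpow_natCast, ← Real.rpow_natCast, ← Real.rpow_mul hVM0.le,
      ← Real.rpow_mul hVM0.le, mul_comm ε1]
  have hPε : (V * M) ^ ε = P ^ 5 := by
    rw [hP, hε5, ← Real.rpow_natCast, ← Real.rpow_mul hVM0.le]
    congr 1
    push_cast; ring
  have hu1 : (6 * M * S : ℝ) ^ ε1 ≤ (18 : ℝ) ^ ε1 * P ^ 2 := by
    rw [← hpow 2, ← Real.mul_rpow (by norm_num) (by positivity)]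
    refine Real.rpow_le_rpow (by positivity) ?_ hε1p.le
    calc (6 * M * S : ℝ) ≤ 6 * M * (3 * M) := by gcongr
      _ = 18 * (M : ℝ) ^ 2 := by ring
      _ ≤ 18 * (V * M) ^ 2 := by gcongr
  have hu2 : (|(k : ℝ)| * (J * (2 * S))) ^ ε1 ≤ (6 : ℝ) ^ ε1 * P ^ 3 := by
    rw [← hpow 3, ← Real.mul_rpow (by norm_num) (by positivity)]
    refine Real.rpow_le_rpow (by positivity) ?_ hε1p.le
    calc |(k : ℝ)| * (J * (2 * S)) = (|(k : ℝ)| * J) * (2 * S) := by ring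
      _ ≤ (V * (M : ℝ) ^ 2) * (2 * (3 * M)) := by gcongr
      _ = 6 * (V * (M : ℝ) ^ 3) := by ring
      _ ≤ 6 * (V * M) ^ 3 := by gcongr
  have hu3 : (2 * S * J : ℝ) ^ (1 + ε1) ≤ (2 * S * J) * ((6 : ℝ) ^ ε1 * P ^ 3) := by
    rw [Real.rpow_add (by positivity), Real.rpow_one]
    refine mul_le_mul_of_nonneg_left ?_ (by positivity)
    rw [← hpow 3, ← Real.mul_rpow (by norm_num) (by positivity)]
    refine Real.rpow_le_rpow (by positivity) ?_ hε1p.le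
    calc (2 * S * J : ℝ) ≤ 2 * (3 * M) * (V * M ^ 2) := by gcongr
      _ = 6 * (V * (M : ℝ) ^ 3) := by ring
      _ ≤ 6 * (V * M) ^ 3 := by gcongr
  have hRle : (R : ℝ) ≤ 3 * M / S := by
    have h1 : ((2 * M + 1) / S : ℕ) ≤ (((2 * M + 1 : ℕ) : ℝ) / S : ℝ) := Nat.cast_div_le
    rw [hR]
    refine h1.trans ?_
    push_cast
    gcongr
    linarith
  have hM2 : (M : ℝ) + 1 ≤ 2 * M := by linarith
  have hR0 : (0 : ℝ) ≤ R := Nat.cast_nonneg _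
  obtain ⟨a, ha⟩ : ∃ a : ℝ, a = Real.sqrt M := ⟨_, rfl⟩
  obtain ⟨b, hb⟩ : ∃ b : ℝ, b = Real.sqrt S := ⟨_, rfl⟩
  have ha0 : 0 < a := by rw [ha]; exact Real.sqrt_pos.2 hM0
  have hb0 : 0 < b := by rw [hb]; exact Real.sqrt_pos.2 hS0
  have haM : a ^ 2 = M := by rw [ha]; exact Real.sq_sqrt hM0.le
  have hbS : b ^ 2 = S := by rw [hb]; exact Real.sq_sqrt hS0.le
  have hsq : Real.sqrt (M * S) = a * b := by rw [Real.sqrt_mul hM0.le, ha, hb]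
  have hM72 : (M : ℝ) ^ (7 / 2 : ℝ) = a ^ 7 := by
    rw [← haM, ← Real.rpow_natCast, ← Real.rpow_natCast, ← Real.rpow_mul ha0.le]
    norm_num
  have hS12 : (S : ℝ) ^ (1 / 2 : ℝ) = b := by rw [hb, Real.sqrt_eq_rpow]
  rw [hPε, hM72, hS12]
  rw [hsq] at htot
  obtain ⟨G4, hG4⟩ : ∃ x : ℝ, x = C4 * (6 : ℝ) ^ ε1 := ⟨_, rfl⟩
  obtain ⟨G1, hG1⟩ : ∃ x : ℝ, x = C1 * (18 : ℝ) ^ ε1 := ⟨_, rfl⟩
  obtain ⟨G2, hG2⟩ : ∃ x : ℝ, x = C2 * (6 : ℝ) ^ ε1 := ⟨_, rfl⟩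
  have hG40 : 0 < G4 := by rw [hG4]; positivity
  have hG10 : 0 < G1 := by rw [hG1]; positivity
  have hG20 : 0 < G2 := by rw [hG2]; positivity
  rw [← hG4, ← hG1, ← hG2]
  have b1 : C4 * (2 * S * J : ℝ) ^ (1 + ε1) ≤ (2 * S * J) * (G4 * P ^ 3) := by
    calc C4 * (2 * S * J : ℝ) ^ (1 + ε1) ≤ C4 * ((2 * S * J) * ((6 : ℝ) ^ ε1 * P ^ 3)) := by
          gcongr
      _ = _ := by rw [hG4]; ring
  have b2 : C1 * (6 * M * S : ℝ) ^ ε1 ≤ G1 * P ^ 2 := by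
    calc C1 * (6 * M * S : ℝ) ^ ε1 ≤ C1 * ((18 : ℝ) ^ ε1 * P ^ 2) := by gcongr
      _ = _ := by rw [hG1]; ring
  have b3 : C2 * (|(k : ℝ)| * (J * (2 * S))) ^ ε1 ≤ G2 * P ^ 3 := by
    calc C2 * (|(k : ℝ)| * (J * (2 * S))) ^ ε1 ≤ C2 * ((6 : ℝ) ^ ε1 * P ^ 3) := by gcongr
      _ = _ := by rw [hG2]; ring
  have hP35 : P ^ 3 ≤ P ^ 5 := pow_le_pow_right₀ hP1 (by norm_num)
  have htot2 : ∑ r ∈ Icc 1 R, ∑ n ∈ Ioc M (2 * M + 1),
      ‖∑ x ∈ Ico S (2 * S) ×ˢ Icc 1 J, aw γ ψ k r x.1 x.2 n‖ ^ 2 ≤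
      (3 * M / S) * ((2 * M) * ((2 * S * J) * (G4 * P ^ 3))) +
      ((G1 * P ^ 2) * (21 * V) * (6 * (a * b))) * ((3 * M / S) * (G2 * P ^ 3)) *
        (S ^ 2 * J ^ 2) := by
    refine hexp.trans (htot.trans ?_)
    gcongr
  calc ((M : ℝ) + 1) * R * ∑ r ∈ Icc 1 R, ∑ n ∈ Ioc M (2 * M + 1),
      ‖∑ x ∈ Ico S (2 * S) ×ˢ Icc 1 J, aw γ ψ k r x.1 x.2 n‖ ^ 2
      ≤ (2 * M) * (3 * M / S) * ((3 * M / S) * ((2 * M) * ((2 * S * J) * (G4 * P ^ 3))) +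
      ((G1 * P ^ 2) * (21 * V) * (6 * (a * b))) * ((3 * M / S) * (G2 * P ^ 3)) *
        (S ^ 2 * J ^ 2)) := by
        gcongr
    _ = 72 * G4 * P ^ 3 * ((M : ℝ) ^ 4 * J / S) +
        2268 * G1 * G2 * (P ^ 5 * V) * (a ^ 7 * J ^ 2 * b) := by
        rw [← haM, ← hbS]
        field_simp
        ring
    _ ≤ 72 * G4 * (P ^ 5 * V) * ((M : ℝ) ^ 4 * J / S) +
        2268 * G1 * G2 * (P ^ 5 * V) * (a ^ 7 * J ^ 2 * b) := by
        have c1 : P ^ 3 ≤ P ^ 5 * V := hP35.trans (le_mul_of_one_le_right (by positivity) hV)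
        gcongr
    _ ≤ _ := by
        have d1 : 0 ≤ (M : ℝ) ^ 4 * J / S := by positivity
        have d2 : 0 ≤ a ^ 7 * (J : ℝ) ^ 2 * b := by positivity
        have d3 : 0 ≤ P ^ 5 * V := by positivity
        have d4 : (72 * G4 + 2268 * G1 * G2) * P ^ 5 * V *
            ((M : ℝ) ^ 4 * J / S + a ^ 7 * (J : ℝ) ^ 2 * b) -
            (72 * G4 * (P ^ 5 * V) * ((M : ℝ) ^ 4 * J / S) +
              2268 * G1 * G2 * (P ^ 5 * V) * (a ^ 7 * J ^ 2 * b)) =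
            72 * G4 * (P ^ 5 * V) * (a ^ 7 * (J : ℝ) ^ 2 * b) +
            2268 * G1 * G2 * (P ^ 5 * V) * ((M : ℝ) ^ 4 * J / S) := by ring
        have d5 : 0 ≤ 72 * G4 * (P ^ 5 * V) * (a ^ 7 * (J : ℝ) ^ 2 * b) +
            2268 * G1 * G2 * (P ^ 5 * V) * ((M : ℝ) ^ 4 * J / S) := by positivity
        linarith

end Pool.Agent.H442R2.FX
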